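import Pool.Agent.Lib.MP_1bca0d_an.Prime

/-!
Reduction of the bidimension to a `δ`-equation for equivariant maps.
-/

open Topology Filter

set_option maxSynthPendingDepth 3

namespace Pool.Agent.Lib.MP_1bca0d_an

variable {A : Type} [NormedRing A] [NormedAlgebra ℂ A]

/-- the left module underlying a bimodule -/
noncomputable def BMod.left (P : BMod A) : LMod A where
  E := P.E
  act := P.actL
  act_mul := P.actL_mul

/-- iterated functoriality of the prime construction -/
noncomputable def iterMap {W V : LMod A} (f : W.E →L[ℂ] V.E) :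
    ∀ r, (iter W r).E →L[ℂ] (iter V r).E
  | 0 => f
  | r + 1 => primeMap (iterMap f r)

theorem isHom_iterMap {W V : LMod A} (f : W.E →L[ℂ] V.E) (hf : IsHom W V f) :
    ∀ r, IsHom (iter W r) (iter V r) (iterMap f r)
  | 0 => hf
  | r + 1 => isHom_primeMap _ (isHom_iterMap f hf r)

/-- right multiplication by `c` on `A_+` -/
noncomputable def rmulP (c : A) : Aplus A →L[ℂ] Aplus A :=
  (ContinuousLinearMap.mul ℂ (Aplus A)).flip (inrL c)

theorem fstL_rmulP (c : A) (w : Aplus A) : fstL (rmulP c w) = 0 := by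
  change ((WithLp.ofLp w) * Unitization.inr c).fst = _
  rw [Unitization.fst_mul]
  simp

theorem sndL_rmulP (c : A) (w : Aplus A) : sndL (rmulP c w) = fstL w • c + sndL w * c := by
  change ((WithLp.ofLp w) * Unitization.inr c).snd = _
  rw [Unitization.snd_mul]
  simp only [Unitization.fst_inr, Unitization.snd_inr, zero_smul, add_zero]
  rfl

theorem BMod.plusL_apply (X : BMod A) (u : Aplus A) (x : X.E) :
    X.plusL u x = fstL u • x + X.actL (sndL u) x := rfl

theorem BMod.plusR_apply (X : BMod A) (u : Aplus A) (x : X.E) :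
    X.plusR u x = fstL u • x + X.actR (sndL u) x := rfl

theorem BMod.plusR_rmulP (X : BMod A) (c : A) (w : Aplus A) (x : X.E) :
    X.plusR (rmulP c w) x = X.actR c (X.plusR w x) := by
  rw [X.plusR_apply, X.plusR_apply, fstL_rmulP, sndL_rmulP, zero_smul, zero_add, map_add, map_smul,
    map_add, map_smul, add_apply, smul_apply, X.actR_mul]

theorem BMod.plusL_plusR (X : BMod A) (u w : Aplus A) (x : X.E) :
    X.plusL u (X.plusR w x) = X.plusR w (X.plusL u x) := by
  simp only [X.plusR_apply, X.plusL_apply, map_add, map_smul, X.actL_actR, smul_add]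
  rw [smul_comm]
  abel

theorem BMod.rmult_mk (X : BMod A) (x : X.E) (w : Aplus A) :
    X.rmult (PT.mk x w) = X.plusR w x := by
  rw [BMod.rmult, PT.lift_mk]
  rfl

theorem BMod.mult_mk (X : BMod A) (u : Aplus A) (x : X.E) (w : Aplus A) :
    X.mult (PT.mk u (PT.mk x w)) = X.plusL u (X.plusR w x) := by
  rw [BMod.mult, PT.lift_mk]
  change X.plusL u (X.rmult (PT.mk x w)) = _
  rw [X.rmult_mk]

/-- a bounded linear map commuting with the right actions -/
def RLin (P Q : BMod A) (f : P.E →L[ℂ] Q.E) : Prop :=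
  ∀ c x, f (P.actR c x) = Q.actR c (f x)

theorem rmult_comp_map_id (X : BMod A) (c : A) (z : PT X.E (Aplus A)) :
    X.rmult (PT.map (ContinuousLinearMap.id ℂ X.E) (rmulP c) z) = X.actR c (X.rmult z) := by
  have h : X.rmult ∘L (PT.map (ContinuousLinearMap.id ℂ X.E) (rmulP c)) =
      (X.actR c) ∘L X.rmult := by
    apply PT.ext
    intro x w
    change X.rmult (PT.map (ContinuousLinearMap.id ℂ X.E) (rmulP c) (PT.mk x w)) =
      X.actR c (X.rmult (PT.mk x w))
    rw [PT.map_mk, X.rmult_mk, X.rmult_mk, X.plusR_rmulP]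
    rfl
  exact congrArg (fun f => f z) h

theorem rmult_map_of_rlin (P Q : BMod A) (f : P.E →L[ℂ] Q.E) (hf : RLin P Q f)
    (z : PT P.E (Aplus A)) :
    Q.rmult (PT.map f (ContinuousLinearMap.id ℂ (Aplus A)) z) = f (P.rmult z) := by
  have h : Q.rmult ∘L (PT.map f (ContinuousLinearMap.id ℂ (Aplus A))) = f ∘L P.rmult := by
    apply PT.ext
    intro x w
    change Q.rmult (PT.map f (ContinuousLinearMap.id ℂ (Aplus A)) (PT.mk x w)) =
      f (P.rmult (PT.mk x w))
    rw [PT.map_mk, Q.rmult_mk, P.rmult_mk, P.plusR_apply, map_add, map_smul, hf]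
    rfl
  exact congrArg (fun f => f z) h

/-- a right section of a bimodule -/
structure RSec (P : BMod A) where
  /-- the section -/
  τ : P.E →L[ℂ] PT P.E (Aplus A)
  right : ∀ c x, τ (P.actR c x) = PT.map (ContinuousLinearMap.id ℂ P.E) (rmulP c) (τ x)
  sec : ∀ x, P.rmult (τ x) = x

/-- the right linear modification of a bounded linear map -/
noncomputable def rlin {P : BMod A} (Q : BMod A) (t : RSec P) (s : P.E →L[ℂ] Q.E) :
    P.E →L[ℂ] Q.E :=
  Q.rmult ∘L (PT.map s (ContinuousLinearMap.id ℂ (Aplus A))) ∘L t.τ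

theorem PT.map_map {E F E' F' E'' F'' : Type} [NormedAddCommGroup E] [NormedSpace ℂ E]
    [NormedAddCommGroup F] [NormedSpace ℂ F]
    [NormedAddCommGroup E'] [NormedSpace ℂ E'] [NormedAddCommGroup F'] [NormedSpace ℂ F']
    [NormedAddCommGroup E''] [NormedSpace ℂ E''] [NormedAddCommGroup F''] [NormedSpace ℂ F'']
    (f : E →L[ℂ] E') (g : F →L[ℂ] F') (f' : E' →L[ℂ] E'') (g' : F' →L[ℂ] F'') (z : PT E F) :
    PT.map f' g' (PT.map f g z) = PT.map (f' ∘L f) (g' ∘L g) z := by
  have h : (PT.map f' g') ∘L (PT.map f g) = PT.map (f' ∘L f) (g' ∘L g) := by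
    apply PT.ext
    intro x w
    change PT.map f' g' (PT.map f g (PT.mk x w)) = _
    rw [PT.map_mk, PT.map_mk, PT.map_mk]
    rfl
  exact congrArg (fun f => f z) h

theorem rlin_rlin {P : BMod A} (Q : BMod A) (t : RSec P) (s : P.E →L[ℂ] Q.E) :
    RLin P Q (rlin Q t s) := by
  intro c x
  change Q.rmult (PT.map s (ContinuousLinearMap.id ℂ (Aplus A)) (t.τ (P.actR c x))) =
    Q.actR c (Q.rmult (PT.map s (ContinuousLinearMap.id ℂ (Aplus A)) (t.τ x)))
  rw [t.right, ← rmult_comp_map_id, PT.map_map, PT.map_map]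
  rfl

theorem rlin_of_rlin {P : BMod A} (Q : BMod A) (t : RSec P) (s : P.E →L[ℂ] Q.E)
    (hs : RLin P Q s) : rlin Q t s = s := by
  ext x
  change Q.rmult (PT.map s (ContinuousLinearMap.id ℂ (Aplus A)) (t.τ x)) = s x
  rw [rmult_map_of_rlin P Q s hs, t.sec]

theorem comp_rlin {P : BMod A} (Q Q' : BMod A) (t : RSec P) (s : P.E →L[ℂ] Q.E)
    (g : Q.E →L[ℂ] Q'.E) (hg : RLin Q Q' g) (x : P.E) :
    g (rlin Q t s x) = rlin Q' t (g ∘L s) x := by
  change g (Q.rmult (PT.map s (ContinuousLinearMap.id ℂ (Aplus A)) (t.τ x))) =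
    Q'.rmult (PT.map (g ∘L s) (ContinuousLinearMap.id ℂ (Aplus A)) (t.τ x))
  rw [← rmult_map_of_rlin Q Q' g hg, PT.map_map]
  rfl

/-- the map `A_+ ⊗ (P ⊗ A_+) → P ⊗ A_+` -/
noncomputable def toRight (P : BMod A) :
    PT (Aplus A) (PT P.E (Aplus A)) →L[ℂ] PT P.E (Aplus A) :=
  PT.lift (((PT.lift : _ →L[ℂ] PT P.E (Aplus A) →L[ℂ] PT P.E (Aplus A)) ∘L
    (ContinuousLinearMap.compL ℂ P.E P.E (Aplus A →L[ℂ] PT P.E (Aplus A)) PT.mk)) ∘L P.plusL)

theorem toRight_mk (P : BMod A) (u : Aplus A) (p : P.E) (w : Aplus A) :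
    toRight P (PT.mk u (PT.mk p w)) = PT.mk (P.plusL u p) w := by
  rw [toRight, PT.lift_mk]
  change PT.lift (PT.mk ∘L (P.plusL u)) (PT.mk p w) = _
  rw [PT.lift_mk]
  rfl

theorem PT.ext3 {E F F' G : Type} [NormedAddCommGroup E] [NormedSpace ℂ E]
    [NormedAddCommGroup F] [NormedSpace ℂ F] [NormedAddCommGroup F'] [NormedSpace ℂ F']
    [NormedAddCommGroup G] [NormedSpace ℂ G]
    {f g : PT E (PT F F') →L[ℂ] G} (h : ∀ e x y, f (PT.mk e (PT.mk x y)) = g (PT.mk e (PT.mk x y))) :
    f = g := by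
  apply PT.ext
  intro e z
  have : f ∘L (PT.mk e) = g ∘L (PT.mk e) := PT.ext (h e)
  exact congrArg (fun f => f z) this

/-- projective bimodules have right sections -/
theorem exists_rsec (P : BMod A) (hP : P.Projective) : Nonempty (RSec P) := by
  obtain ⟨σ, h1, h2, h3⟩ := hP
  refine ⟨⟨toRight P ∘L σ, ?_, ?_⟩⟩
  · intro c x
    change toRight P (σ (P.actR c x)) =
      PT.map (ContinuousLinearMap.id ℂ P.E) (rmulP c) (toRight P (σ x))
    rw [h2]
    have h : (toRight P) ∘L (PT.map (ContinuousLinearMap.id ℂ (Aplus A))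
        (PT.map (ContinuousLinearMap.id ℂ P.E) ((ContinuousLinearMap.mul ℂ (Aplus A)).flip (inrL c)))) =
        (PT.map (ContinuousLinearMap.id ℂ P.E) (rmulP c)) ∘L (toRight P) := by
      apply PT.ext3
      intro u p w
      change toRight P (PT.map _ (PT.map _ _) (PT.mk u (PT.mk p w))) =
        PT.map _ _ (toRight P (PT.mk u (PT.mk p w)))
      rw [PT.map_mk, PT.map_mk, toRight_mk, toRight_mk, PT.map_mk]
      rfl
    exact congrArg (fun f => f (σ x)) h
  · intro x
    change P.rmult (toRight P (σ x)) = x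
    have h : P.rmult ∘L (toRight P) = P.mult := by
      apply PT.ext3
      intro u p w
      change P.rmult (toRight P (PT.mk u (PT.mk p w))) = _
      rw [toRight_mk, P.rmult_mk, P.mult_mk, P.plusL_plusR]
    have h4 : P.mult (σ x) = x := h3 x
    rw [← h] at h4
    exact h4

/-- projective bimodules have right equivariant left sections -/
theorem exists_lsec (P : BMod A) (hP : P.Projective) :
    ∃ σ : P.left.E →L[ℂ] PT (Aplus A) P.left.E,
      (∀ a x, σ (P.left.act a x) =
        PT.map (ContinuousLinearMap.mul ℂ (Aplus A) (inrL a)) (ContinuousLinearMap.id ℂ P.left.E)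
          (σ x)) ∧
      (∀ x, P.left.mult (σ x) = x) ∧
      (∀ c x, σ (P.actR c x) = PT.map (ContinuousLinearMap.id ℂ (Aplus A)) (P.actR c) (σ x)) := by
  obtain ⟨σ, h1, h2, h3⟩ := hP
  refine ⟨(PT.map (ContinuousLinearMap.id ℂ (Aplus A)) P.rmult) ∘L σ, ?_, ?_, ?_⟩
  · intro a x
    change PT.map (ContinuousLinearMap.id ℂ (Aplus A)) P.rmult (σ (P.actL a x)) =
      PT.map (ContinuousLinearMap.mul ℂ (Aplus A) (inrL a)) (ContinuousLinearMap.id ℂ P.E)
        (PT.map (ContinuousLinearMap.id ℂ (Aplus A)) P.rmult (σ x))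
    rw [h1, PT.map_map, PT.map_map]
    rfl
  · intro x
    change P.left.mult (PT.map (ContinuousLinearMap.id ℂ (Aplus A)) P.rmult (σ x)) = x
    have h : P.left.mult ∘L (PT.map (ContinuousLinearMap.id ℂ (Aplus A)) P.rmult) = P.mult := by
      apply PT.ext
      intro u z
      have e1 : PT.map (ContinuousLinearMap.id ℂ (Aplus A)) P.rmult (PT.mk u z) =
          PT.mk u (P.rmult z) := PT.map_mk _ _ _ _
      have e2 : P.left.mult (PT.mk u (P.rmult z)) = P.plusL u (P.rmult z) :=
        PT.lift_mk P.left.plus u (P.rmult z)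
      have e3 : P.mult (PT.mk u z) = P.plusL u (P.rmult z) := PT.lift_mk _ u z
      exact ((congrArg (fun y => P.left.mult y) e1).trans e2).trans e3.symm
    have h4 : P.mult (σ x) = x := h3 x
    rw [← h] at h4
    exact h4
  · intro c x
    change PT.map (ContinuousLinearMap.id ℂ (Aplus A)) P.rmult (σ (P.actR c x)) =
      PT.map (ContinuousLinearMap.id ℂ (Aplus A)) (P.actR c)
        (PT.map (ContinuousLinearMap.id ℂ (Aplus A)) P.rmult (σ x))
    rw [h2, PT.map_map, PT.map_map]
    congr 2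
    ext z
    exact rmult_comp_map_id P c z

end Pool.Agent.Lib.MP_1bca0d_an
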