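import Pool.Agent.Lib.MP_1bca0d_an.Core2

/-!
The final contradiction.
-/

open Filter Topology Function

namespace Pool.Agent.Lib.MP_1bca0d_an

theorem alt_sum (N : ℕ) : ∀ α : Fin (N + 1) → ℂ,
    ∑ i : Fin N, (-1 : ℂ) ^ (i : ℕ) * (α i.castSucc + α i.succ) + (-1 : ℂ) ^ N * α (Fin.last N) =
      α 0 := by
  induction N with
  | zero => intro α; simp
  | succ N ih =>
    intro α
    rw [Fin.sum_univ_castSucc]
    have h := ih (fun i => α i.castSucc)
    simp only [Fin.val_castSucc, Fin.succ_castSucc] at h ⊢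
    have h2 : (Fin.last N).succ = Fin.last (N + 1) := rfl
    rw [h2, Fin.val_last]
    have h3 : α 0 = α (Fin.castSucc 0) := rfl
    rw [h3, ← h, pow_succ]
    ring

variable {K : Type} [TopologicalSpace K] [CompactSpace K] {N : ℕ} (D : Dat K N)

namespace Dat

/-- the base point -/
def pt0 {ι : Type*} : ι → ℕ × ℕ := fun _ => (0, 0)

/-- the iterated limits of the first family -/
noncomputable def al (j : Fin (N + 1)) : ℂ :=
  LimL WW (List.finRange (N + 2)) (D.FA j) pt0

/-- the iterated limits of the second family -/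
noncomputable def up (i : Fin (N + 1)) : ℂ :=
  LimL WW (List.finRange (N + 1)) (D.FU i) pt0

theorem al_eq (j : Fin (N + 1)) (l : List (Fin (N + 2))) (hl : l.Nodup) (hmem : ∀ x, x ∈ l) :
    LimL WW l (D.FA j) pt0 = D.al j := by
  refine LimL_perm WW WW_lt WW_gt (D.FA j) D.C D.C (D.norm_FA_le j) (D.vb2_FA j) hl ?_ _
  rw [List.perm_ext_iff_of_nodup hl (List.nodup_finRange _)]
  intro x
  simp [hmem x]

theorem up_eq (j : Fin (N + 1)) (l : List (Fin (N + 1))) (hl : l.Nodup) (hmem : ∀ x, x ∈ l) :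
    LimL WW l (D.FU j) pt0 = D.up j := by
  refine LimL_perm WW WW_lt WW_gt (D.FU j) D.C D.C (D.norm_FU_le j) (D.vb2_FU j) hl ?_ _
  rw [List.perm_ext_iff_of_nodup hl (List.nodup_finRange _)]
  intro x
  simp [hmem x]

theorem up_last : D.up (Fin.last N) = D.al (Fin.last N) := by
  set o := (List.finRange (N + 1)).erase (Fin.last N) with ho
  have hond : o.Nodup := (List.nodup_finRange _).erase _
  have homem : ∀ x, x ∈ o ↔ x ≠ Fin.last N := by
    intro x
    rw [ho, (List.nodup_finRange _).mem_erase_iff]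
    simp
  have hQ : (Fin.last N).castSucc ≠ Fin.last (N + 1) := (Fin.castSucc_lt_last _).ne
  have hemblast : (Fin.last N).castSucc.succAbove (Fin.last N) = Fin.last (N + 1) := by
    rw [Fin.succAbove_castSucc_self]
    rfl
  rw [← D.up_eq (Fin.last N) (o ++ [Fin.last N]) ?_ ?_,
    ← D.al_eq (Fin.last N) (o.map (Fin.last N).castSucc.succAbove ++
      [Fin.last (N + 1), (Fin.last N).castSucc]) ?_ ?_]
  · exact (LimL_map WW _ Fin.succAbove_right_injective _ _ _ _ D.base_last o pt0).symm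
  · rw [List.nodup_append]
    refine ⟨hond.map Fin.succAbove_right_injective, by simp [hQ.symm], ?_⟩
    intro a ha b hb hab
    subst hab
    rw [List.mem_map] at ha
    obtain ⟨y, hy, rfl⟩ := ha
    rw [homem] at hy
    simp only [List.mem_cons, List.not_mem_nil, or_false] at hb
    rcases hb with hb | hb
    · rw [← hemblast] at hb
      exact hy (Fin.succAbove_right_injective hb)
    · exact Fin.succAbove_ne _ _ hb
  · intro x
    rw [List.mem_append]
    by_cases h1 : x = (Fin.last N).castSucc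
    · right; simp [h1]
    · obtain ⟨y, rfl⟩ := Fin.exists_succAbove_eq h1
      by_cases h2 : y = Fin.last N
      · right
        rw [h2, hemblast]
        simp
      · left
        exact List.mem_map_of_mem ((homem y).2 h2)
  · rw [List.nodup_append]
    refine ⟨hond, by simp, ?_⟩
    intro a ha b hb hab
    subst hab
    rw [List.mem_singleton] at hb
    exact (homem a).1 ha hb
  · intro x
    rw [List.mem_append, List.mem_singleton, homem]
    tauto

theorem up_castSucc (i : Fin N) : D.up i.castSucc = D.al i.castSucc + D.al i.succ := by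
  set o := (List.finRange (N + 1)).erase i.castSucc with ho
  have hond : o.Nodup := (List.nodup_finRange _).erase _
  have homem : ∀ x, x ∈ o ↔ x ≠ i.castSucc := by
    intro x
    rw [ho, (List.nodup_finRange _).mem_erase_iff]
    simp
  have hPQ : i.castSucc.castSucc ≠ i.succ.castSucc := by
    intro h
    exact (Fin.castSucc_lt_succ (i := i)).ne (Fin.castSucc_injective _ h)
  have hnd : (o.map i.succ.castSucc.succAbove ++
      [i.castSucc.castSucc, i.succ.castSucc]).Nodup := by
    rw [List.nodup_append]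
    refine ⟨hond.map Fin.succAbove_right_injective, by
      rw [List.nodup_cons, List.mem_singleton]
      exact ⟨hPQ, List.nodup_singleton _⟩, ?_⟩
    intro a ha b hb hab
    subst hab
    rw [List.mem_map] at ha
    obtain ⟨y, hy, rfl⟩ := ha
    rw [homem] at hy
    simp only [List.mem_cons, List.not_mem_nil, or_false] at hb
    rcases hb with hb | hb
    · rw [← idx3 i] at hb
      exact hy (Fin.succAbove_right_injective hb)
    · exact Fin.succAbove_ne _ _ hb
  have hmem : ∀ x, x ∈ (o.map i.succ.castSucc.succAbove ++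
      [i.castSucc.castSucc, i.succ.castSucc]) := by
    intro x
    rw [List.mem_append]
    by_cases h1 : x = i.succ.castSucc
    · right; simp [h1]
    · obtain ⟨y, rfl⟩ := Fin.exists_succAbove_eq h1
      by_cases h2 : y = i.castSucc
      · right
        rw [h2, idx3]
        simp
      · left
        exact List.mem_map_of_mem ((homem y).2 h2)
  rw [← D.up_eq i.castSucc (o ++ [i.castSucc]) ?_ ?_, ← D.al_eq i.castSucc _ hnd hmem,
    ← D.al_eq i.succ _ hnd hmem]
  · rw [← LimL_add WW _ (D.norm_FA_le i.castSucc) (D.norm_FA_le i.succ)]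
    exact (LimL_map WW _ Fin.succAbove_right_injective _ _ _ _ (D.base_mid i) o pt0).symm
  · rw [List.nodup_append]
    refine ⟨hond, by simp, ?_⟩
    intro a ha b hb hab
    subst hab
    rw [List.mem_singleton] at hb
    exact (homem a).1 ha hb
  · intro x
    rw [List.mem_append, List.mem_singleton, homem]
    tauto

theorem al_zero
    (hort : ∀ (c : Fin (N + 1) → C(K, ℂ)), (∀ i : Fin N, c i.castSucc * c i.succ = 0) →
      ∀ s : K, c (Fin.last N) s = 0 → ∀ v : Fin (N + 2) → K, v (Fin.last (N + 1)) = s →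
      c 0 (v 0) = 1 → D.Γ (Fin.tail c) s v = ∏ i : Fin N, c i.succ (v i.succ.castSucc)) :
    D.al 0 = 1 := by
  refine LimL_eq_of_good (D.FA 0) 1 _ ∅ (fun i => Or.inr (List.mem_finRange i)) ?_ (by simp)
    (List.nodup_finRange _) pt0 ⟨by simp, by simp⟩
  intro k hk
  have hlt : ∀ i, (k i).1 < (k i).2 := fun i => (hk {i}).1 i (by simp)
  have hsep : ∀ i j, i ≠ j → Sep (k i) (k j) := fun i j hij =>
    (hk {i, j}).2 i (by simp) j (by simp) hij
  -- products of cells
  have hφcomm : ∀ l l', l < l' → D.φ l' * D.φ l = D.φ l' := fun l l' h => by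
    rw [mul_comm]; exact D.hmul l l' h
  have hcell_mul : ∀ I I' : ℕ × ℕ, I.1 < I.2 → I'.1 < I'.2 → I.2 < I'.1 →
      cell D.φ I * cell D.φ I' = 0 := by
    intro I I' h1 h2 h3
    simp only [cell]
    rw [sub_mul, mul_sub, mul_sub, D.hmul I.1 I'.1 (h1.trans h3), D.hmul I.1 I'.2
      ((h1.trans h3).trans h2), D.hmul I.2 I'.1 h3, D.hmul I.2 I'.2 (h3.trans h2)]
    abel
  have hcell_sep : ∀ i j, i ≠ j → cell D.φ (k i) * cell D.φ (k j) = 0 := by
    intro i j hij
    rcases hsep i j hij with h | h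
    · exact hcell_mul _ _ (hlt i) (hlt j) h
    · rw [mul_comm]
      exact hcell_mul _ _ (hlt j) (hlt i) h
  have hcell_pt : ∀ i j, i ≠ j → cell D.φ (k i) (D.t (k j).1) = 0 := by
    intro i j hij
    change D.φ (k i).1 (D.t (k j).1) - D.φ (k i).2 (D.t (k j).1) = 0
    rcases hsep i j hij with h | h
    · rw [D.h1 _ _ ((hlt i).trans h).le, D.h1 _ _ h.le, sub_self]
    · have h2 := (hlt j).trans h
      rw [D.h0 _ _ h2, D.h0 _ _ (h2.trans (hlt i)), sub_self]
  have hcell_self : ∀ i, cell D.φ (k i) (D.t (k i).1) = 1 := by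
    intro i
    change D.φ (k i).1 (D.t (k i).1) - D.φ (k i).2 (D.t (k i).1) = 1
    rw [D.h1 _ _ le_rfl, D.h0 _ _ (hlt i), sub_zero]
  have h := hort (fun i => cell D.φ (k i.castSucc)) (by
    intro i
    apply hcell_sep
    intro h
    exact (Fin.castSucc_lt_succ (i := i)).ne (Fin.castSucc_injective _ h))
    (D.t (k (Fin.last (N + 1))).1) (hcell_pt _ _ (Fin.castSucc_lt_last _).ne)
    (fun m => D.t (k m).1) rfl (hcell_self _)
  rw [FA]
  refine Eq.trans ?_ (h.trans ?_)
  · rfl
  · refine Finset.prod_eq_one fun i _ => ?_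
    exact hcell_self _

theorem contra
    (hort : ∀ (c : Fin (N + 1) → C(K, ℂ)), (∀ i : Fin N, c i.castSucc * c i.succ = 0) →
      ∀ s : K, c (Fin.last N) s = 0 → ∀ v : Fin (N + 2) → K, v (Fin.last (N + 1)) = s →
      c 0 (v 0) = 1 → D.Γ (Fin.tail c) s v = ∏ i : Fin N, c i.succ (v i.succ.castSucc))
    (hsum : ∀ (a : Fin N → C(K, ℂ)) (s : K) (v : Fin (N + 1) → K),
      ∑ i : Fin (N + 1), (-1 : ℂ) ^ (i : ℕ) * D.Γ a s (v ∘ Fin.predAbove i) = 0) : False := by
  have h1 : ∑ i : Fin (N + 1), (-1 : ℂ) ^ (i : ℕ) * D.up i = 0 := by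
    have e1 : ∀ i : Fin (N + 1), (-1 : ℂ) ^ (i : ℕ) * D.up i =
        LimL WW (List.finRange (N + 1)) (fun k => (-1 : ℂ) ^ (i : ℕ) * D.FU i k) pt0 := by
      intro i
      rw [LimL_const_mul WW _ (D.norm_FU_le i)]
      rfl
    simp only [e1]
    rw [← LimL_sum WW Finset.univ (List.finRange (N + 1))
      (fun (i : Fin (N + 1)) k => (-1 : ℂ) ^ (i : ℕ) * D.FU i k) D.C (fun i k => by
        rw [norm_mul, norm_pow, norm_neg, norm_one, one_pow, one_mul]
        exact D.norm_FU_le i k)]
    have e2 : ∀ k : Fin (N + 1) → ℕ × ℕ, ∑ i : Fin (N + 1), (-1 : ℂ) ^ (i : ℕ) * D.FU i k = 0 :=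
      fun k => hsum (fun p => cell D.φ (k p.castSucc)) (D.t (k (Fin.last N)).1)
        (fun m => D.t (k m).1)
    rw [LimL_congr WW (List.finRange (N + 1)) e2]
    have e3 : ∀ (l : List (Fin (N + 1))) (k : Fin (N + 1) → ℕ × ℕ),
        LimL WW l (fun _ => (0 : ℂ)) k = 0 := by
      intro l
      induction l with
      | nil => intro k; rfl
      | cons i l ih =>
        intro k
        simp only [LimL, ih]
        exact ulim_const WW 0
    exact e3 _ _
  rw [Fin.sum_univ_castSucc] at h1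
  simp only [up_castSucc, up_last, Fin.val_castSucc, Fin.val_last] at h1
  rw [alt_sum N D.al, D.al_zero hort] at h1
  exact one_ne_zero h1

end Dat

/-- no functional with these properties exists on a space without isolated points -/
theorem no_Gamma {K : Type} [TopologicalSpace K] [CompactSpace K] [T2Space K] [Nonempty K]
    (hK : ∀ (U : Set K) (t : K), IsOpen U → t ∈ U → (U \ {t}).Nonempty) {N : ℕ}
    (Γ : (Fin N → C(K, ℂ)) → K → (Fin (N + 2) → K) → ℂ)
    (hlin : ∀ (a : Fin N → C(K, ℂ)) (i : Fin N) (s : K) (v : Fin (N + 2) → K),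
      ∃ f : C(K, ℂ) →L[ℂ] ℂ, ∀ ψ, Γ (update a i ψ) s v = f ψ)
    (hcont : ∀ (a : Fin N → C(K, ℂ)) (s : K),
      Continuous fun w : Fin (N + 1) → K => Γ a s (Fin.snoc w s))
    (C : ℝ) (hC : 0 ≤ C) (hbd : MeasBd Γ C)
    (hort : ∀ (c : Fin (N + 1) → C(K, ℂ)), (∀ i : Fin N, c i.castSucc * c i.succ = 0) →
      ∀ s : K, c (Fin.last N) s = 0 → ∀ v : Fin (N + 2) → K, v (Fin.last (N + 1)) = s →
      c 0 (v 0) = 1 → Γ (Fin.tail c) s v = ∏ i : Fin N, c i.succ (v i.succ.castSucc))
    (hsum : ∀ (a : Fin N → C(K, ℂ)) (s : K) (v : Fin (N + 1) → K),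
      ∑ i : Fin (N + 1), (-1 : ℂ) ^ (i : ℕ) * Γ a s (v ∘ Fin.predAbove i) = 0) : False := by
  obtain ⟨t, φ, h01, h1, h0, hmul, P1, P2⟩ := exists_path hK Γ hlin hcont
  exact Dat.contra ⟨Γ, hlin, C, hC, hbd, t, φ, h01, h1, h0, hmul, P1, P2⟩ hort hsum

end Pool.Agent.Lib.MP_1bca0d_an
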