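import Pool.Agent.Lib.MP_1bca0d_an.Gamma
import Pool.Agent.Lib.MP_1bca0d_an.Core3

/-!
The homological dimension of `ℓ_∞(K)` over `C(K)`, and the two dimensions of `C(K)`, for compact
Hausdorff spaces without isolated points.
-/

open Topology Filter

namespace Pool.Agent.Lib.MP_1bca0d_an

theorem no_Rho {K : Type} [TopologicalSpace K] [CompactSpace K] [T2Space K] [Nonempty K]
    (hK : ∀ (U : Set K) (t : K), IsOpen U → t ∈ U → (U \ {t}).Nonempty) (N : ℕ)
    (Rh : Rho (linf K) N) : False := by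
  obtain ⟨C, hC, hbd⟩ := Gam_meas Rh
  exact no_Gamma hK (Gam Rh) (Gam_lin Rh) (Gam_cont Rh) C hC hbd (Gam_ort Rh) (Gam_sum Rh)

theorem dh_linf {K : Type} [TopologicalSpace K] [CompactSpace K] [T2Space K] [Nonempty K]
    (hK : ∀ (U : Set K) (t : K), IsOpen U → t ∈ U → (U \ {t}).Nonempty) :
    dh (linf K) = ⊤ := by
  have h : ∀ m : ℕ, IsEmpty (Nonempty (Resolution (linf K) m)) := by
    intro m
    refine ⟨fun ⟨Res⟩ => ?_⟩
    obtain ⟨Rh⟩ := exists_Rho_of_resolution (linf K) m Res m le_rfl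
    exact no_Rho hK m Rh
  unfold dh
  simp

theorem dg_eq_top {K : Type} [TopologicalSpace K] [CompactSpace K] [T2Space K] [Nonempty K]
    (hK : ∀ (U : Set K) (t : K), IsOpen U → t ∈ U → (U \ {t}).Nonempty) :
    dg C(K, ℂ) = ⊤ := by
  refine top_le_iff.1 ?_
  rw [← dh_linf hK]
  exact le_iSup (fun X : LMod C(K, ℂ) => dh X) (linf K)

theorem db_eq_top {K : Type} [TopologicalSpace K] [CompactSpace K] [T2Space K] [Nonempty K]
    (hK : ∀ (U : Set K) (t : K), IsOpen U → t ∈ U → (U \ {t}).Nonempty) :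
    db C(K, ℂ) = ⊤ := by
  have h : ∀ m : ℕ, IsEmpty (Nonempty (BResolution (regularB C(K, ℂ)) m)) := by
    intro m
    refine ⟨fun ⟨Res⟩ => ?_⟩
    obtain ⟨Rh⟩ := exists_Rho_of_bresolution (linf K) linf_act_one m Res m le_rfl
    exact no_Rho hK m Rh
  unfold db dhB
  simp

end Pool.Agent.Lib.MP_1bca0d_an
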