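import Pool.Agent.Lib.MP_1bca0d_an.Spec
import Pool.Agent.Lib.MP_1bca0d_an.Final

/-!
Comparison of the compact definitions of `Spec.lean` with the working definitions of `Defs.lean`.
-/

open Topology Filter

set_option maxSynthPendingDepth 3

namespace Pool.Agent.Lib.MP_1bca0d_an.Spec

section Tensor

variable {E F : Type} [NormedAddCommGroup E] [NormedSpace ℂ E]
  [NormedAddCommGroup F] [NormedSpace ℂ F]

instance : CompleteSpace (PTS E F) := by
  have : IsClosed (PTsubS E F : Set (BFun E F)) :=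
    Submodule.isClosed_topologicalClosure _
  exact this.completeSpace_coe

/-- inclusion of the tensor product into the bounded functions -/
noncomputable def inclS : PTS E F →L[ℂ] BFun E F := (PTsubS E F).subtypeL

theorem norm_inclS (z : PTS E F) : ‖inclS z‖ = ‖z‖ := rfl

theorem inclS_tm (e : E) (f : F) (φ : BilBall E F) : inclS (tm e f) φ = φ.1 e f := rfl

theorem inclS_inj {z w : PTS E F} (h : ∀ φ, inclS z φ = inclS w φ) : z = w :=
  Subtype.ext (BoundedContinuousFunction.ext h)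

theorem bb_add_left (φ : BilBall E F) (e e' : E) (f : F) :
    φ.1 (e + e') f = φ.1 e f + φ.1 e' f := φ.2.1.add_left e e' f

theorem bb_add_right (φ : BilBall E F) (e : E) (f f' : F) :
    φ.1 e (f + f') = φ.1 e f + φ.1 e f' := φ.2.1.add_right e f f'

theorem bb_smul_left (φ : BilBall E F) (c : ℂ) (e : E) (f : F) :
    φ.1 (c • e) f = c • φ.1 e f := φ.2.1.smul_left c e f

theorem bb_smul_right (φ : BilBall E F) (c : ℂ) (e : E) (f : F) :
    φ.1 e (c • f) = c • φ.1 e f := φ.2.1.smul_right c e f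

theorem norm_tm_le (e : E) (f : F) : ‖tm e f‖ ≤ ‖e‖ * ‖f‖ := by
  rw [← norm_inclS]
  exact (BoundedContinuousFunction.norm_le (by positivity)).2 fun φ => φ.2.2 e f

/-- elementary tensors, as a bounded bilinear map -/
noncomputable def tmL : E →L[ℂ] F →L[ℂ] PTS E F :=
  LinearMap.mkContinuous₂
    (LinearMap.mk₂ ℂ (fun e f => (tm e f : PTS E F))
      (by
        intro m₁ m₂ n
        refine inclS_inj fun φ => ?_
        rw [map_add]
        exact bb_add_left φ m₁ m₂ n)
      (by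
        intro c m n
        refine inclS_inj fun φ => ?_
        rw [map_smul]
        exact bb_smul_left φ c m n)
      (by
        intro m n₁ n₂
        refine inclS_inj fun φ => ?_
        rw [map_add]
        exact bb_add_right φ m n₁ n₂)
      (by
        intro c m n
        refine inclS_inj fun φ => ?_
        rw [map_smul]
        exact bb_smul_right φ c m n)) 1
    (by
      intro e f
      rw [one_mul]
      exact norm_tm_le e f)

/-- the comparison map -/
noncomputable def kk : PT E F →L[ℂ] PTS E F := PT.lift tmL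

theorem kk_mk (e : E) (f : F) : kk (PT.mk e f) = tm e f := PT.lift_mk tmL e f

/-- a bounded bilinear form of norm at most one as an element of the unit ball -/
noncomputable def toBall (φ : E →L[ℂ] F →L[ℂ] ℂ) (h : ‖φ‖ ≤ 1) : BilBall E F :=
  ⟨fun e f => φ e f, φ.isBoundedBilinearMap, fun e f => by
    calc ‖φ e f‖ ≤ ‖φ‖ * ‖e‖ * ‖f‖ := φ.le_opNorm₂ e f
      _ ≤ 1 * ‖e‖ * ‖f‖ := by gcongr
      _ = ‖e‖ * ‖f‖ := by rw [one_mul]⟩

theorem inclS_kk (z : PT E F) (φ : E →L[ℂ] F →L[ℂ] ℂ) (h : ‖φ‖ ≤ 1) :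
    inclS (kk z) (toBall φ h) = PT.incl E F z φ := by
  refine PT.induction (p := fun z => inclS (kk z) (toBall φ h) = PT.incl E F z φ) ?_ ?_ ?_ ?_ z
  · refine isClosed_eq ?_ ?_
    · have h1 : Continuous fun b : BFun E F => b (toBall φ h) :=
        (BoundedContinuousFunction.evalCLM ℂ (toBall φ h)).continuous
      exact h1.comp (inclS.continuous.comp kk.continuous)
    · exact (ContinuousLinearMap.apply ℂ ℂ φ).continuous.comp (PT.incl E F).continuous
  · rw [map_zero, map_zero, map_zero]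
    rfl
  · intro x y hx hy
    rw [map_add, map_add, map_add]
    change inclS (kk x) (toBall φ h) + inclS (kk y) (toBall φ h) =
      PT.incl E F x φ + PT.incl E F y φ
    rw [hx, hy]
  · intro e f
    rw [kk_mk]
    rfl

theorem norm_le_kk (z : PT E F) : ‖z‖ ≤ ‖kk z‖ := by
  refine PT.norm_le_of z _ (norm_nonneg _) fun φ => ?_
  have h0 : ∀ ψ : E →L[ℂ] F →L[ℂ] ℂ, ‖ψ‖ ≤ 1 → ‖PT.incl E F z ψ‖ ≤ ‖kk z‖ := by
    intro ψ hψ
    rw [← inclS_kk z ψ hψ, ← norm_inclS]
    exact BoundedContinuousFunction.norm_coe_le_norm _ _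
  rcases eq_or_ne φ 0 with rfl | hφ
  · simp
  have hn : 0 < ‖φ‖ := norm_pos_iff.2 hφ
  have h1 := h0 (((‖φ‖ : ℝ) : ℂ)⁻¹ • φ) (by
    rw [norm_smul, norm_inv, Complex.norm_real, norm_norm, inv_mul_cancel₀ hn.ne'])
  rw [map_smul, norm_smul, norm_inv, Complex.norm_real, norm_norm] at h1
  rw [inv_mul_le_iff₀ hn] at h1
  rw [mul_comm]
  exact h1

theorem kk_surj : Function.Surjective (kk : PT E F → PTS E F) := by
  have hanti : AntilipschitzWith 1 (kk : PT E F →L[ℂ] PTS E F) :=
    ContinuousLinearMap.antilipschitz_of_bound _ fun z => by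
      rw [NNReal.coe_one, one_mul]; exact norm_le_kk z
  have hcl : IsClosed (Set.range (kk : PT E F → PTS E F)) :=
    hanti.isClosed_range (kk : PT E F →L[ℂ] PTS E F).uniformContinuous
  have hcl2 : IsClosed ((Subtype.val : PTsubS E F → BFun E F) ''
      Set.range (kk : PT E F → PTS E F)) :=
    (Submodule.isClosed_topologicalClosure _).isClosedEmbedding_subtypeVal.isClosedMap _ hcl
  have hsub : (Submodule.map (inclS : PTS E F →L[ℂ] BFun E F).toLinearMap
      (LinearMap.range (kk : PT E F →L[ℂ] PTS E F).toLinearMap) : Set (BFun E F)) =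
      (Subtype.val : PTsubS E F → BFun E F) '' Set.range (kk : PT E F → PTS E F) := by
    rfl
  intro w
  have hw : (inclS w : BFun E F) ∈ PTsubS E F := w.2
  have hle : PTsubS E F ≤ Submodule.map (inclS : PTS E F →L[ℂ] BFun E F).toLinearMap
      (LinearMap.range (kk : PT E F →L[ℂ] PTS E F).toLinearMap) := by
    refine Submodule.topologicalClosure_minimal _ ?_ (by rw [hsub]; exact hcl2)
    rw [Submodule.span_le]
    rintro _ ⟨⟨e, f⟩, rfl⟩
    exact ⟨tm e f, ⟨PT.mk e f, kk_mk e f⟩, rfl⟩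
  obtain ⟨w', ⟨z, hz⟩, hw'⟩ := hle hw
  refine ⟨z, ?_⟩
  have : w' = w := Subtype.ext hw'
  rw [← this]
  exact hz

theorem kk_inj : Function.Injective (kk : PT E F → PTS E F) := by
  intro z w h
  have h1 : kk (z - w) = 0 := by rw [map_sub, sub_eq_zero]; exact h
  have h2 := norm_le_kk (z - w)
  rw [h1, norm_zero] at h2
  exact sub_eq_zero.1 (norm_le_zero_iff.1 h2)

/-- the comparison isomorphism, algebraically -/
noncomputable def kl : PT E F ≃ₗ[ℂ] PTS E F :=
  LinearEquiv.ofBijective (kk : PT E F →L[ℂ] PTS E F).toLinearMap ⟨kk_inj, kk_surj⟩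

theorem kl_symm (z : PT E F) : kl.symm (kk z) = z :=
  LinearEquiv.ofBijective_symm_apply_apply _ z

/-- the comparison isomorphism -/
noncomputable def ke : PT E F ≃L[ℂ] PTS E F :=
  LinearEquiv.toContinuousLinearEquivOfBounds kl
    ‖(kk : PT E F →L[ℂ] PTS E F)‖ 1
    (fun z => (kk : PT E F →L[ℂ] PTS E F).le_opNorm z)
    (fun w => by
      rw [one_mul]
      obtain ⟨z, rfl⟩ := kk_surj w
      rw [kl_symm]
      exact norm_le_kk z)

theorem ke_apply (z : PT E F) : ke z = kk z := rfl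

/-- the inverse of the comparison map -/
noncomputable def jj : PTS E F →L[ℂ] PT E F := (ke (E := E) (F := F)).symm

theorem kk_jj (w : PTS E F) : kk (jj w) = w := ke.apply_symm_apply w

theorem jj_kk (z : PT E F) : jj (kk z) = z := ke.symm_apply_apply z

end Tensor

section Left

variable {A : Type} [NormedRing A] [NormedAlgebra ℂ A]

/-- comparison of left modules -/
noncomputable def toLMod (X : LM A) : LMod A where
  E := X.E
  nacg := X.nacg
  ns := X.ns
  cs := X.cs
  act := X.bdd.toContinuousLinearMap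
  act_mul := fun a b x => X.mul_act a b x

theorem toLMod_act (X : LM A) (a : A) (x : X.E) : (toLMod X).act a x = X.act a x := rfl

/-- the inverse of the comparison map for `A_+ ⊗ X` -/
noncomputable def j2 (X : LM A) : PTS (AP A) X.E →L[ℂ] PT (Aplus A) (toLMod X).E :=
  (jj : PTS (AP A) X.E →L[ℂ] PT (AP A) X.E)

/-- the comparison map for `A_+ ⊗ X` -/
noncomputable def k2 (X : LM A) : PT (Aplus A) (toLMod X).E →L[ℂ] PTS (AP A) X.E :=
  (kk : PT (AP A) X.E →L[ℂ] PTS (AP A) X.E)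

theorem k2_mk (X : LM A) (u : Aplus A) (x : X.E) :
    k2 X (PT.mk (E := Aplus A) (F := (toLMod X).E) u x) = tm (E := AP A) (F := X.E) u x :=
  kk_mk (E := AP A) (F := X.E) u x

theorem k2_j2 (X : LM A) (w : PTS (AP A) X.E) : k2 X (j2 X w) = w :=
  kk_jj (E := AP A) (F := X.E) w

theorem j2_k2 (X : LM A) (w : PT (Aplus A) (toLMod X).E) : j2 X (k2 X w) = w :=
  @jj_kk (AP A) X.E _ _ X.nacg X.ns w

theorem projective_toLMod {X : LM A} (h : Projective X) : (toLMod X).Projective := by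
  obtain ⟨π, L, σ, hπ, hL, hσ, hπ1, hL1, hσ1, hσ2⟩ := h
  have hσ' : ∃ τ : X.E →L[ℂ] PTS (AP A) X.E, ∀ x, τ x = σ x := ⟨hσ.toContinuousLinearMap, fun _ => rfl⟩
  obtain ⟨τ, hτ⟩ := hσ'
  refine ⟨(show X.E →L[ℂ] PT (Aplus A) (toLMod X).E from (j2 X) ∘L τ), ?_, ?_⟩
  · intro a x
    have h1 : (hL a).toContinuousLinearMap ∘L (k2 X) = (k2 X) ∘L
        (PT.map (ContinuousLinearMap.mul ℂ (Aplus A) (inrL a))
          (ContinuousLinearMap.id ℂ (toLMod X).E)) := by
      apply PT.ext
      intro u y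
      change L a (k2 X (PT.mk u y)) = k2 X (PT.map (ContinuousLinearMap.mul ℂ (Aplus A) (inrL a))
          (ContinuousLinearMap.id ℂ (toLMod X).E) (PT.mk u y))
      rw [PT.map_mk, k2_mk, hL1]
      exact (k2_mk X _ _).symm
    have h2 : ∀ z, L a (k2 X z) = k2 X (PT.map (ContinuousLinearMap.mul ℂ (Aplus A) (inrL a))
          (ContinuousLinearMap.id ℂ (toLMod X).E) z) := fun z => DFunLike.congr_fun h1 z
    change j2 X (τ (X.act a x)) = PT.map (ContinuousLinearMap.mul ℂ (Aplus A) (inrL a))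
          (ContinuousLinearMap.id ℂ (toLMod X).E) (j2 X (τ x))
    rw [hτ, hτ, hσ1]
    have h3 := h2 (j2 X (σ x))
    rw [k2_j2] at h3
    rw [h3, j2_k2]
  · intro x
    have h1 : (toLMod X).mult = hπ.toContinuousLinearMap ∘L (k2 X) := by
      apply PT.ext
      intro u y
      change PT.lift (toLMod X).plus (PT.mk u y) = π (k2 X (PT.mk u y))
      rw [PT.lift_mk, k2_mk, hπ1]
      rfl
    rw [h1]
    change π (k2 X (j2 X (τ x))) = x
    rw [k2_j2, hτ, hσ2]

/-- comparison of resolutions -/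
noncomputable def toResolution {X : LM A} {m : ℕ} (R : Res X m) : Resolution (toLMod X) m where
  P := fun j => toLMod (R.P j)
  proj := fun j => projective_toLMod (R.proj j)
  zero := fun j hj => ⟨fun x y => (R.zero j hj x).trans (R.zero j hj y).symm⟩
  ε := R.ε_hom.1.toContinuousLinearMap
  d := fun j => (R.d_hom j).1.toContinuousLinearMap
  ε_hom := fun a x => R.ε_hom.2 a x
  d_hom := fun j a x => (R.d_hom j).2 a x
  ε_d := R.ε_d
  d_d := R.d_d
  s₀ := R.s₀_bdd.toContinuousLinearMap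
  s := fun j => (R.s_bdd j).toContinuousLinearMap
  ε_s₀ := R.ε_s₀
  s₀_ε := R.s₀_ε
  s_d := R.s_d

/-- the inverse comparison of left modules -/
noncomputable def ofLMod (X : LMod A) : LM A where
  E := X.E
  nacg := X.nacg
  ns := X.ns
  cs := X.cs
  act := fun a x => X.act a x
  bdd := X.act.isBoundedBilinearMap
  mul_act := fun a b x => X.act_mul a b x

theorem toLMod_ofLMod (X : LMod A) : toLMod (ofLMod X) = X := by
  obtain ⟨E, act, h⟩ := X
  rfl

end Left

section Bi

variable {A : Type} [NormedRing A] [NormedAlgebra ℂ A]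

/-- comparison of bimodules -/
noncomputable def toBMod (X : BM A) : BMod A where
  E := X.E
  nacg := X.nacg
  ns := X.ns
  cs := X.cs
  actL := X.l_bdd.toContinuousLinearMap
  actR := X.r_bdd.toContinuousLinearMap
  actL_mul := fun a b x => X.l_mul a b x
  actR_mul := fun a b x => X.r_mul a b x
  actL_actR := fun a b x => X.l_r a b x

/-- the inverse of the comparison map for `A_+ ⊗ (X ⊗ A_+)` -/
noncomputable def j3 (X : BM A) : T3 X →L[ℂ] PT (Aplus A) (PT (toBMod X).E (Aplus A)) :=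
  (PT.map (ContinuousLinearMap.id ℂ (AP A)) (jj : PTS X.E (AP A) →L[ℂ] PT X.E (AP A))) ∘L
    (jj : PTS (AP A) (PTS X.E (AP A)) →L[ℂ] PT (AP A) (PTS X.E (AP A)))

/-- the comparison map for `A_+ ⊗ (X ⊗ A_+)` -/
noncomputable def k3 (X : BM A) : PT (Aplus A) (PT (toBMod X).E (Aplus A)) →L[ℂ] T3 X :=
  (kk : PT (AP A) (PTS X.E (AP A)) →L[ℂ] PTS (AP A) (PTS X.E (AP A))) ∘L
    (PT.map (ContinuousLinearMap.id ℂ (AP A)) (kk : PT X.E (AP A) →L[ℂ] PTS X.E (AP A)))

theorem k3_mk (X : BM A) (u : Aplus A) (x : X.E) (w : Aplus A) :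
    k3 X (PT.mk (E := Aplus A) (F := PT (toBMod X).E (Aplus A)) u
      (PT.mk (E := (toBMod X).E) (F := Aplus A) x w)) = tm3 X u x w := by
  change kk (PT.map (ContinuousLinearMap.id ℂ (AP A)) (kk : PT X.E (AP A) →L[ℂ] PTS X.E (AP A))
    (PT.mk (E := AP A) (F := PT X.E (AP A)) u (PT.mk (E := X.E) (F := AP A) x w))) = _
  rw [PT.map_mk, kk_mk, kk_mk]
  rfl

theorem k3_j3 (X : BM A) (w : T3 X) : k3 X (j3 X w) = w := by
  have h : (PT.map (ContinuousLinearMap.id ℂ (AP A)) (kk : PT X.E (AP A) →L[ℂ] PTS X.E (AP A))) ∘L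
      (PT.map (ContinuousLinearMap.id ℂ (AP A)) (jj : PTS X.E (AP A) →L[ℂ] PT X.E (AP A))) =
      ContinuousLinearMap.id ℂ _ := by
    apply PT.ext
    intro u y
    change PT.map (ContinuousLinearMap.id ℂ (AP A)) (kk : PT X.E (AP A) →L[ℂ] PTS X.E (AP A))
      (PT.map (ContinuousLinearMap.id ℂ (AP A)) (jj : PTS X.E (AP A) →L[ℂ] PT X.E (AP A))
        (PT.mk u y)) = PT.mk u y
    rw [PT.map_mk, PT.map_mk, kk_jj]
    rfl
  change kk (((PT.map (ContinuousLinearMap.id ℂ (AP A))
      (kk : PT X.E (AP A) →L[ℂ] PTS X.E (AP A))) ∘L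
      (PT.map (ContinuousLinearMap.id ℂ (AP A)) (jj : PTS X.E (AP A) →L[ℂ] PT X.E (AP A))))
      (jj (show PTS (AP A) (PTS X.E (AP A)) from w))) = w
  rw [h]
  exact kk_jj _

theorem j3_k3 (X : BM A) (w : PT (Aplus A) (PT (toBMod X).E (Aplus A))) : j3 X (k3 X w) = w := by
  have h : (PT.map (ContinuousLinearMap.id ℂ (AP A)) (jj : PTS X.E (AP A) →L[ℂ] PT X.E (AP A))) ∘L
      (PT.map (ContinuousLinearMap.id ℂ (AP A)) (kk : PT X.E (AP A) →L[ℂ] PTS X.E (AP A))) =
      ContinuousLinearMap.id ℂ _ := by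
    apply PT.ext
    intro u y
    change PT.map (ContinuousLinearMap.id ℂ (AP A)) (jj : PTS X.E (AP A) →L[ℂ] PT X.E (AP A))
      (PT.map (ContinuousLinearMap.id ℂ (AP A)) (kk : PT X.E (AP A) →L[ℂ] PTS X.E (AP A))
        (PT.mk u y)) = PT.mk u y
    rw [PT.map_mk, PT.map_mk, jj_kk]
    rfl
  change PT.map (ContinuousLinearMap.id ℂ (AP A)) (jj : PTS X.E (AP A) →L[ℂ] PT X.E (AP A))
    (jj (kk (PT.map (ContinuousLinearMap.id ℂ (AP A))
      (kk : PT X.E (AP A) →L[ℂ] PTS X.E (AP A)) w))) = w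
  rw [jj_kk]
  exact DFunLike.congr_fun h w

theorem ext3 {X : BM A} {G : Type} [NormedAddCommGroup G] [NormedSpace ℂ G]
    {f g : PT (Aplus A) (PT (toBMod X).E (Aplus A)) →L[ℂ] G}
    (h : ∀ u x w, f (PT.mk u (PT.mk x w)) = g (PT.mk u (PT.mk x w))) : f = g := by
  apply PT.ext
  intro u z
  have h1 : f ∘L (PT.mk u) = g ∘L (PT.mk u) := PT.ext fun x w => h u x w
  exact DFunLike.congr_fun h1 z

theorem projective_toBMod {X : BM A} (h : BProjective X) : (toBMod X).Projective := by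
  obtain ⟨π, L, R, σ, hπ, hL, hR, hσ, hπ1, hL1, hR1, hσ1, hσ2, hσ3⟩ := h
  have hσ' : ∃ τ : X.E →L[ℂ] T3 X, ∀ x, τ x = σ x := ⟨hσ.toContinuousLinearMap, fun _ => rfl⟩
  obtain ⟨τ, hτ⟩ := hσ'
  refine ⟨(show X.E →L[ℂ] PT (Aplus A) (PT (toBMod X).E (Aplus A)) from (j3 X) ∘L τ), ?_, ?_, ?_⟩
  · intro a x
    have h1 : (hL a).toContinuousLinearMap ∘L (k3 X) = (k3 X) ∘L
        (PT.map (ContinuousLinearMap.mul ℂ (Aplus A) (inrL a))
          (ContinuousLinearMap.id ℂ (PT (toBMod X).E (Aplus A)))) := by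
      apply ext3
      intro u y w
      change L a (k3 X (PT.mk u (PT.mk y w))) =
        k3 X (PT.map (ContinuousLinearMap.mul ℂ (Aplus A) (inrL a))
          (ContinuousLinearMap.id ℂ (PT (toBMod X).E (Aplus A))) (PT.mk u (PT.mk y w)))
      rw [PT.map_mk, k3_mk, hL1]
      exact (k3_mk X _ _ _).symm
    have h2 : ∀ z, L a (k3 X z) = k3 X (PT.map (ContinuousLinearMap.mul ℂ (Aplus A) (inrL a))
          (ContinuousLinearMap.id ℂ (PT (toBMod X).E (Aplus A))) z) :=
      fun z => DFunLike.congr_fun h1 z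
    change j3 X (τ (X.l a x)) = PT.map (ContinuousLinearMap.mul ℂ (Aplus A) (inrL a))
          (ContinuousLinearMap.id ℂ (PT (toBMod X).E (Aplus A))) (j3 X (τ x))
    rw [hτ, hτ, hσ1]
    have h3 := h2 (j3 X (σ x))
    rw [k3_j3] at h3
    rw [h3, j3_k3]
  · intro a x
    have h1 : (hR a).toContinuousLinearMap ∘L (k3 X) = (k3 X) ∘L
        (PT.map (ContinuousLinearMap.id ℂ (Aplus A))
          (PT.map (ContinuousLinearMap.id ℂ (toBMod X).E)
            ((ContinuousLinearMap.mul ℂ (Aplus A)).flip (inrL a)))) := by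
      apply ext3
      intro u y w
      change R a (k3 X (PT.mk u (PT.mk y w))) =
        k3 X (PT.map (ContinuousLinearMap.id ℂ (Aplus A))
          (PT.map (ContinuousLinearMap.id ℂ (toBMod X).E)
            ((ContinuousLinearMap.mul ℂ (Aplus A)).flip (inrL a))) (PT.mk u (PT.mk y w)))
      rw [PT.map_mk, PT.map_mk, k3_mk, hR1]
      exact (k3_mk X _ _ _).symm
    have h2 : ∀ z, R a (k3 X z) = k3 X (PT.map (ContinuousLinearMap.id ℂ (Aplus A))
          (PT.map (ContinuousLinearMap.id ℂ (toBMod X).E)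
            ((ContinuousLinearMap.mul ℂ (Aplus A)).flip (inrL a))) z) :=
      fun z => DFunLike.congr_fun h1 z
    change j3 X (τ (X.r a x)) = PT.map (ContinuousLinearMap.id ℂ (Aplus A))
          (PT.map (ContinuousLinearMap.id ℂ (toBMod X).E)
            ((ContinuousLinearMap.mul ℂ (Aplus A)).flip (inrL a))) (j3 X (τ x))
    rw [hτ, hτ, hσ2]
    have h3 := h2 (j3 X (σ x))
    rw [k3_j3] at h3
    rw [h3, j3_k3]
  · intro x
    have h1 : (toBMod X).mult = hπ.toContinuousLinearMap ∘L (k3 X) := by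
      apply ext3
      intro u y w
      change PT.lift (((ContinuousLinearMap.compL ℂ (PT (toBMod X).E (Aplus A)) (toBMod X).E
        (toBMod X).E).flip (toBMod X).rmult) ∘L (toBMod X).plusL) (PT.mk u (PT.mk y w)) =
        π (k3 X (PT.mk u (PT.mk y w)))
      rw [PT.lift_mk, k3_mk, hπ1]
      change (toBMod X).plusL u (PT.lift (toBMod X).plusR.flip (PT.mk y w)) = _
      rw [PT.lift_mk]
      rfl
    rw [h1]
    change π (k3 X (j3 X (τ x))) = x
    rw [k3_j3, hτ, hσ3]

/-- comparison of resolutions -/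
noncomputable def toBResolution {X : BM A} {m : ℕ} (R : BRes X m) :
    BResolution (toBMod X) m where
  P := fun j => toBMod (R.P j)
  proj := fun j => projective_toBMod (R.proj j)
  zero := fun j hj => ⟨fun x y => (R.zero j hj x).trans (R.zero j hj y).symm⟩
  ε := R.ε_hom.1.toContinuousLinearMap
  d := fun j => (R.d_hom j).1.toContinuousLinearMap
  ε_hom := ⟨fun a x => R.ε_hom.2.1 a x, fun a x => R.ε_hom.2.2 a x⟩
  d_hom := fun j => ⟨fun a x => (R.d_hom j).2.1 a x, fun a x => (R.d_hom j).2.2 a x⟩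
  ε_d := R.ε_d
  d_d := R.d_d
  s₀ := R.s₀_bdd.toContinuousLinearMap
  s := fun j => (R.s_bdd j).toContinuousLinearMap
  ε_s₀ := R.ε_s₀
  s₀_ε := R.s₀_ε
  s_d := R.s_d

theorem toBMod_selfB [CompleteSpace A] : toBMod (selfB A) = regularB A := rfl

end Bi

section Final

theorem dh_linf {K : Type} [TopologicalSpace K] [CompactSpace K] [T2Space K] [Nonempty K]
    (hK : ∀ (U : Set K) (t : K), IsOpen U → t ∈ U → (U \ {t}).Nonempty) :
    dh (ofLMod (linf K)) = ⊤ := by
  have h : ∀ m : ℕ, IsEmpty (Nonempty (Res (ofLMod (linf K)) m)) := by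
    intro m
    refine ⟨fun ⟨Rs⟩ => ?_⟩
    have R1 : Resolution (toLMod (ofLMod (linf K))) m := toResolution Rs
    rw [toLMod_ofLMod] at R1
    obtain ⟨Rh⟩ := exists_Rho_of_resolution (linf K) m R1 m le_rfl
    exact no_Rho hK m Rh
  unfold dh
  simp

theorem dg_eq_top {K : Type} [TopologicalSpace K] [CompactSpace K] [T2Space K] [Nonempty K]
    (hK : ∀ (U : Set K) (t : K), IsOpen U → t ∈ U → (U \ {t}).Nonempty) :
    dg C(K, ℂ) = ⊤ := by
  refine top_le_iff.1 ?_
  rw [← dh_linf hK]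
  exact le_iSup (fun X : LM C(K, ℂ) => dh X) (ofLMod (linf K))

theorem db_eq_top {K : Type} [TopologicalSpace K] [CompactSpace K] [T2Space K] [Nonempty K]
    (hK : ∀ (U : Set K) (t : K), IsOpen U → t ∈ U → (U \ {t}).Nonempty) :
    db C(K, ℂ) = ⊤ := by
  have h : ∀ m : ℕ, IsEmpty (Nonempty (BRes (selfB C(K, ℂ)) m)) := by
    intro m
    refine ⟨fun ⟨Rs⟩ => ?_⟩
    have R1 : BResolution (regularB C(K, ℂ)) m := toBResolution Rs
    obtain ⟨Rh⟩ := exists_Rho_of_bresolution (linf K) linf_act_one m R1 m le_rfl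
    exact no_Rho hK m Rh
  unfold db bdh
  simp

end Final

end Pool.Agent.Lib.MP_1bca0d_an.Spec
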