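import Mathlib

open Filter Topology Function

namespace Pool.Agent.Lib.MP_1bca0d_an

/-- the finite family of test functions available at stage `m` -/
def PhiSet {K : Type*} [TopologicalSpace K] (φ : ℕ → C(K, ℂ)) (m : ℕ) : Set C(K, ℂ) :=
  {a | ∃ l ≤ m, ∃ l' ≤ m, a = φ l ∨ a = φ l - φ l'}

namespace PathAux

/-- One functional: it is small on functions with small support. -/
lemma one_functional {K : Type*} [TopologicalSpace K] [CompactSpace K] [T2Space K]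
    (hK : ∀ (U : Set K) (t : K), IsOpen U → t ∈ U → (U \ {t}).Nonempty)
    (f : C(K, ℂ) →L[ℂ] ℂ) {η : ℝ} (hη : 0 < η) (U : Set K) (hU : IsOpen U) (hne : U.Nonempty) :
    ∃ W : Set K, IsOpen W ∧ W.Nonempty ∧ W ⊆ U ∧
      ∀ ψ : C(K, ℂ), (∀ x, x ∉ W → ψ x = 0) → (∀ x, ‖ψ x‖ ≤ 1) → ‖f ψ‖ ≤ η := by
  by_contra hcon
  push Not at hcon
  have bad : ∀ W : Set K, IsOpen W → W.Nonempty → W ⊆ U →
      ∃ ψ : C(K, ℂ), (∀ x, x ∉ W → ψ x = 0) ∧ (∀ x, ‖ψ x‖ ≤ 1) ∧ η ≤ (f ψ).re := by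
    intro W hW hWn hWU
    obtain ⟨ψ, h1, h2, h3⟩ := hcon W hW hWn hWU
    have hz : f ψ ≠ 0 := by
      intro h0
      rw [h0, norm_zero] at h3
      linarith
    have hzn : (‖f ψ‖ : ℂ) ≠ 0 := by
      exact_mod_cast (norm_ne_zero_iff.mpr hz)
    refine ⟨((starRingEnd ℂ (f ψ)) / (‖f ψ‖ : ℂ)) • ψ, ?_, ?_, ?_⟩
    · intro x hx
      rw [ContinuousMap.smul_apply, h1 x hx, smul_zero]
    · intro x
      rw [ContinuousMap.smul_apply, norm_smul, norm_div, RCLike.norm_conj, Complex.norm_real,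
        norm_norm, div_self (norm_ne_zero_iff.mpr hz), one_mul]
      exact h2 x
    · rw [map_smul, smul_eq_mul]
      have : (starRingEnd ℂ (f ψ)) / (‖f ψ‖ : ℂ) * f ψ = (‖f ψ‖ : ℂ) := by
        rw [div_mul_eq_mul_div, mul_comm, Complex.mul_conj, Complex.normSq_eq_norm_sq]
        push_cast
        field_simp
      rw [this, Complex.ofReal_re]
      exact h3.le
  have key : ∀ n : ℕ, ∀ W : Set K, IsOpen W → W.Nonempty → W ⊆ U →
      ∃ ψ : C(K, ℂ), (∀ x, x ∉ W → ψ x = 0) ∧ (∀ x, ‖ψ x‖ ≤ 1) ∧ n * η ≤ (f ψ).re := by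
    intro n
    induction n with
    | zero =>
      intro W _ _ _
      refine ⟨0, fun x _ => rfl, fun x => ?_, ?_⟩
      · simp
      · simp
    | succ n ih =>
      intro W hW hWn hWU
      obtain ⟨x, hx⟩ := hWn
      obtain ⟨y, hyW, hyx⟩ := hK W x hW hx
      have hxy : x ≠ y := fun h => hyx h.symm
      obtain ⟨A, B, hA, hB, hxA, hyB, hAB⟩ := t2_separation hxy
      obtain ⟨ψ₁, h11, h12, h13⟩ := ih (A ∩ W) (hA.inter hW) ⟨x, hxA, hx⟩
        (Set.inter_subset_right.trans hWU)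
      obtain ⟨ψ₂, h21, h22, h23⟩ := bad (B ∩ W) (hB.inter hW) ⟨y, hyB, hyW⟩
        (Set.inter_subset_right.trans hWU)
      refine ⟨ψ₁ + ψ₂, ?_, ?_, ?_⟩
      · intro z hz
        rw [ContinuousMap.add_apply, h11 z (fun h => hz h.2), h21 z (fun h => hz h.2), add_zero]
      · intro z
        rw [ContinuousMap.add_apply]
        by_cases hzA : z ∈ A
        · have hzB : z ∉ B := fun h => Set.disjoint_left.mp hAB hzA h
          rw [h21 z (fun h => hzB h.1), add_zero]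
          exact h12 z
        · rw [h11 z (fun h => hzA h.1), zero_add]
          exact h22 z
      · rw [map_add, Complex.add_re]
        push_cast
        linarith
  obtain ⟨n, hn⟩ := exists_nat_gt (‖f‖ / η)
  obtain ⟨ψ, _, h2, h3⟩ := key n U hU hne subset_rfl
  have hψ : ‖ψ‖ ≤ 1 := (ContinuousMap.norm_le _ zero_le_one).mpr h2
  have h4 : (f ψ).re ≤ ‖f‖ := by
    calc (f ψ).re ≤ ‖f ψ‖ := Complex.re_le_norm _
      _ ≤ ‖f‖ * ‖ψ‖ := f.le_opNorm ψ
      _ ≤ ‖f‖ * 1 := by gcongr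
      _ = ‖f‖ := mul_one _
  rw [div_lt_iff₀ hη] at hn
  linarith

/-- Finitely many functionals. -/
lemma fin_functional {K : Type*} [TopologicalSpace K] [CompactSpace K] [T2Space K]
    (hK : ∀ (U : Set K) (t : K), IsOpen U → t ∈ U → (U \ {t}).Nonempty)
    (F : Set (C(K, ℂ) →L[ℂ] ℂ)) (hF : F.Finite) {η : ℝ} (hη : 0 < η) (U : Set K)
    (hU : IsOpen U) (hne : U.Nonempty) :
    ∃ W : Set K, IsOpen W ∧ W.Nonempty ∧ W ⊆ U ∧
      ∀ f ∈ F, ∀ ψ : C(K, ℂ), (∀ x, x ∉ W → ψ x = 0) → (∀ x, ‖ψ x‖ ≤ 1) → ‖f ψ‖ ≤ η := by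
  induction F, hF using Set.Finite.induction_on with
  | empty => exact ⟨U, hU, hne, subset_rfl, fun f hf => absurd hf (Set.notMem_empty f)⟩
  | insert _ _ ih =>
    rename_i f₀ F₀ _ _
    obtain ⟨W, hW, hWn, hWU, hWF⟩ := ih
    obtain ⟨W', hW', hWn', hWU', hWf⟩ := one_functional hK f₀ hη W hW hWn
    refine ⟨W', hW', hWn', hWU'.trans hWU, ?_⟩
    intro f hf ψ h1 h2
    rcases Set.mem_insert_iff.mp hf with rfl | hf
    · exact hWf ψ h1 h2
    · exact hWF f hf ψ (fun x hx => h1 x (fun h => hx (hWU' h))) h2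

/-- bump functions -/
lemma bump {K : Type*} [TopologicalSpace K] [CompactSpace K] [T2Space K]
    (W : Set K) (hW : IsOpen W) (t : K) (ht : t ∈ W) :
    ∃ (φ : C(K, ℂ)) (O : Set K), IsOpen O ∧ t ∈ O ∧ O ⊆ W ∧ (∀ x ∈ O, φ x = 1) ∧
      (∀ x, x ∉ W → φ x = 0) ∧ (∀ x, (φ x).im = 0 ∧ 0 ≤ (φ x).re ∧ (φ x).re ≤ 1) := by
  obtain ⟨C, hC, hCc, hCW⟩ := exists_mem_nhds_isClosed_subset (hW.mem_nhds ht)
  obtain ⟨g, hg0, hg1, hg2⟩ := exists_continuous_zero_one_of_isClosed hW.isClosed_compl hCc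
    (Set.disjoint_left.mpr fun x hx hx' => hx (hCW hx'))
  refine ⟨⟨fun x => (g x : ℂ), by fun_prop⟩, interior C, isOpen_interior,
    mem_interior_iff_mem_nhds.mpr hC, interior_subset.trans hCW, ?_, ?_, ?_⟩
  · intro x hx
    simp [hg1 (interior_subset hx)]
  · intro x hx
    simp [hg0 hx]
  · intro x
    refine ⟨by simp, ?_, ?_⟩
    · simpa using (hg2 x).1
    · simpa using (hg2 x).2

/-- functions and differences -/
def D {K : Type*} [TopologicalSpace K] (Φ : Set C(K, ℂ)) : Set C(K, ℂ) :=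
  {a | ∃ f ∈ Φ, ∃ g ∈ Φ, a = f ∨ a = f - g}

lemma D_finite {K : Type*} [TopologicalSpace K] {Φ : Set C(K, ℂ)} (h : Φ.Finite) :
    (D Φ).Finite := by
  have h2 : (Set.image2 (fun f g : C(K, ℂ) => f - g) Φ Φ).Finite := h.image2 _ h
  refine (h.union h2).subset ?_
  rintro a ⟨f, hf, g, hg, rfl | rfl⟩
  · exact Or.inl hf
  · exact Or.inr ⟨f, hf, g, hg, rfl⟩

section
variable {K : Type*} [TopologicalSpace K]
    {N : ℕ} (Γ : (Fin N → C(K, ℂ)) → K → (Fin (N + 2) → K) → ℂ)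

/-- state -/
structure St (K : Type*) [TopologicalSpace K] where
  T : Set K
  Φ : Set C(K, ℂ)
  t : K
  φ : C(K, ℂ)
  O : Set K
  W : Set K
  hT : T.Finite
  hΦ : Φ.Finite
  ht : t ∈ T
  hφ : φ ∈ Φ
  hO : IsOpen O
  htO : t ∈ O
  hOW : O ⊆ W
  h1 : ∀ x ∈ O, φ x = 1
  h0 : ∀ x, x ∉ W → φ x = 0
  hr : ∀ x, (φ x).im = 0 ∧ 0 ≤ (φ x).re ∧ (φ x).re ≤ 1

/-- property P1 of a set `W` -/
def P1 (S : St K) (η : ℝ) (W : Set K) : Prop :=
  ∀ a : Fin N → C(K, ℂ), (∀ i, a i ∈ D S.Φ) → ∀ s ∈ S.T, ∀ w : Fin (N + 1) → K,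
    (∀ i, w i ∈ S.T) → ∀ w' : Fin (N + 1) → K, (∀ i, w' i = w i ∨ (w i = S.t ∧ w' i ∈ W)) →
    ‖Γ a s (Fin.snoc w' s) - Γ a s (Fin.snoc w s)‖ ≤ η

/-- property P2 of a set `W` -/
def P2 (S : St K) (η : ℝ) (W : Set K) : Prop :=
  ∀ (a : Fin N → C(K, ℂ)) (i : Fin N), (∀ j, j ≠ i → a j ∈ D S.Φ) → ∀ s ∈ S.T,
    ∀ v : Fin (N + 2) → K, (∀ j, v j ∈ S.T) → ∀ ψ : C(K, ℂ), (∀ x, x ∉ W → ψ x = 0) →
    (∀ x, ‖ψ x‖ ≤ 1) → ‖Γ (update a i ψ) s v‖ ≤ η

/-- relation between consecutive states -/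
def StRel (η : ℝ) (S S' : St K) : Prop :=
  S.T ⊆ S'.T ∧ S.Φ ⊆ S'.Φ ∧ S'.W ⊆ S.O ∧ (∀ x ∈ S'.W, x ∉ S.T) ∧ P1 Γ S η S'.W ∧ P2 Γ S η S'.W

lemma exists_P1
    (hcont : ∀ (a : Fin N → C(K, ℂ)) (s : K),
      Continuous fun w : Fin (N + 1) → K => Γ a s (Fin.snoc w s))
    (S : St K) {η : ℝ} (hη : 0 < η) : ∀ᶠ W in (𝓝 S.t).smallSets, P1 Γ S η W := by
  have hA : (Set.univ.pi fun _ : Fin N => D S.Φ).Finite :=
    Set.Finite.pi' (fun _ => D_finite S.hΦ) |>.subset (by intro a ha i; exact ha i (Set.mem_univ i))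
  have hw : (Set.univ.pi fun _ : Fin (N + 1) => S.T).Finite :=
    Set.Finite.pi' (fun _ => S.hT) |>.subset (by intro a ha i; exact ha i (Set.mem_univ i))
  have main : ∀ᶠ W in (𝓝 S.t).smallSets, ∀ a ∈ (Set.univ.pi fun _ : Fin N => D S.Φ),
      ∀ s ∈ S.T, ∀ w ∈ (Set.univ.pi fun _ : Fin (N + 1) => S.T), ∀ w' : Fin (N + 1) → K,
      (∀ i, w' i = w i ∨ (w i = S.t ∧ w' i ∈ W)) →
      ‖Γ a s (Fin.snoc w' s) - Γ a s (Fin.snoc w s)‖ ≤ η := by
    rw [eventually_all_finite hA]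
    intro a _
    rw [eventually_all_finite S.hT]
    intro s _
    rw [eventually_all_finite hw]
    intro w _
    have h1 : {w' : Fin (N + 1) → K | ‖Γ a s (Fin.snoc w' s) - Γ a s (Fin.snoc w s)‖ < η}
        ∈ 𝓝 w := by
      have hc := (hcont a s).continuousAt (x := w)
      have := Metric.continuousAt_iff'.mp hc η hη
      filter_upwards [this] with w' hw'
      rwa [dist_eq_norm] at hw'
    rw [nhds_pi, Filter.mem_pi'] at h1
    obtain ⟨I, u, hu, hIu⟩ := h1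
    have h2 : ∀ᶠ W in (𝓝 S.t).smallSets, ∀ i, w i = S.t → W ⊆ u i := by
      rw [eventually_all]
      intro i
      by_cases hi : w i = S.t
      · have : u i ∈ 𝓝 S.t := hi ▸ hu i
        filter_upwards [eventually_smallSets_subset.mpr this] with W hW _ using hW
      · exact Eventually.of_forall fun W h => absurd h hi
    filter_upwards [h2] with W hW w' hw'
    refine le_of_lt (hIu ?_)
    intro i _
    rcases hw' i with h | ⟨h, h'⟩
    · rw [h]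
      exact mem_of_mem_nhds (hu i)
    · exact hW i h h'
  filter_upwards [main] with W hW a ha s hs w hw w' hw'
  exact hW a (fun i _ => ha i) s hs w (fun i _ => hw i) w' hw'


variable [CompactSpace K] [T2Space K]

lemma exists_P2 (hK : ∀ (U : Set K) (t : K), IsOpen U → t ∈ U → (U \ {t}).Nonempty)
    (hlin : ∀ (a : Fin N → C(K, ℂ)) (i : Fin N) (s : K) (v : Fin (N + 2) → K),
      ∃ f : C(K, ℂ) →L[ℂ] ℂ, ∀ ψ, Γ (update a i ψ) s v = f ψ)
    (S : St K) {η : ℝ} (hη : 0 < η) (U : Set K) (hU : IsOpen U) (hne : U.Nonempty) :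
    ∃ W : Set K, IsOpen W ∧ W.Nonempty ∧ W ⊆ U ∧ P2 Γ S η W := by
  choose F hF using hlin
  have hA : (Set.univ.pi fun _ : Fin N => D S.Φ).Finite :=
    Set.Finite.pi' (fun _ => D_finite S.hΦ) |>.subset (by intro a ha i; exact ha i (Set.mem_univ i))
  have hv : (Set.univ.pi fun _ : Fin (N + 2) => S.T).Finite :=
    Set.Finite.pi' (fun _ => S.hT) |>.subset (by intro a ha i; exact ha i (Set.mem_univ i))
  have hfin : ((fun p : (Fin N → C(K, ℂ)) × (Fin N) × K × (Fin (N + 2) → K) =>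
      F p.1 p.2.1 p.2.2.1 p.2.2.2) '' ((Set.univ.pi fun _ : Fin N => D S.Φ) ×ˢ
        ((Set.univ : Set (Fin N)) ×ˢ (S.T ×ˢ (Set.univ.pi fun _ : Fin (N + 2) => S.T))))).Finite :=
    (hA.prod (Set.finite_univ.prod (S.hT.prod hv))).image _
  obtain ⟨W, hW, hWn, hWU, hWF⟩ := fin_functional hK _ hfin hη U hU hne
  refine ⟨W, hW, hWn, hWU, ?_⟩
  intro a i ha s hs v hv ψ h1 h2
  have e : update a i ψ = update (update a i 0) i ψ := by simp
  rw [e, hF]
  refine hWF _ ⟨(update a i 0, i, s, v), ?_, rfl⟩ ψ h1 h2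
  refine ⟨?_, Set.mem_univ _, hs, fun j _ => hv j⟩
  intro j _
  change update a i 0 j ∈ D S.Φ
  by_cases hj : j = i
  · subst hj
    rw [update_self]
    exact ⟨S.φ, S.hφ, S.φ, S.hφ, Or.inr (sub_self _).symm⟩
  · rw [update_of_ne hj]
    exact ha j hj

lemma step (hK : ∀ (U : Set K) (t : K), IsOpen U → t ∈ U → (U \ {t}).Nonempty)
    (hlin : ∀ (a : Fin N → C(K, ℂ)) (i : Fin N) (s : K) (v : Fin (N + 2) → K),
      ∃ f : C(K, ℂ) →L[ℂ] ℂ, ∀ ψ, Γ (update a i ψ) s v = f ψ)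
    (hcont : ∀ (a : Fin N → C(K, ℂ)) (s : K),
      Continuous fun w : Fin (N + 1) → K => Γ a s (Fin.snoc w s))
    (S : St K) {η : ℝ} (hη : 0 < η) : ∃ S' : St K, StRel Γ η S S' := by
  obtain ⟨V, hV, hVP⟩ := eventually_smallSets.mp (exists_P1 Γ hcont S hη)
  obtain ⟨V', hV'V, hV', htV'⟩ := mem_nhds_iff.mp hV
  -- remove the finite set `T`
  have hne : ∀ F : Set K, F.Finite → ((V' ∩ S.O) \ F).Nonempty := by
    intro F hF
    induction F, hF using Set.Finite.induction_on with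
    | empty => exact ⟨S.t, ⟨htV', S.htO⟩, Set.notMem_empty _⟩
    | insert _ hF ih =>
      rename_i x F _
      obtain ⟨y, hy, hyF⟩ := ih
      by_cases hyx : y = x
      · subst hyx
        obtain ⟨z, hz, hzy⟩ := hK ((V' ∩ S.O) \ F) y ((hV'.inter S.hO).sdiff hF.isClosed) ⟨hy, hyF⟩
        exact ⟨z, hz.1, fun h => (Set.mem_insert_iff.mp h).elim hzy hz.2⟩
      · exact ⟨y, hy, fun h => (Set.mem_insert_iff.mp h).elim hyx hyF⟩
  obtain ⟨W, hW, ⟨t', ht'⟩, hWU, hWP⟩ := exists_P2 Γ hK hlin S hη ((V' ∩ S.O) \ S.T)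
    ((hV'.inter S.hO).sdiff S.hT.isClosed) (hne _ S.hT)
  obtain ⟨φ', O', hO', ht'O', hO'W, h1, h0, hr⟩ := bump W hW t' ht'
  refine ⟨⟨insert t' S.T, insert φ' S.Φ, t', φ', O', W, S.hT.insert _, S.hΦ.insert _,
    Set.mem_insert _ _, Set.mem_insert _ _, hO', ht'O', hO'W, h1, h0, hr⟩, ?_⟩
  refine ⟨Set.subset_insert _ _, Set.subset_insert _ _, ?_, ?_, ?_, hWP⟩
  · exact fun x hx => (hWU hx).1.2
  · exact fun x hx => (hWU hx).2
  · exact hVP W fun x hx => hV'V (hWU hx).1.1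

end

end PathAux

open PathAux in
theorem exists_path {K : Type*} [TopologicalSpace K] [CompactSpace K] [T2Space K] [Nonempty K]
    (hK : ∀ (U : Set K) (t : K), IsOpen U → t ∈ U → (U \ {t}).Nonempty)
    {N : ℕ} (Γ : (Fin N → C(K, ℂ)) → K → (Fin (N + 2) → K) → ℂ)
    (hlin : ∀ (a : Fin N → C(K, ℂ)) (i : Fin N) (s : K) (v : Fin (N + 2) → K),
      ∃ f : C(K, ℂ) →L[ℂ] ℂ, ∀ ψ, Γ (update a i ψ) s v = f ψ)
    (hcont : ∀ (a : Fin N → C(K, ℂ)) (s : K),
      Continuous fun w : Fin (N + 1) → K => Γ a s (Fin.snoc w s)) :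
    ∃ (t : ℕ → K) (φ : ℕ → C(K, ℂ)),
      (∀ l x, (φ l x).im = 0 ∧ 0 ≤ (φ l x).re ∧ (φ l x).re ≤ 1) ∧
      (∀ l j, l ≤ j → φ l (t j) = 1) ∧
      (∀ l j, j < l → φ l (t j) = 0) ∧
      (∀ l l', l < l' → φ l * φ l' = φ l') ∧
      (∀ (m : ℕ) (a : Fin N → C(K, ℂ)), (∀ i, a i ∈ PhiSet φ m) → ∀ k : Fin (N + 2) → ℕ,
        k (Fin.last (N + 1)) ≤ m →
        ‖Γ a (t (k (Fin.last (N + 1)))) (fun i => t (k i))
          - Γ a (t (k (Fin.last (N + 1)))) (fun i => t (min (k i) m))‖ ≤ 1 / (m + 1)) ∧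
      (∀ (m m' : ℕ) (a : Fin N → C(K, ℂ)) (i : Fin N), m < m' →
        (∀ j, j ≠ i → a j ∈ PhiSet φ m) → ∀ k : Fin (N + 2) → ℕ, (∀ j, k j ≤ m) →
        ‖Γ (update a i (φ m')) (t (k (Fin.last (N + 1)))) (fun j => t (k j))‖ ≤ 1 / (m + 1)) := by
  classical
  obtain ⟨t₀⟩ := ‹Nonempty K›
  have hpos : ∀ n : ℕ, (0 : ℝ) < 1 / ((n : ℝ) + 1) := fun n => by positivity
  choose nxt hnxt using fun (n : ℕ) (S : St K) => step Γ hK hlin hcont S (hpos n)
  let S₀ : St K := ⟨{t₀}, {1}, t₀, 1, Set.univ, Set.univ, Set.finite_singleton _,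
    Set.finite_singleton _, rfl, rfl, isOpen_univ, Set.mem_univ _, subset_rfl,
    fun x _ => rfl, fun x hx => absurd (Set.mem_univ x) hx, fun x => by simp⟩
  let S : ℕ → St K := fun n => Nat.rec S₀ (fun n T => nxt n T) n
  have hS : ∀ n : ℕ, StRel Γ (1 / ((n : ℝ) + 1)) (S n) (S (n + 1)) := fun n => hnxt n (S n)
  have hTmono : Monotone fun n => (S n).T := monotone_nat_of_le_succ fun n => (hS n).1
  have hΦmono : Monotone fun n => (S n).Φ := monotone_nat_of_le_succ fun n => (hS n).2.1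
  have hOanti : Antitone fun n => (S n).O :=
    antitone_nat_of_succ_le fun n => ((S (n + 1)).hOW).trans (hS n).2.2.1
  have hWO : ∀ l l', l < l' → (S l').W ⊆ (S l).O := by
    intro l l' h
    obtain ⟨c, rfl⟩ := Nat.exists_eq_add_of_lt h
    exact ((hS (l + c)).2.2.1).trans (hOanti (Nat.le_add_right l c))
  have hWW : ∀ l l', l ≤ l' → (S l').W ⊆ (S l).W := by
    intro l l' h
    rcases h.eq_or_lt with rfl | h
    · exact subset_rfl
    · exact (hWO l l' h).trans (S l).hOW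
  have htT : ∀ j n, j ≤ n → (S j).t ∈ (S n).T := fun j n h => hTmono h (S j).ht
  have hφΦ : ∀ j n, j ≤ n → (S j).φ ∈ (S n).Φ := fun j n h => hΦmono h (S j).hφ
  have hPhi : ∀ m (a : C(K, ℂ)), a ∈ PhiSet (fun n => (S n).φ) m → a ∈ D (S m).Φ := by
    rintro m a ⟨l, hl, l', hl', h⟩
    exact ⟨_, hφΦ l m hl, _, hφΦ l' m hl', h⟩
  have h1 : ∀ l j, l ≤ j → (S l).φ (S j).t = 1 := fun l j h => (S l).h1 _ (hOanti h (S j).htO)
  refine ⟨fun n => (S n).t, fun n => (S n).φ, fun l x => (S l).hr x, h1, ?_, ?_, ?_, ?_⟩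
  · intro l j h
    refine (S l).h0 _ fun hx => ?_
    obtain ⟨c, rfl⟩ := Nat.exists_eq_add_of_lt h
    exact (hS (j + c)).2.2.2.1 _ hx (htT j (j + c) (Nat.le_add_right j c))
  · intro l l' h
    ext x
    change (S l).φ x * (S l').φ x = (S l').φ x
    by_cases hx : x ∈ (S l').W
    · rw [(S l).h1 x (hWO l l' h hx), one_mul]
    · rw [(S l').h0 x hx, mul_zero]
  · intro m a ha k hk
    have hP := (hS m).2.2.2.2.1 a (fun i => hPhi m _ (ha i)) (S (k (Fin.last (N + 1)))).t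
      (htT _ m hk) (fun i => (S (min (k i.castSucc) m)).t) (fun i => htT _ m (min_le_right _ _))
      (fun i => (S (k i.castSucc)).t) (fun i => by
        rcases le_or_gt (k i.castSucc) m with h | h
        · left
          rw [min_eq_left h]
        · right
          rw [min_eq_right h.le]
          exact ⟨rfl, hWW (m + 1) _ h ((S (k i.castSucc)).hOW (S (k i.castSucc)).htO)⟩)
    have e1 : (fun i : Fin (N + 2) => (S (k i)).t)
        = Fin.snoc (fun i : Fin (N + 1) => (S (k i.castSucc)).t) (S (k (Fin.last (N + 1)))).t := by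
      funext i
      refine Fin.lastCases ?_ (fun i => ?_) i
      · simp
      · simp
    have e2 : (fun i : Fin (N + 2) => (S (min (k i) m)).t)
        = Fin.snoc (fun i : Fin (N + 1) => (S (min (k i.castSucc) m)).t)
          (S (k (Fin.last (N + 1)))).t := by
      funext i
      refine Fin.lastCases ?_ (fun i => ?_) i
      · simp [min_eq_left hk]
      · simp
    change ‖Γ a (S (k (Fin.last (N + 1)))).t (fun i => (S (k i)).t)
      - Γ a (S (k (Fin.last (N + 1)))).t (fun i => (S (min (k i) m)).t)‖ ≤ _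
    rw [e1, e2]
    exact hP
  · intro m m' a i h ha k hk
    refine (hS m).2.2.2.2.2 a i (fun j hj => hPhi m _ (ha j hj)) _ (htT _ m (hk _)) _
      (fun j => htT _ m (hk j)) _ (fun x hx => (S m').h0 x fun hx' => hx (hWW (m + 1) m' h hx'))
      fun x => ?_
    have h3 := (S m').hr x
    have h4 : (S m').φ x = (((S m').φ x).re : ℂ) := Complex.ext rfl (by simp [h3.1])
    change ‖(S m').φ x‖ ≤ 1
    rw [h4, Complex.norm_real, Real.norm_of_nonneg h3.2.1]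
    exact h3.2.2

end Pool.Agent.Lib.MP_1bca0d_an
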