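import Pool.Agent.Lib.MP_1bca0d_an.VB
import Pool.Agent.Lib.MP_1bca0d_an.Path

/-!
Ultrafilter on intervals, reindexing of iterated limits, index combinatorics.
-/

open Filter Topology Function

namespace Pool.Agent.Lib.MP_1bca0d_an

/-- a nonprincipal ultrafilter on `ℕ` -/
noncomputable def UU : Ultrafilter ℕ := hyperfilter ℕ

/-- the iterated ultrafilter on pairs -/
noncomputable def WW : Ultrafilter (ℕ × ℕ) := UU.bind fun p => UU.map fun q => (p, q)

theorem eventually_WW {P : ℕ × ℕ → Prop} :
    (∀ᶠ I in (WW : Filter (ℕ × ℕ)), P I) ↔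
      ∀ᶠ p in (UU : Filter ℕ), ∀ᶠ q in (UU : Filter ℕ), P (p, q) := Iff.rfl

theorem eventually_UU_gt (N : ℕ) : ∀ᶠ p in (UU : Filter ℕ), N < p := by
  have h : ∀ᶠ p in (cofinite : Filter ℕ), N < p := by
    rw [Nat.cofinite_eq_atTop]
    exact eventually_gt_atTop N
  exact h.filter_mono (hyperfilter_le_cofinite (α := ℕ))

theorem WW_lt : ∀ᶠ I : ℕ × ℕ in (WW : Filter (ℕ × ℕ)), I.1 < I.2 := by
  rw [eventually_WW]
  exact Eventually.of_forall fun p => eventually_UU_gt p

theorem WW_gt (N : ℕ) : ∀ᶠ I : ℕ × ℕ in (WW : Filter (ℕ × ℕ)), N < I.1 := by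
  rw [eventually_WW]
  filter_upwards [eventually_UU_gt N] with p hp
  exact Eventually.of_forall fun q => hp

theorem ulim_WW (f : ℕ × ℕ → ℂ) (B : ℝ) (hf : ∀ I, ‖f I‖ ≤ B) :
    ulim WW f = ulim UU fun p => ulim UU fun q => f (p, q) := by
  apply ulim_eq
  have h1 := tendsto_ulim UU (fun p => ulim UU fun q => f (p, q)) B
    (fun p => norm_ulim_le UU fun q => hf (p, q))
  rw [tendsto_def]
  intro s hs
  obtain ⟨V, hVs, hV, hxV⟩ := mem_nhds_iff.1 hs
  refine mem_of_superset ?_ (Set.preimage_mono hVs)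
  have h2 : ∀ᶠ p in (UU : Filter ℕ), ∀ᶠ q in (UU : Filter ℕ), f (p, q) ∈ V := by
    filter_upwards [h1 (hV.mem_nhds hxV)] with p hp
    have h3 := tendsto_ulim UU (fun q => f (p, q)) B (fun q => hf (p, q))
    exact h3 (hV.mem_nhds hp)
  exact eventually_WW.2 h2

theorem ulim_WW_fst (f : ℕ → ℂ) (B : ℝ) (hf : ∀ I, ‖f I‖ ≤ B) :
    ulim WW (fun I => f I.1) = ulim UU f := by
  rw [ulim_WW (fun I => f I.1) B (fun I => hf I.1)]
  simp only [ulim_const]

/-- reindexing of iterated limits -/
theorem LimL_map {ι ι' J : Type*} [DecidableEq ι] [DecidableEq ι'] (W : Ultrafilter J)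
    (emb : ι' → ι) (hemb : Injective emb) (l1 : List ι) (l2 : List ι') (F : (ι → J) → ℂ)
    (F' : (ι' → J) → ℂ) (hbase : ∀ k, LimL W l1 F k = LimL W l2 F' (k ∘ emb)) (o : List ι') :
    ∀ k, LimL W (o.map emb ++ l1) F k = LimL W (o ++ l2) F' (k ∘ emb) := by
  induction o with
  | nil => exact hbase
  | cons i o ih =>
    intro k
    simp only [List.map_cons, List.cons_append, LimL]
    simp only [ih]
    have h1 : ∀ I, update k (emb i) I ∘ emb = update (k ∘ emb) i I := fun I =>
      update_comp_eq_of_injective k hemb i I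
    simp only [h1]

/-- limits of functions which are constant on well separated configurations -/
def Sep (I I' : ℕ × ℕ) : Prop := I.2 < I'.1 ∨ I'.2 < I.1

/-- well separated configurations -/
def GoodOn {ι : Type*} (S : Finset ι) (k : ι → ℕ × ℕ) : Prop :=
  (∀ i ∈ S, (k i).1 < (k i).2) ∧ ∀ i ∈ S, ∀ j ∈ S, i ≠ j → Sep (k i) (k j)

theorem LimL_eq_of_good {ι : Type*} [DecidableEq ι] (F : (ι → ℕ × ℕ) → ℂ) (c : ℂ) (l : List ι) :
    ∀ (S : Finset ι), (∀ i, i ∈ S ∨ i ∈ l) →
      (∀ k, (∀ T : Finset ι, GoodOn T k) → F k = c) → (∀ i ∈ l, i ∉ S) → l.Nodup →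
      ∀ k, GoodOn S k → LimL WW l F k = c := by
  induction l with
  | nil =>
    intro S hS hF _ _ k hk
    refine hF k fun T => ⟨fun i _ => hk.1 i ?_, fun i _ j _ => hk.2 i ?_ j ?_⟩
    · simpa using hS i
    · simpa using hS i
    · simpa using hS j
  | cons i l ih =>
    intro S hS hF hl hnd k hk
    simp only [LimL]
    rw [List.nodup_cons] at hnd
    rw [← ulim_const WW c]
    apply ulim_congr'
    obtain ⟨N, hN⟩ : ∃ N, ∀ j ∈ S, (k j).2 ≤ N := ⟨S.sup fun j => (k j).2, fun j hj =>
      Finset.le_sup (f := fun j => (k j).2) hj⟩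
    filter_upwards [WW_lt, WW_gt N] with I hI1 hI2
    have hiS : i ∉ S := hl i (List.mem_cons_self ..)
    refine ih (insert i S) ?_ hF ?_ hnd.2 _ ?_
    · intro j
      rcases hS j with h | h
      · exact Or.inl (Finset.mem_insert_of_mem h)
      · rcases List.mem_cons.1 h with h | h
        · exact Or.inl (by rw [h]; exact Finset.mem_insert_self ..)
        · exact Or.inr h
    · intro j hj h
      rcases Finset.mem_insert.1 h with h | h
      · rw [h] at hj
        exact hnd.1 hj
      · exact hl j (List.mem_cons_of_mem _ hj) h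
    · have hval : ∀ j ∈ S, update k i I j = k j := by
        intro j hj
        rw [update_of_ne]
        intro h
        rw [h] at hj
        exact hiS hj
      constructor
      · intro j hj
        rcases Finset.mem_insert.1 hj with h | h
        · rw [h, update_self]
          exact hI1
        · rw [hval j h]
          exact hk.1 j h
      · intro j hj j' hj' hne
        rcases Finset.mem_insert.1 hj with h | h
        · rcases Finset.mem_insert.1 hj' with h' | h'
          · exact absurd (h.trans h'.symm) hne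
          · rw [h, update_self, hval j' h']
            exact Or.inr (lt_of_le_of_lt (hN j' h') hI2)
        · rcases Finset.mem_insert.1 hj' with h' | h'
          · rw [h', update_self, hval j h]
            exact Or.inl (lt_of_le_of_lt (hN j h) hI2)
          · rw [hval j h, hval j' h']
            exact hk.2 j h j' h' hne

/-! ### index combinatorics -/

section Index

variable {N : ℕ} (i : Fin N)

theorem idx1 (m : Fin N) (h : m ≠ i) :
    (i.castSucc.succAbove m).castSucc = (i.succ.castSucc).succAbove m.castSucc := by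
  rcases lt_or_gt_of_ne h with h | h
  · rw [Fin.succAbove_castSucc_of_lt _ _ h, Fin.succAbove_of_castSucc_lt]
    rw [Fin.castSucc_lt_castSucc_iff]
    exact (Fin.castSucc_lt_succ_iff).2 h.le
  · rw [Fin.succAbove_castSucc_of_le _ _ h.le, Fin.succAbove_of_le_castSucc]
    · rfl
    · rw [Fin.castSucc_le_castSucc_iff]
      exact Fin.succ_le_castSucc_iff.2 h

theorem idx1' : (i.castSucc.succAbove i).castSucc = i.succ.castSucc := by
  rw [Fin.succAbove_castSucc_self]

theorem idx2 (m : Fin N) (h : m ≠ i) :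
    (i.succ.succAbove m).castSucc = (i.succ.castSucc).succAbove m.castSucc := by
  rcases lt_or_gt_of_ne h with h | h
  · rw [Fin.succAbove_succ_of_le _ _ h.le, Fin.succAbove_of_castSucc_lt]
    rw [Fin.castSucc_lt_castSucc_iff]
    exact (Fin.castSucc_lt_succ_iff).2 h.le
  · rw [Fin.succAbove_succ_of_lt _ _ h, Fin.succAbove_of_le_castSucc]
    · rfl
    · rw [Fin.castSucc_le_castSucc_iff]
      exact Fin.succ_le_castSucc_iff.2 h

theorem idx2' : (i.succ.succAbove i).castSucc = i.castSucc.castSucc := by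
  rw [Fin.succAbove_succ_self]

theorem idx3 : (i.succ.castSucc).succAbove i.castSucc = i.castSucc.castSucc := by
  rw [Fin.succAbove_of_castSucc_lt]
  rw [Fin.castSucc_lt_castSucc_iff]
  exact Fin.castSucc_lt_succ

theorem idx4 : (i.succ.castSucc).succAbove (Fin.last N) = Fin.last (N + 1) := by
  rw [Fin.succAbove_of_le_castSucc]
  · rfl
  · rw [Fin.castSucc_le_castSucc_iff]
    exact Fin.le_last _

theorem idx5 (y : Fin (N + 1)) : i.castSucc.predAbove ((i.succ.castSucc).succAbove y) = y := by
  rcases le_or_gt y i.castSucc with h | h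
  · rw [Fin.succAbove_of_castSucc_lt, Fin.predAbove_castSucc_of_le _ _ h]
    rw [Fin.castSucc_lt_castSucc_iff]
    exact lt_of_le_of_lt h Fin.castSucc_lt_succ
  · rw [Fin.succAbove_of_le_castSucc, Fin.predAbove_succ_of_le _ _ h.le]
    rw [Fin.castSucc_le_castSucc_iff]
    exact Fin.castSucc_lt_iff_succ_le.1 h

theorem idx6 : i.castSucc.predAbove i.succ.castSucc = i.castSucc := by
  rw [← Fin.succ_castSucc]
  exact Fin.predAbove_succ_self _

end Index

end Pool.Agent.Lib.MP_1bca0d_an
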