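import Pool.Agent.Lib.MP_1bca0d_an.Core1

/-!
The limit relations and the final contradiction.
-/

open Filter Topology Function

namespace Pool.Agent.Lib.MP_1bca0d_an

/-- the data for the limit argument -/
structure Dat (K : Type) [TopologicalSpace K] [CompactSpace K] (N : ℕ) where
  /-- the functional -/
  Γ : (Fin N → C(K, ℂ)) → K → (Fin (N + 2) → K) → ℂ
  hlin : ∀ (a : Fin N → C(K, ℂ)) (i : Fin N) (s : K) (v : Fin (N + 2) → K),
    ∃ f : C(K, ℂ) →L[ℂ] ℂ, ∀ ψ, Γ (update a i ψ) s v = f ψ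
  /-- the bound -/
  C : ℝ
  hC : 0 ≤ C
  hbd : MeasBd Γ C
  /-- the points -/
  t : ℕ → K
  /-- the functions -/
  φ : ℕ → C(K, ℂ)
  h01 : ∀ l x, (φ l x).im = 0 ∧ 0 ≤ (φ l x).re ∧ (φ l x).re ≤ 1
  h1 : ∀ l j, l ≤ j → φ l (t j) = 1
  h0 : ∀ l j, j < l → φ l (t j) = 0
  hmul : ∀ l l', l < l' → φ l * φ l' = φ l'
  P1 : ∀ (m : ℕ) (a : Fin N → C(K, ℂ)), (∀ i, a i ∈ PhiSet φ m) → ∀ k : Fin (N + 2) → ℕ,
    k (Fin.last (N + 1)) ≤ m →
    ‖Γ a (t (k (Fin.last (N + 1)))) (fun i => t (k i))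
      - Γ a (t (k (Fin.last (N + 1)))) (fun i => t (min (k i) m))‖ ≤ 1 / (m + 1)
  P2 : ∀ (m m' : ℕ) (a : Fin N → C(K, ℂ)) (i : Fin N), m < m' →
    (∀ j, j ≠ i → a j ∈ PhiSet φ m) → ∀ k : Fin (N + 2) → ℕ, (∀ j, k j ≤ m) →
    ‖Γ (update a i (φ m')) (t (k (Fin.last (N + 1)))) (fun j => t (k j))‖ ≤ 1 / (m + 1)

variable {K : Type} [TopologicalSpace K] [CompactSpace K] {N : ℕ} (D : Dat K N)

namespace Dat

theorem norm_Γ_le (a : Fin N → C(K, ℂ)) (ha : ∀ i, ‖a i‖ ≤ 1) (s : K) (v : Fin (N + 2) → K) :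
    ‖D.Γ a s v‖ ≤ D.C := by
  have h := D.hbd a ha {s} (fun _ => 1) (by simp) 1 (fun _ => 1) (fun _ => v) 1 (by
    intro u hu
    simp only [Fin.sum_univ_one, one_mul, norm_prod]
    exact Finset.prod_le_one (fun _ _ => norm_nonneg _) (fun i _ => hu i _))
  simpa using h

theorem norm_φ_le (l : ℕ) : ‖D.φ l‖ ≤ 1 := by
  rw [ContinuousMap.norm_le _ zero_le_one]
  intro x
  have h1 := D.h01 l x
  have h3 : D.φ l x = ((D.φ l x).re : ℂ) := by
    apply Complex.ext
    · simp
    · simp [h1.1]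
  rw [h3, Complex.norm_real, Real.norm_eq_abs, abs_le]
  constructor <;> linarith [h1.2.1, h1.2.2]

theorem norm_cell_le (I : ℕ × ℕ) : ‖cell D.φ I‖ ≤ 1 :=
  Pool.Agent.Lib.MP_1bca0d_an.norm_cell_le D.φ D.h01 I

/-- linearity in one slot -/
theorem Γ_sub (a : Fin N → C(K, ℂ)) (i : Fin N) (ψ ψ' : C(K, ℂ)) (s : K) (v : Fin (N + 2) → K) :
    D.Γ (update a i (ψ - ψ')) s v = D.Γ (update a i ψ) s v - D.Γ (update a i ψ') s v := by
  obtain ⟨f, hf⟩ := D.hlin a i s v
  rw [hf, hf, hf, map_sub]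

/-- the first family of functions -/
noncomputable def FA (j : Fin (N + 1)) (k : Fin (N + 2) → ℕ × ℕ) : ℂ :=
  D.Γ (fun p => cell D.φ (k (j.succAbove p).castSucc)) (D.t (k (Fin.last (N + 1))).1)
    (fun m => D.t (k m).1)

/-- the second family of functions -/
noncomputable def FU (i : Fin (N + 1)) (k : Fin (N + 1) → ℕ × ℕ) : ℂ :=
  D.Γ (fun p => cell D.φ (k p.castSucc)) (D.t (k (Fin.last N)).1)
    (fun m => D.t (k (i.predAbove m)).1)

theorem norm_FA_le (j : Fin (N + 1)) (k : Fin (N + 2) → ℕ × ℕ) : ‖D.FA j k‖ ≤ D.C :=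
  D.norm_Γ_le _ (fun _ => D.norm_cell_le _) _ _

theorem norm_FU_le (j : Fin (N + 1)) (k : Fin (N + 1) → ℕ × ℕ) : ‖D.FU j k‖ ≤ D.C :=
  D.norm_Γ_le _ (fun _ => D.norm_cell_le _) _ _

theorem vb2_FA (j : Fin (N + 1)) : VB2 (D.FA j) D.C := by
  refine vb2_Gamma D.Γ D.t D.φ (fun p => (j.succAbove p).castSucc) (Fin.last (N + 1)) D.hlin D.C
    D.hC D.hbd D.h01 D.h1 D.h0 D.hmul ?_ ?_ id
  · intro p q h
    exact Fin.succAbove_right_injective (Fin.castSucc_injective _ h)
  · intro p
    exact (Fin.castSucc_lt_last _).ne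

theorem vb2_FU (i : Fin (N + 1)) : VB2 (D.FU i) D.C := by
  refine vb2_Gamma D.Γ D.t D.φ (fun p => p.castSucc) (Fin.last N) D.hlin D.C
    D.hC D.hbd D.h01 D.h1 D.h0 D.hmul ?_ ?_ i.predAbove
  · intro p q h
    exact Fin.castSucc_injective _ h
  · intro p
    exact (Fin.castSucc_lt_last _).ne

theorem cell_mem (I : ℕ × ℕ) (m : ℕ) (h1 : I.1 ≤ m) (h2 : I.2 ≤ m) :
    cell D.φ I ∈ PhiSet D.φ m := ⟨I.1, h1, I.2, h2, Or.inr rfl⟩

theorem phi_mem (l m : ℕ) (h1 : l ≤ m) : D.φ l ∈ PhiSet D.φ m := ⟨l, h1, l, h1, Or.inl rfl⟩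

theorem tendsto_inv_WW : Tendsto (fun I : ℕ × ℕ => (1 : ℝ) / (I.1 + 1)) (WW : Filter (ℕ × ℕ)) (𝓝 0) := by
  rw [Metric.tendsto_nhds]
  intro ε hε
  obtain ⟨n, hn⟩ := exists_nat_one_div_lt hε
  filter_upwards [WW_gt n] with I hI
  rw [Real.dist_eq, sub_zero, abs_of_nonneg (by positivity)]
  refine lt_of_le_of_lt ?_ hn
  have : (n : ℝ) ≤ I.1 := by exact_mod_cast hI.le
  gcongr

/-- two double limits agree if the difference is small -/
theorem ulim_ulim_eq {X Y : ℕ × ℕ → ℕ × ℕ → ℂ} {B B' c : ℝ} (hX : ∀ I I', ‖X I I'‖ ≤ B)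
    (hY : ∀ I I', ‖Y I I'‖ ≤ B')
    (h : ∀ᶠ I in (WW : Filter (ℕ × ℕ)), ∀ᶠ I' in (WW : Filter (ℕ × ℕ)),
      ‖X I I' - Y I I'‖ ≤ c * (1 / (I.1 + 1))) :
    ulim WW (fun I => ulim WW (fun I' => X I I')) = ulim WW (fun I => ulim WW (fun I' => Y I I')) := by
  have h1 : Tendsto (fun I => ulim WW (fun I' => X I I') - ulim WW (fun I' => Y I I'))
      (WW : Filter (ℕ × ℕ)) (𝓝 0) := by
    rw [tendsto_zero_iff_norm_tendsto_zero]
    have h2 : Tendsto (fun I : ℕ × ℕ => c * ((1 : ℝ) / (I.1 + 1))) (WW : Filter (ℕ × ℕ)) (𝓝 0) := by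
      have := tendsto_inv_WW.const_mul c
      rwa [mul_zero] at this
    refine squeeze_zero' (Eventually.of_forall fun I => norm_nonneg _) ?_ h2
    filter_upwards [h] with I hI
    exact norm_ulim_sub_le WW (hX I) (hY I) hI
  have h3 := ulim_eq WW h1
  rw [ulim_sub WW (fun I => norm_ulim_le WW (hX I)) (fun I => norm_ulim_le WW (hY I))] at h3
  exact sub_eq_zero.1 h3

/-- the base relation at the last index -/
theorem base_last (k : Fin (N + 2) → ℕ × ℕ) :
    LimL WW [Fin.last (N + 1), (Fin.last N).castSucc] (D.FA (Fin.last N)) k =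
      LimL WW [Fin.last N] (D.FU (Fin.last N)) (k ∘ (Fin.last N).castSucc.succAbove) := by
  simp only [LimL]
  have hconst : ∀ I : ℕ × ℕ, D.FU (Fin.last N)
      (update (k ∘ (Fin.last N).castSucc.succAbove) (Fin.last N) I) =
      ulim WW (fun _ : ℕ × ℕ => D.FU (Fin.last N)
      (update (k ∘ (Fin.last N).castSucc.succAbove) (Fin.last N) I)) := fun I =>
    (ulim_const WW _).symm
  rw [funext hconst]
  refine ulim_ulim_eq (B := D.C) (B' := D.C) (c := 1) (fun I I' => D.norm_FA_le _ _)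
    (fun I I' => D.norm_FU_le _ _) ?_
  obtain ⟨m0, hm0⟩ : ∃ m0, ∀ m, (k m).1 ≤ m0 ∧ (k m).2 ≤ m0 :=
    ⟨Finset.univ.sup (fun m => max (k m).1 (k m).2), fun m => by
      have := Finset.le_sup (f := fun m => max (k m).1 (k m).2) (Finset.mem_univ m)
      exact ⟨(le_max_left _ _).trans this, (le_max_right _ _).trans this⟩⟩
  filter_upwards [WW_gt m0] with I hI
  filter_upwards [WW_gt I.1] with I' hI'
  have hQ : (Fin.last N).castSucc ≠ Fin.last (N + 1) := (Fin.castSucc_lt_last _).ne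
  -- the index vector
  set κ : Fin (N + 2) → ℕ := update (update (fun m => (k m).1) (Fin.last (N + 1)) I.1)
    (Fin.last N).castSucc I'.1 with hκ
  set a : Fin N → C(K, ℂ) := fun p => cell D.φ (k p.castSucc.castSucc) with ha
  have hκlast : κ (Fin.last (N + 1)) = I.1 := by
    rw [hκ, update_of_ne hQ.symm, update_self]
  have hP1 := D.P1 I.1 a (fun p => D.cell_mem _ _ ((hm0 _).1.trans hI.le) ((hm0 _).2.trans hI.le)) κ
    (by rw [hκlast])
  have e1 : D.FA (Fin.last N) (update (update k (Fin.last (N + 1)) I) (Fin.last N).castSucc I') =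
      D.Γ a (D.t (κ (Fin.last (N + 1)))) (fun i => D.t (κ i)) := by
    rw [FA]
    have f1 : (fun p : Fin N => cell D.φ (update (update k (Fin.last (N + 1)) I)
        (Fin.last N).castSucc I' ((Fin.last N).succAbove p).castSucc)) = a := by
      ext1 p
      rw [Fin.succAbove_last, update_of_ne, update_of_ne]
      · exact (Fin.castSucc_lt_last _).ne
      · intro h
        exact (Fin.castSucc_lt_last _).ne (Fin.castSucc_injective _ h)
    have f2 : ∀ m, (update (update k (Fin.last (N + 1)) I) (Fin.last N).castSucc I' m).1 = κ m := by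
      intro m
      rw [hκ]
      by_cases g1 : m = (Fin.last N).castSucc
      · rw [g1, update_self, update_self]
      · rw [update_of_ne g1, update_of_ne g1]
        by_cases g2 : m = Fin.last (N + 1)
        · rw [g2, update_self, update_self]
        · rw [update_of_ne g2, update_of_ne g2]
    simp only [f1, f2]
  have e2 : D.FU (Fin.last N) (update (k ∘ (Fin.last N).castSucc.succAbove) (Fin.last N) I) =
      D.Γ a (D.t (κ (Fin.last (N + 1)))) (fun i => D.t (min (κ i) I.1)) := by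
    rw [FU]
    have f1 : (fun p : Fin N => cell D.φ (update (k ∘ (Fin.last N).castSucc.succAbove)
        (Fin.last N) I p.castSucc)) = a := by
      ext1 p
      rw [update_of_ne (Fin.castSucc_lt_last _).ne, comp_apply, Fin.succAbove_of_castSucc_lt]
      rw [Fin.castSucc_lt_castSucc_iff]
      exact Fin.castSucc_lt_last _
    have f2 : ∀ m, (update (k ∘ (Fin.last N).castSucc.succAbove) (Fin.last N) I
        ((Fin.last N).predAbove m)).1 = min (κ m) I.1 := by
      intro m
      rw [hκ]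
      by_cases g1 : m = (Fin.last N).castSucc
      · rw [g1, update_self, Fin.predAbove_castSucc_self, update_self]
        exact (min_eq_right hI'.le).symm
      · rw [update_of_ne g1]
        by_cases g2 : m = Fin.last (N + 1)
        · rw [g2, update_self, Fin.predAbove_right_last, update_self, min_self]
        · rw [update_of_ne g2]
          obtain ⟨y, rfl⟩ : ∃ y : Fin (N + 1), m = y.castSucc := ⟨m.castPred g2, by simp⟩
          have g3 : y ≠ Fin.last N := fun h => g1 (by rw [h])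
          rw [Fin.predAbove_last_castSucc, update_of_ne g3, comp_apply,
            Fin.succAbove_of_castSucc_lt]
          · exact (min_eq_left ((hm0 _).1.trans hI.le)).symm
          · rw [Fin.castSucc_lt_castSucc_iff]
            exact lt_of_le_of_ne (Fin.le_last _) g3
    have f3 : (update (k ∘ (Fin.last N).castSucc.succAbove) (Fin.last N) I (Fin.last N)).1 =
        κ (Fin.last (N + 1)) := by
      rw [update_self, hκlast]
    simp only [f1, f2, f3]
  rw [e1, e2, one_mul]
  exact hP1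

/-- the base relation at the other indices -/
theorem base_mid (i : Fin N) (k : Fin (N + 2) → ℕ × ℕ) :
    LimL WW [i.castSucc.castSucc, i.succ.castSucc] (fun k => D.FA i.castSucc k + D.FA i.succ k) k =
      LimL WW [i.castSucc] (D.FU i.castSucc) (k ∘ i.succ.castSucc.succAbove) := by
  simp only [LimL]
  have hPQ : i.castSucc.castSucc ≠ i.succ.castSucc := by
    intro h
    exact (Fin.castSucc_lt_succ (i := i)).ne (Fin.castSucc_injective _ h)
  have hPl : i.castSucc.castSucc ≠ Fin.last (N + 1) := (Fin.castSucc_lt_last _).ne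
  have hQl : i.succ.castSucc ≠ Fin.last (N + 1) := (Fin.castSucc_lt_last _).ne
  set a0 : Fin N → C(K, ℂ) := fun m => cell D.φ (k (i.succ.castSucc.succAbove m.castSucc)) with ha0
  set κ : ℕ → ℕ → Fin (N + 2) → ℕ := fun x y =>
    update (update (fun m => (k m).1) i.castSucc.castSucc x) i.succ.castSucc y with hκ
  set G : C(K, ℂ) → ℕ → ℕ → ℂ := fun ψ x y =>
    D.Γ (update a0 i ψ) (D.t (k (Fin.last (N + 1))).1) (fun m => D.t (κ x y m)) with hG
  have hκlast : ∀ x y, κ x y (Fin.last (N + 1)) = (k (Fin.last (N + 1))).1 := by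
    intro x y
    simp only [hκ]
    rw [update_of_ne hQl.symm, update_of_ne hPl.symm]
  have hGbd : ∀ ψ x y, ‖ψ‖ ≤ 1 → ‖G ψ x y‖ ≤ D.C := by
    intro ψ x y hψ
    refine D.norm_Γ_le _ (fun m => ?_) _ _
    by_cases g : m = i
    · rw [g, update_self]
      exact hψ
    · rw [update_of_ne g]
      exact D.norm_cell_le _
  have hκpair : ∀ p q : ℕ × ℕ, ∀ m,
      (update (update k i.castSucc.castSucc p) i.succ.castSucc q m).1 = κ p.1 q.1 m := by
    intro p q m
    simp only [hκ]
    by_cases g1 : m = i.succ.castSucc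
    · rw [g1, update_self, update_self]
    · rw [update_of_ne g1, update_of_ne g1]
      by_cases g2 : m = i.castSucc.castSucc
      · rw [g2, update_self, update_self]
      · rw [update_of_ne g2, update_of_ne g2]
  have hemb_ne : ∀ y : Fin (N + 1), i.succ.castSucc.succAbove y ≠ i.succ.castSucc :=
    fun y => Fin.succAbove_ne _ _
  have hemb_ne' : ∀ m : Fin N, m ≠ i →
      i.succ.castSucc.succAbove m.castSucc ≠ i.castSucc.castSucc := by
    intro m hm h
    rw [← idx3 i] at h
    exact hm (Fin.castSucc_injective _ (Fin.succAbove_right_injective h))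
  -- the three identifications
  have e1 : ∀ p q : ℕ × ℕ, D.FA i.castSucc
      (update (update k i.castSucc.castSucc p) i.succ.castSucc q) = G (cell D.φ q) p.1 q.1 := by
    intro p q
    rw [FA]
    have f1 : (fun m : Fin N => cell D.φ (update (update k i.castSucc.castSucc p) i.succ.castSucc q
        (i.castSucc.succAbove m).castSucc)) = update a0 i (cell D.φ q) := by
      ext1 m
      by_cases g : m = i
      · rw [g, update_self, idx1', update_self]
      · rw [update_of_ne g, idx1 i m g, update_of_ne (hemb_ne _), update_of_ne (hemb_ne' m g)]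
    simp only [f1, hκpair, hκlast]
    rfl
  have e2 : ∀ p q : ℕ × ℕ, D.FA i.succ
      (update (update k i.castSucc.castSucc p) i.succ.castSucc q) = G (cell D.φ p) p.1 q.1 := by
    intro p q
    rw [FA]
    have f1 : (fun m : Fin N => cell D.φ (update (update k i.castSucc.castSucc p) i.succ.castSucc q
        (i.succ.succAbove m).castSucc)) = update a0 i (cell D.φ p) := by
      ext1 m
      by_cases g : m = i
      · rw [g, update_self, idx2', update_of_ne hPQ, update_self]
      · rw [update_of_ne g, idx2 i m g, update_of_ne (hemb_ne _), update_of_ne (hemb_ne' m g)]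
    simp only [f1, hκpair, hκlast]
    rfl
  have e3 : ∀ p : ℕ × ℕ, D.FU i.castSucc
      (update (k ∘ i.succ.castSucc.succAbove) i.castSucc p) = G (cell D.φ p) p.1 p.1 := by
    intro p
    rw [FU]
    have f1 : (fun m : Fin N => cell D.φ (update (k ∘ i.succ.castSucc.succAbove) i.castSucc p
        m.castSucc)) = update a0 i (cell D.φ p) := by
      ext1 m
      by_cases g : m = i
      · rw [g, update_self, update_self]
      · rw [update_of_ne g, update_of_ne (fun h => g (Fin.castSucc_injective _ h))]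
        rfl
    have f2 : ∀ m, (update (k ∘ i.succ.castSucc.succAbove) i.castSucc p
        (i.castSucc.predAbove m)).1 = κ p.1 p.1 m := by
      intro m
      simp only [hκ]
      by_cases g1 : m = i.succ.castSucc
      · rw [g1, idx6, update_self, update_self]
      · rw [update_of_ne g1]
        obtain ⟨y, rfl⟩ := Fin.exists_succAbove_eq g1
        rw [idx5]
        by_cases g2 : y = i.castSucc
        · rw [g2, update_self, idx3, update_self]
        · rw [update_of_ne g2, update_of_ne]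
          · rfl
          · rw [← idx3 i]
            intro h
            exact g2 (Fin.succAbove_right_injective h)
    have f3 : (update (k ∘ i.succ.castSucc.succAbove) i.castSucc p (Fin.last N)).1 =
        (k (Fin.last (N + 1))).1 := by
      rw [update_of_ne (Fin.castSucc_lt_last _).ne', comp_apply, idx4]
    simp only [f1, f2, f3]
    rfl
  simp only [e1, e2, e3]
  -- the auxiliary function
  set h : ℕ → ℕ → ℂ := fun x y => G (D.φ y) x y with hh
  have hhbd : ∀ x y, ‖h x y‖ ≤ D.C := fun x y => hGbd _ _ _ (D.norm_φ_le _)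
  obtain ⟨m0, hm0⟩ : ∃ m0, ∀ m, (k m).1 ≤ m0 ∧ (k m).2 ≤ m0 :=
    ⟨Finset.univ.sup (fun m => max (k m).1 (k m).2), fun m => by
      have := Finset.le_sup (f := fun m => max (k m).1 (k m).2) (Finset.mem_univ m)
      exact ⟨(le_max_left _ _).trans this, (le_max_right _ _).trans this⟩⟩
  have ha0mem : ∀ m, m0 ≤ m → ∀ j, a0 j ∈ PhiSet D.φ m := fun m hm j =>
    D.cell_mem _ _ ((hm0 _).1.trans hm) ((hm0 _).2.trans hm)
  have hupdmem : ∀ m l, m0 ≤ m → l ≤ m → ∀ j, update a0 i (D.φ l) j ∈ PhiSet D.φ m := by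
    intro m l hm hl j
    by_cases g : j = i
    · rw [g, update_self]
      exact D.phi_mem _ _ hl
    · rw [update_of_ne g]
      exact ha0mem m hm j
  -- first estimate
  have hP1 : ∀ (l x y m : ℕ), m0 ≤ m → l ≤ m → x ≤ m → m ≤ y →
      ‖G (D.φ l) x y - G (D.φ l) x m‖ ≤ 1 / (m + 1) := by
    intro l x y m hm hl hx hy
    have h1 := D.P1 m (update a0 i (D.φ l)) (hupdmem m l hm hl) (κ x y) (by
      rw [hκlast]
      exact (hm0 _).1.trans hm)
    have h2 : ∀ j, min (κ x y j) m = κ x m j := by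
      intro j
      simp only [hκ]
      by_cases g1 : j = i.succ.castSucc
      · rw [g1, update_self, update_self]
        exact min_eq_right hy
      · rw [update_of_ne g1, update_of_ne g1]
        by_cases g2 : j = i.castSucc.castSucc
        · rw [g2, update_self]
          exact min_eq_left hx
        · rw [update_of_ne g2]
          exact min_eq_left ((hm0 _).1.trans hm)
    simp only [h2, hκlast] at h1
    exact h1
  -- second estimate
  have hP2 : ∀ (l x y m : ℕ), m0 ≤ m → m < l → x ≤ m → y ≤ m →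
      ‖G (D.φ l) x y‖ ≤ 1 / (m + 1) := by
    intro l x y m hm hl hx hy
    have h1 := D.P2 m l a0 i hl (fun j _ => ha0mem m hm j) (κ x y) (by
      intro j
      simp only [hκ]
      by_cases g1 : j = i.succ.castSucc
      · rw [g1, update_self]
        exact hy
      · rw [update_of_ne g1]
        by_cases g2 : j = i.castSucc.castSucc
        · rw [g2, update_self]
          exact hx
        · rw [update_of_ne g2]
          exact (hm0 _).1.trans hm)
    simp only [hκlast] at h1
    exact h1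
  have hcell : ∀ I x y, G (cell D.φ I) x y = G (D.φ I.1) x y - G (D.φ I.2) x y :=
    fun I x y => D.Γ_sub _ _ _ _ _ _
  have hmain : ulim WW (fun p => ulim WW fun q => G (cell D.φ q) p.1 q.1 + G (cell D.φ p) p.1 q.1) =
      ulim WW (fun p => ulim WW fun q => G (cell D.φ p) p.1 p.1 + (h p.1 q.1 - h p.1 p.2)) := by
    refine ulim_ulim_eq (B := D.C + D.C) (B' := D.C + (D.C + D.C)) (c := 4) ?_ ?_ ?_
    · intro p q
      exact (norm_add_le _ _).trans (add_le_add (hGbd _ _ _ (D.norm_cell_le _))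
        (hGbd _ _ _ (D.norm_cell_le _)))
    · intro p q
      exact (norm_add_le _ _).trans (add_le_add (hGbd _ _ _ (D.norm_cell_le _))
        ((norm_sub_le _ _).trans (add_le_add (hhbd _ _) (hhbd _ _))))
    · filter_upwards [WW_gt m0, WW_lt] with p hp1 hp2
      filter_upwards [WW_gt p.2, WW_lt] with q hq1 hq2
      have g1 := hP1 p.1 p.1 q.1 p.1 hp1.le le_rfl le_rfl (hp2.trans hq1).le
      have g2 := hP2 p.2 p.1 p.1 p.1 hp1.le hp2 le_rfl le_rfl
      have g3 := hP1 p.2 p.1 q.1 p.2 (hp1.trans hp2).le le_rfl hp2.le hq1.le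
      have g4 := hP2 q.2 p.1 q.1 q.1 (hp1.trans (hp2.trans hq1)).le hq2 (hp2.trans hq1).le le_rfl
      have g5 : (G (cell D.φ q) p.1 q.1 + G (cell D.φ p) p.1 q.1) -
          (G (cell D.φ p) p.1 p.1 + (h p.1 q.1 - h p.1 p.2)) =
          (G (D.φ p.1) p.1 q.1 - G (D.φ p.1) p.1 p.1) + G (D.φ p.2) p.1 p.1 -
          (G (D.φ p.2) p.1 q.1 - G (D.φ p.2) p.1 p.2) - G (D.φ q.2) p.1 q.1 := by
        rw [hcell, hcell, hcell]
        simp only [hh]
        ring
      rw [g5]
      have hpos : (0 : ℝ) < p.1 + 1 := by positivity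
      have k1 : (1 : ℝ) / (p.2 + 1) ≤ 1 / (p.1 + 1) := by
        have : (p.1 : ℝ) ≤ p.2 := by exact_mod_cast hp2.le
        gcongr
      have k2 : (1 : ℝ) / (q.1 + 1) ≤ 1 / (p.1 + 1) := by
        have : (p.1 : ℝ) ≤ q.1 := by exact_mod_cast (hp2.trans hq1).le
        gcongr
      calc _ ≤ ‖G (D.φ p.1) p.1 q.1 - G (D.φ p.1) p.1 p.1‖ + ‖G (D.φ p.2) p.1 p.1‖ +
            ‖G (D.φ p.2) p.1 q.1 - G (D.φ p.2) p.1 p.2‖ + ‖G (D.φ q.2) p.1 q.1‖ := by
            refine (norm_sub_le _ _).trans ?_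
            gcongr
            refine (norm_sub_le _ _).trans ?_
            gcongr
            exact norm_add_le _ _
        _ ≤ _ := by linarith
  rw [hmain]
  have h1 : ∀ p : ℕ × ℕ, ulim WW (fun q : ℕ × ℕ => G (cell D.φ p) p.1 p.1 + (h p.1 q.1 - h p.1 p.2)) =
      G (cell D.φ p) p.1 p.1 + (ulim WW (fun q : ℕ × ℕ => h p.1 q.1) - h p.1 p.2) := by
    intro p
    rw [ulim_add WW (f := fun _ => G (cell D.φ p) p.1 p.1)
      (g := fun q : ℕ × ℕ => h p.1 q.1 - h p.1 p.2) (B := D.C) (B' := D.C + D.C)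
      (fun _ => hGbd _ _ _ (D.norm_cell_le _))
      (fun q => (norm_sub_le _ _).trans (add_le_add (hhbd _ _) (hhbd _ _))), ulim_const,
      ulim_sub WW (f := fun q : ℕ × ℕ => h p.1 q.1) (g := fun _ => h p.1 p.2)
        (fun q => hhbd _ _) (fun q => hhbd _ _), ulim_const]
  simp only [h1]
  have h2 : ∀ p : ℕ × ℕ, ‖ulim WW (fun q : ℕ × ℕ => h p.1 q.1)‖ ≤ D.C := fun p =>
    norm_ulim_le WW fun q => hhbd _ _
  rw [ulim_add WW (f := fun p : ℕ × ℕ => G (cell D.φ p) p.1 p.1)
      (g := fun p : ℕ × ℕ => ulim WW (fun q : ℕ × ℕ => h p.1 q.1) - h p.1 p.2)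
      (B := D.C) (B' := D.C + D.C)
      (fun _ => hGbd _ _ _ (D.norm_cell_le _))
      (fun q => (norm_sub_le _ _).trans (add_le_add (h2 _) (hhbd _ _))),
    ulim_sub WW (f := fun p : ℕ × ℕ => ulim WW (fun q : ℕ × ℕ => h p.1 q.1))
      (g := fun p : ℕ × ℕ => h p.1 p.2) h2 (fun p => hhbd _ _)]
  have h3 : ulim WW (fun p : ℕ × ℕ => ulim WW (fun q : ℕ × ℕ => h p.1 q.1)) =
      ulim UU (fun x => ulim UU fun y => h x y) := by
    have h4 : ∀ p : ℕ × ℕ, ulim WW (fun q : ℕ × ℕ => h p.1 q.1) = ulim UU fun y => h p.1 y :=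
      fun p => ulim_WW_fst (fun y => h p.1 y) D.C (fun y => hhbd _ _)
    simp only [h4]
    exact ulim_WW_fst (fun x => ulim UU fun y => h x y) D.C
      (fun x => norm_ulim_le UU fun y => hhbd _ _)
  have h5 : ulim WW (fun p : ℕ × ℕ => h p.1 p.2) = ulim UU (fun x => ulim UU fun y => h x y) :=
    ulim_WW (fun p : ℕ × ℕ => h p.1 p.2) D.C (fun p => hhbd _ _)
  rw [h3, h5, sub_self, add_zero]

end Dat

end Pool.Agent.Lib.MP_1bca0d_an
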