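import Pool.Agent.Lib.MP_1bca0d_an.PT

/-!
Banach modules and bimodules over a Banach algebra, relative projectivity, admissible projective
resolutions, homological dimension, global dimension and bidimension.
-/

open Topology Filter

set_option maxSynthPendingDepth 3

namespace Pool.Agent.Lib.MP_1bca0d_an

section Unitiz

variable (A : Type) [NormedRing A] [NormedAlgebra ℂ A]

/-- The unitization `A_+ = ℂ ⊕ A` of `A`, with the norm `‖λ + a‖ = |λ| + ‖a‖`. -/
abbrev Aplus : Type := WithLp 1 (Unitization ℂ A)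

variable {A}

/-- The inclusion `A → A_+`. -/
noncomputable def inrL : A →L[ℂ] Aplus A :=
  LinearMap.mkContinuous
    { toFun := fun a => WithLp.toLp 1 (a : Unitization ℂ A)
      map_add' := fun a b => by
        rw [← WithLp.toLp_add, Unitization.inr_add]
      map_smul' := fun c a => by
        rw [RingHom.id_apply, ← WithLp.toLp_smul, Unitization.inr_smul] } 1
    (fun a => by
      rw [one_mul]
      exact (WithLp.unitization_norm_inr a).le)

/-- The coordinate `λ + a ↦ λ` on `A_+`. -/
noncomputable def fstL : Aplus A →L[ℂ] ℂ :=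
  LinearMap.mkContinuous
    { toFun := fun u => (WithLp.ofLp u).fst
      map_add' := fun a b => rfl
      map_smul' := fun c a => rfl } 1
    (fun a => by
      rw [one_mul, WithLp.unitization_norm_def]
      exact le_add_of_nonneg_right (norm_nonneg _))

/-- The coordinate `λ + a ↦ a` on `A_+`. -/
noncomputable def sndL : Aplus A →L[ℂ] A :=
  LinearMap.mkContinuous
    { toFun := fun u => (WithLp.ofLp u).snd
      map_add' := fun a b => rfl
      map_smul' := fun c a => rfl } 1
    (fun a => by
      rw [one_mul, WithLp.unitization_norm_def]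
      exact le_add_of_nonneg_left (norm_nonneg _))

end Unitiz

section Left

/-- A left Banach module over the Banach algebra `A`: a Banach space `E` with a bounded bilinear
action of `A` that is multiplicative. -/
structure LMod (A : Type) [NormedRing A] [NormedAlgebra ℂ A] where
  /-- the underlying Banach space -/
  E : Type
  [nacg : NormedAddCommGroup E]
  [ns : NormedSpace ℂ E]
  [cs : CompleteSpace E]
  /-- the action of `A` -/
  act : A →L[ℂ] E →L[ℂ] E
  act_mul : ∀ a b x, act (a * b) x = act a (act b x)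

attribute [instance] LMod.nacg LMod.ns LMod.cs

variable {A : Type} [NormedRing A] [NormedAlgebra ℂ A]

/-- A bounded linear map between left Banach modules is a module morphism. -/
def IsHom (X Y : LMod A) (f : X.E →L[ℂ] Y.E) : Prop :=
  ∀ a x, f (X.act a x) = Y.act a (f x)

/-- The action `(λ + a) · x = λ x + a x` of `A_+` on a left module. -/
noncomputable def LMod.plus (X : LMod A) : Aplus A →L[ℂ] X.E →L[ℂ] X.E :=
  (fstL).smulRight (ContinuousLinearMap.id ℂ X.E) + X.act ∘L sndL

/-- The canonical map `A_+ ⊗ X → X`, `u ⊗ x ↦ u · x`. -/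
noncomputable def LMod.mult (X : LMod A) : PT (Aplus A) X.E →L[ℂ] X.E :=
  PT.lift X.plus

/-- (Relative) projectivity of a left Banach module: the canonical map `A_+ ⊗ X → X` has a right
inverse `σ` which is a morphism of left modules; here `a · (u ⊗ x) = (a u) ⊗ x`. -/
def LMod.Projective (X : LMod A) : Prop :=
  ∃ σ : X.E →L[ℂ] PT (Aplus A) X.E,
    (∀ a x, σ (X.act a x) =
      PT.map (ContinuousLinearMap.mul ℂ (Aplus A) (inrL a)) (ContinuousLinearMap.id ℂ X.E) (σ x)) ∧
    ∀ x, X.mult (σ x) = x

/-- An admissible resolution `0 ← X ← P 0 ← P 1 ← ⋯ ← P m ← 0` of `X` by projective modules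
(`P j = 0` for `j > m`); `s₀, s` is the bounded linear contracting homotopy. -/
structure Resolution (X : LMod A) (m : ℕ) where
  /-- the modules -/
  P : ℕ → LMod A
  proj : ∀ j, (P j).Projective
  zero : ∀ j, m < j → Subsingleton (P j).E
  /-- the augmentation -/
  ε : (P 0).E →L[ℂ] X.E
  /-- the differentials -/
  d : ∀ j, (P (j + 1)).E →L[ℂ] (P j).E
  ε_hom : IsHom (P 0) X ε
  d_hom : ∀ j, IsHom (P (j + 1)) (P j) (d j)
  ε_d : ∀ x, ε (d 0 x) = 0
  d_d : ∀ j x, d j (d (j + 1) x) = 0
  /-- the contracting homotopy, first map -/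
  s₀ : X.E →L[ℂ] (P 0).E
  /-- the contracting homotopy -/
  s : ∀ j, (P j).E →L[ℂ] (P (j + 1)).E
  ε_s₀ : ∀ x, ε (s₀ x) = x
  s₀_ε : ∀ x, s₀ (ε x) + d 0 (s 0 x) = x
  s_d : ∀ j x, s j (d j x) + d (j + 1) (s (j + 1) x) = x

/-- The homological dimension `dh_A X`: the least `m` such that `X` has an admissible resolution of
length `m` by projective modules, and `∞` if there is none. -/
noncomputable def dh (X : LMod A) : ℕ∞ :=
  ⨅ (m : ℕ) (_ : Nonempty (Resolution X m)), (m : ℕ∞)

variable (A) in
/-- The global dimension `dg A`: the supremum of `dh_A X` over all left Banach `A`-modules `X`. -/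
noncomputable def dg : ℕ∞ := ⨆ X : LMod A, dh X

end Left

section Bi

/-- A Banach bimodule over the Banach algebra `A`. -/
structure BMod (A : Type) [NormedRing A] [NormedAlgebra ℂ A] where
  /-- the underlying Banach space -/
  E : Type
  [nacg : NormedAddCommGroup E]
  [ns : NormedSpace ℂ E]
  [cs : CompleteSpace E]
  /-- the left action, `actL a x = a x` -/
  actL : A →L[ℂ] E →L[ℂ] E
  /-- the right action, `actR a x = x a` -/
  actR : A →L[ℂ] E →L[ℂ] E
  actL_mul : ∀ a b x, actL (a * b) x = actL a (actL b x)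
  actR_mul : ∀ a b x, actR (a * b) x = actR b (actR a x)
  actL_actR : ∀ a b x, actL a (actR b x) = actR b (actL a x)

attribute [instance] BMod.nacg BMod.ns BMod.cs

variable {A : Type} [NormedRing A] [NormedAlgebra ℂ A]

/-- A bounded linear map between Banach bimodules is a bimodule morphism. -/
def IsBHom (X Y : BMod A) (f : X.E →L[ℂ] Y.E) : Prop :=
  (∀ a x, f (X.actL a x) = Y.actL a (f x)) ∧ ∀ a x, f (X.actR a x) = Y.actR a (f x)

/-- The left action `(λ + a) · x = λ x + a x` of `A_+` on a bimodule. -/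
noncomputable def BMod.plusL (X : BMod A) : Aplus A →L[ℂ] X.E →L[ℂ] X.E :=
  (fstL).smulRight (ContinuousLinearMap.id ℂ X.E) + X.actL ∘L sndL

/-- The right action `x · (λ + a) = λ x + x a` of `A_+` on a bimodule. -/
noncomputable def BMod.plusR (X : BMod A) : Aplus A →L[ℂ] X.E →L[ℂ] X.E :=
  (fstL).smulRight (ContinuousLinearMap.id ℂ X.E) + X.actR ∘L sndL

/-- The canonical map `X ⊗ A_+ → X`, `x ⊗ w ↦ x · w`. -/
noncomputable def BMod.rmult (X : BMod A) : PT X.E (Aplus A) →L[ℂ] X.E :=
  PT.lift X.plusR.flip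

/-- The canonical map `A_+ ⊗ (X ⊗ A_+) → X`, `u ⊗ (x ⊗ w) ↦ u · x · w`. -/
noncomputable def BMod.mult (X : BMod A) : PT (Aplus A) (PT X.E (Aplus A)) →L[ℂ] X.E :=
  PT.lift (((ContinuousLinearMap.compL ℂ (PT X.E (Aplus A)) X.E X.E).flip X.rmult) ∘L X.plusL)

/-- (Relative) projectivity of a Banach bimodule: the canonical map `A_+ ⊗ X ⊗ A_+ → X` has a right
inverse `σ` which is a morphism of bimodules; here `a · (u ⊗ (x ⊗ w)) = (a u) ⊗ (x ⊗ w)` and
`(u ⊗ (x ⊗ w)) · a = u ⊗ (x ⊗ (w a))`. -/
def BMod.Projective (X : BMod A) : Prop :=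
  ∃ σ : X.E →L[ℂ] PT (Aplus A) (PT X.E (Aplus A)),
    (∀ a x, σ (X.actL a x) =
      PT.map (ContinuousLinearMap.mul ℂ (Aplus A) (inrL a))
        (ContinuousLinearMap.id ℂ (PT X.E (Aplus A))) (σ x)) ∧
    (∀ a x, σ (X.actR a x) =
      PT.map (ContinuousLinearMap.id ℂ (Aplus A))
        (PT.map (ContinuousLinearMap.id ℂ X.E)
          ((ContinuousLinearMap.mul ℂ (Aplus A)).flip (inrL a))) (σ x)) ∧
    ∀ x, X.mult (σ x) = x

/-- An admissible resolution `0 ← X ← P 0 ← P 1 ← ⋯ ← P m ← 0` of the bimodule `X` by projective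
bimodules (`P j = 0` for `j > m`); `s₀, s` is the bounded linear contracting homotopy. -/
structure BResolution (X : BMod A) (m : ℕ) where
  /-- the bimodules -/
  P : ℕ → BMod A
  proj : ∀ j, (P j).Projective
  zero : ∀ j, m < j → Subsingleton (P j).E
  /-- the augmentation -/
  ε : (P 0).E →L[ℂ] X.E
  /-- the differentials -/
  d : ∀ j, (P (j + 1)).E →L[ℂ] (P j).E
  ε_hom : IsBHom (P 0) X ε
  d_hom : ∀ j, IsBHom (P (j + 1)) (P j) (d j)
  ε_d : ∀ x, ε (d 0 x) = 0
  d_d : ∀ j x, d j (d (j + 1) x) = 0
  /-- the contracting homotopy, first map -/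
  s₀ : X.E →L[ℂ] (P 0).E
  /-- the contracting homotopy -/
  s : ∀ j, (P j).E →L[ℂ] (P (j + 1)).E
  ε_s₀ : ∀ x, ε (s₀ x) = x
  s₀_ε : ∀ x, s₀ (ε x) + d 0 (s 0 x) = x
  s_d : ∀ j x, s j (d j x) + d (j + 1) (s (j + 1) x) = x

/-- The homological dimension of a Banach bimodule: the least `m` such that `X` has an admissible
resolution of length `m` by projective bimodules, and `∞` if there is none. -/
noncomputable def dhB (X : BMod A) : ℕ∞ :=
  ⨅ (m : ℕ) (_ : Nonempty (BResolution X m)), (m : ℕ∞)

variable (A) in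
/-- The algebra `A`, regarded as a bimodule over itself. -/
noncomputable def regularB [CompleteSpace A] : BMod A where
  E := A
  actL := ContinuousLinearMap.mul ℂ A
  actR := (ContinuousLinearMap.mul ℂ A).flip
  actL_mul := fun a b x => mul_assoc a b x
  actR_mul := fun a b x => (mul_assoc x a b).symm
  actL_actR := fun a b x => (mul_assoc a x b).symm

variable (A) in
/-- The bidimension `db A`: the homological dimension of the bimodule `A`. -/
noncomputable def db [CompleteSpace A] : ℕ∞ := dhB (regularB A)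

end Bi

end Pool.Agent.Lib.MP_1bca0d_an
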