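import Pool.Agent.Lib.MP_1bca0d_an.Rho

/-!
Evaluation functionals on the modules `Ωⁿ ℓ_∞(K)` over `C(K)`.
-/

open Topology Filter

set_option maxSynthPendingDepth 3

namespace Pool.Agent.Lib.MP_1bca0d_an

/-- the set `K` with the discrete topology -/
def Disc (K : Type) : Type := K

instance (K : Type) : TopologicalSpace (Disc K) := ⊥

instance (K : Type) : DiscreteTopology (Disc K) := ⟨rfl⟩

/-- the space of bounded functions on `K` -/
abbrev Linf (K : Type) : Type := BoundedContinuousFunction (Disc K) ℂ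

variable {K : Type} [TopologicalSpace K] [CompactSpace K]

/-- continuous functions as bounded functions -/
noncomputable def toLinf : C(K, ℂ) →L[ℂ] Linf K :=
  LinearMap.mkContinuous
    { toFun := fun a => BoundedContinuousFunction.ofNormedAddCommGroupDiscrete
        (fun s : Disc K => a (show K from s)) ‖a‖ (fun s => a.norm_coe_le_norm s)
      map_add' := fun a b => rfl
      map_smul' := fun c a => rfl } 1
    (fun a => by
      rw [one_mul]
      exact (BoundedContinuousFunction.norm_le (norm_nonneg a)).2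
        (fun s => a.norm_coe_le_norm (show K from s)))

/-- The `C(K)`-module of bounded functions on `K`. -/
noncomputable def linf (K : Type) [TopologicalSpace K] [CompactSpace K] : LMod C(K, ℂ) where
  E := Linf K
  act := (ContinuousLinearMap.mul ℂ (Linf K)) ∘L toLinf
  act_mul := by
    intro a b x
    ext s
    change (a s * b s) * x s = a s * (b s * x s)
    ring

/-- evaluation of an element of `linf K` -/
noncomputable def linfEv (K : Type) [TopologicalSpace K] [CompactSpace K] (s : K) :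
    (linf K).E →L[ℂ] ℂ :=
  BoundedContinuousFunction.evalCLM ℂ (show Disc K from s)

theorem linf_ext {x y : (linf K).E} (h : ∀ s, linfEv K s x = linfEv K s y) : x = y :=
  BoundedContinuousFunction.ext (α := Disc K) (β := ℂ) h

theorem linfEv_act (a : C(K, ℂ)) (x : (linf K).E) (s : K) :
    linfEv K s ((linf K).act a x) = a s * linfEv K s x := rfl

theorem linf_norm_le (x : (linf K).E) (C : ℝ) (hC : 0 ≤ C) (h : ∀ s, ‖linfEv K s x‖ ≤ C) :
    ‖x‖ ≤ C :=
  (BoundedContinuousFunction.norm_le (f := (show Linf K from x)) hC).2 h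

theorem norm_linfEv_le (x : (linf K).E) (s : K) : ‖linfEv K s x‖ ≤ ‖x‖ :=
  BoundedContinuousFunction.norm_coe_le_norm (show Linf K from x) s

theorem linf_act_one (x : (linf K).E) : (linf K).act 1 x = x := by
  apply linf_ext
  intro s
  rw [linfEv_act]
  simp

open Classical in
/-- the indicator function of a point -/
noncomputable def ind (s : K) : (linf K).E :=
  (BoundedContinuousFunction.ofNormedAddCommGroupDiscrete
    (fun s' : Disc K => if (show K from s') = s then (1 : ℂ) else 0) 1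
    (fun s' => by split_ifs <;> simp) : Linf K)

open Classical in
theorem linfEv_ind (s s' : K) : linfEv K s' (ind s) = if s' = s then 1 else 0 := rfl

theorem linf_act_ind (a : C(K, ℂ)) (s : K) (h : a s = 0) : (linf K).act a (ind s) = 0 := by
  apply linf_ext
  intro s'
  rw [linfEv_act, linfEv_ind, map_zero]
  split_ifs with h1
  · rw [h1, h, zero_mul]
  · rw [mul_zero]

/-- evaluation at a tuple of points -/
noncomputable def ev : ∀ n, (Fin (n + 1) → K) → (OmI (linf K) n).E →L[ℂ] ℂ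
  | 0, v => linfEv K (v 0)
  | n + 1, v => (PT.lift ((ContinuousMap.evalCLM ℂ (v 0)).smulRight (ev n (Fin.tail v))) :
      PT C(K, ℂ) (OmI (linf K) n).E →L[ℂ] ℂ)

theorem ev_zero (v : Fin 1 → K) (x : (linf K).E) : ev 0 v x = linfEv K (v 0) x := rfl

theorem ev_mk (n : ℕ) (v : Fin (n + 2) → K) (b : C(K, ℂ)) (w : (OmI (linf K) n).E) :
    ev (n + 1) v (PT.mk b w : PT C(K, ℂ) (OmI (linf K) n).E) = b (v 0) * ev n (Fin.tail v) w :=
  PT.lift_mk (G := ℂ) _ b w

/-- multiplication `Ω^{n+1} → Ω^n` -/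
noncomputable def muI (n : ℕ) : (OmI (linf K) (n + 1)).E →L[ℂ] (OmI (linf K) n).E :=
  muL (OmI (linf K) n)

theorem muI_mk (n : ℕ) (b : C(K, ℂ)) (w : (OmI (linf K) n).E) :
    muI n (PT.mk b w : PT C(K, ℂ) (OmI (linf K) n).E) = (OmI (linf K) n).act b w :=
  muL_mk _ b w

theorem muI_act (n : ℕ) (a : C(K, ℂ)) (z : (OmI (linf K) (n + 1)).E) :
    muI n ((OmI (linf K) (n + 1)).act a z) = 0 := muL_act _ a z

theorem ev_act (n : ℕ) (v : Fin (n + 2) → K) (a : C(K, ℂ)) (z : (OmI (linf K) (n + 1)).E) :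
    ev (n + 1) v ((OmI (linf K) (n + 1)).act a z) =
      a (v 0) * (ev (n + 1) v z - ev n (Fin.tail v) (muI n z)) := by
  have h : (ev (n + 1) v) ∘L ((OmI (linf K) (n + 1)).act a) =
      a (v 0) • (ev (n + 1) v - (ev n (Fin.tail v)) ∘L (muI n)) := by
    apply PT.ext
    intro b w
    have h1 : (OmI (linf K) (n + 1)).act a (PT.mk b w : PT C(K, ℂ) (OmI (linf K) n).E) =
      ((PT.mk (a * b) w : PT C(K, ℂ) (OmI (linf K) n).E) - PT.mk a ((OmI (linf K) n).act b w)) :=
      Om_act_mk (OmI (linf K) n) a b w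
    have h2 : muI n (PT.mk b w : PT C(K, ℂ) (OmI (linf K) n).E) =
      (OmI (linf K) n).act b w := muI_mk n b w
    have h3 : ev (n + 1) v ((PT.mk (a * b) w : PT C(K, ℂ) (OmI (linf K) n).E) -
        PT.mk a ((OmI (linf K) n).act b w)) =
        ev (n + 1) v (PT.mk (a * b) w : PT C(K, ℂ) (OmI (linf K) n).E) -
        ev (n + 1) v (PT.mk a ((OmI (linf K) n).act b w) : PT C(K, ℂ) (OmI (linf K) n).E) :=
      (ev (n + 1) v).map_sub _ _
    change ev (n + 1) v ((OmI (linf K) (n + 1)).act a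
      (PT.mk b w : PT C(K, ℂ) (OmI (linf K) n).E)) =
      a (v 0) * (ev (n + 1) v (PT.mk b w : PT C(K, ℂ) (OmI (linf K) n).E) -
        ev n (Fin.tail v) (muI n (PT.mk b w : PT C(K, ℂ) (OmI (linf K) n).E)))
    rw [h1, h2, h3, ev_mk, ev_mk, ev_mk]
    change a (v 0) * b (v 0) * _ - _ = _
    ring
  exact congrArg (fun f => f z) h

theorem ev_muL (n : ℕ) : ∀ (v : Fin (n + 1) → K) (z : (OmI (linf K) (n + 1)).E),
    ev n v (muI n z) =
      ∑ i : Fin (n + 1), (-1 : ℂ) ^ (i : ℕ) * ev (n + 1) (v ∘ Fin.predAbove i) z := by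
  induction n with
  | zero =>
    intro v z
    have h : (ev 0 v) ∘L (muI 0) =
        ∑ i : Fin 1, ((-1 : ℂ) ^ (i : ℕ)) • ev 1 (v ∘ Fin.predAbove i) := by
      apply PT.ext
      intro b w
      have h2 : muI 0 (PT.mk b w : PT C(K, ℂ) (OmI (linf K) 0).E) =
        (linf K).act b w := muI_mk 0 b w
      change ev 0 v (muI 0 (PT.mk b w : PT C(K, ℂ) (OmI (linf K) 0).E)) = _
      rw [h2, Fin.sum_univ_one]
      change linfEv K (v 0) ((linf K).act b w) = (-1 : ℂ) ^ 0 * (ev 1 (v ∘ Fin.predAbove 0)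
        (PT.mk b w : PT C(K, ℂ) (OmI (linf K) 0).E))
      rw [ev_mk, pow_zero, one_mul, linfEv_act]
      rfl
    have h3 := congrArg (fun f => f z) h
    have h4 : (∑ i : Fin 1, ((-1 : ℂ) ^ (i : ℕ)) • ev 1 (v ∘ Fin.predAbove i)) z =
        ∑ i : Fin 1, (-1 : ℂ) ^ (i : ℕ) * ev 1 (v ∘ Fin.predAbove i) z := by
      rw [Fin.sum_univ_one, Fin.sum_univ_one]
      rfl
    exact h3.trans h4
  | succ n ih =>
    intro v z
    have h : (ev (n + 1) v) ∘L (muI (n + 1)) =
        ∑ i : Fin (n + 2), ((-1 : ℂ) ^ (i : ℕ)) • ev (n + 2) (v ∘ Fin.predAbove i) := by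
      apply PT.ext
      intro b w
      have h2 : muI (n + 1) (PT.mk b w : PT C(K, ℂ) (OmI (linf K) (n + 1)).E) =
        (OmI (linf K) (n + 1)).act b w := muI_mk (n + 1) b w
      have h5 : (∑ i : Fin (n + 2), ((-1 : ℂ) ^ (i : ℕ)) • ev (n + 2) (v ∘ Fin.predAbove i))
          (PT.mk b w : PT C(K, ℂ) (OmI (linf K) (n + 1)).E) =
          ∑ i : Fin (n + 2), (-1 : ℂ) ^ (i : ℕ) *
            (b (v 0) * ev (n + 1) (Fin.tail (v ∘ Fin.predAbove i)) w) := by
        rw [sum_apply]
        refine Finset.sum_congr rfl fun i _ => ?_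
        have h6 : ev (n + 2) (v ∘ Fin.predAbove i)
            (PT.mk b w : PT C(K, ℂ) (OmI (linf K) (n + 1)).E) =
            b ((v ∘ Fin.predAbove i) 0) * ev (n + 1) (Fin.tail (v ∘ Fin.predAbove i)) w :=
          ev_mk (n + 1) _ b w
        have h7 : (v ∘ Fin.predAbove i) 0 = v 0 := by
          simp
        rw [h7] at h6
        rw [← h6]
        rfl
      refine Eq.trans ?_ h5.symm
      change ev (n + 1) v (muI (n + 1)
        (PT.mk b w : PT C(K, ℂ) (OmI (linf K) (n + 1)).E)) = _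
      rw [h2, ev_act, ih]
      conv_rhs => rw [Fin.sum_univ_succ]
      have h8 : Fin.tail (v ∘ Fin.predAbove (0 : Fin (n + 2))) = v := by
        ext j
        simp [Fin.tail]
      have h9 : ∀ i : Fin (n + 1), Fin.tail (v ∘ Fin.predAbove i.succ) =
          (Fin.tail v) ∘ Fin.predAbove i := by
        intro i
        ext j
        simp [Fin.tail]
      rw [h8]
      simp only [h9]
      rw [mul_sub, Finset.mul_sum, sub_eq_add_neg, ← Finset.sum_neg_distrib]
      congr 1
      · simp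
      · refine Finset.sum_congr rfl fun i _ => ?_
        rw [Fin.val_succ, pow_succ]
        ring
    have h3 := congrArg (fun f => f z) h
    have h4 : (∑ i : Fin (n + 2), ((-1 : ℂ) ^ (i : ℕ)) • ev (n + 2) (v ∘ Fin.predAbove i)) z =
        ∑ i : Fin (n + 2), (-1 : ℂ) ^ (i : ℕ) * ev (n + 2) (v ∘ Fin.predAbove i) z := by
      rw [sum_apply]
      rfl
    exact h3.trans h4

end Pool.Agent.Lib.MP_1bca0d_an
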