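import Pool.Agent.Lib.MP_1bca0d_an.Ev

/-!
The functional `Γ` attached to a solution of the `δ`-equation, and its properties.
-/

open Topology Filter Function

set_option maxSynthPendingDepth 3

namespace Pool.Agent.Lib.MP_1bca0d_an

variable {K : Type} [TopologicalSpace K] [CompactSpace K]

theorem ev_tens (n : ℕ) : ∀ (v : Fin (n + 1) → K) (d : Fin n → C(K, ℂ)) (x : (linf K).E),
    ev n v (tens (linf K) n d x) =
      (∏ i : Fin n, d (Fin.rev i) (v i.castSucc)) * linfEv K (v (Fin.last n)) x := by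
  induction n with
  | zero =>
    intro v d x
    simp
    rfl
  | succ n ih =>
    intro v d x
    have h1 : ev (n + 1) v (tens (linf K) (n + 1) d x) =
      d (Fin.last n) (v 0) * ev n (Fin.tail v) (tens (linf K) n (Fin.init d) x) :=
      ev_mk n v (d (Fin.last n)) (tens (linf K) n (Fin.init d) x)
    rw [h1, ih, Fin.prod_univ_succ]
    have h2 : ∀ i : Fin n, Fin.init d (Fin.rev i) (Fin.tail v i.castSucc) =
        d (Fin.rev i.succ) (v i.succ.castSucc) := by
      intro i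
      simp only [Fin.init, Fin.tail, Fin.rev_succ, Fin.succ_castSucc]
    simp only [h2]
    rw [Fin.rev_zero, ← mul_assoc]
    rfl

theorem ev_bound (n : ℕ) : ∀ (p : ℕ) (c : Fin p → ℂ) (v : Fin p → Fin (n + 1) → K) (R : ℝ),
    0 ≤ R →
    (∀ u : Fin (n + 1) → K → ℂ, (∀ i x, ‖u i x‖ ≤ 1) → ‖∑ j, c j * ∏ i, u i (v j i)‖ ≤ R) →
    ∀ z : (OmI (linf K) n).E, ‖∑ j, c j * ev n (v j) z‖ ≤ R * ‖z‖ := by
  induction n with
  | zero =>
    intro p c v R hR hc x
    rcases eq_or_ne ‖x‖ 0 with hx | hx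
    · have hx0 : x = 0 := norm_eq_zero.1 hx
      rw [hx0]
      have : ∀ j, c j * ev 0 (v j) (0 : (linf K).E) = 0 := fun j => by
        rw [ev_zero, map_zero, mul_zero]
      have h2 : ∑ j, c j * ev 0 (v j) (0 : (OmI (linf K) 0).E) = 0 :=
        Finset.sum_eq_zero fun j _ => this j
      rw [h2, norm_zero]
      positivity
    · have hpos : 0 < ‖x‖ := lt_of_le_of_ne (norm_nonneg _) (Ne.symm hx)
      have h1 := hc (fun _ s => (‖x‖ : ℂ)⁻¹ * linfEv K s x) (by
        intro _ s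
        rw [norm_mul, norm_inv, Complex.norm_real, norm_norm]
        rw [inv_mul_le_iff₀ hpos, mul_one]
        exact norm_linfEv_le x s)
      have h2 : ∑ j, c j * ev 0 (v j) x =
          (‖x‖ : ℂ) * ∑ j, c j * ∏ i, ((fun (_ : Fin 1) s => (‖x‖ : ℂ)⁻¹ * linfEv K s x) i (v j i)) := by
        rw [Finset.mul_sum]
        refine Finset.sum_congr rfl fun j _ => ?_
        rw [Fin.prod_univ_one, ev_zero]
        have : (‖x‖ : ℂ) ≠ 0 := by exact_mod_cast hx
        field_simp
      rw [h2, norm_mul, Complex.norm_real, norm_norm, mul_comm]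
      gcongr
  | succ n ih =>
    intro p c v R hR hc z
    -- the bilinear form
    let Φ : C(K, ℂ) →L[ℂ] (OmI (linf K) n).E →L[ℂ] ℂ :=
      ∑ j, c j • (ContinuousMap.evalCLM ℂ (v j 0)).smulRight (ev n (Fin.tail (v j)))
    have hΦ : ∀ b w, Φ b w = ∑ j, (c j * b (v j 0)) * ev n (Fin.tail (v j)) w := by
      intro b w
      simp only [Φ]
      rw [sum_apply, sum_apply]
      refine Finset.sum_congr rfl fun j _ => ?_
      change c j * (b (v j 0) * ev n (Fin.tail (v j)) w) = _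
      ring
    have h1 : ∑ j, c j * ev (n + 1) (v j) z = PT.lift Φ z := by
      have h : ∑ j, c j • ev (n + 1) (v j) = (PT.lift Φ : PT C(K, ℂ) (OmI (linf K) n).E →L[ℂ] ℂ) := by
        apply PT.ext
        intro b w
        rw [PT.lift_mk, hΦ]
        have h5 : (∑ j, c j • ev (n + 1) (v j)) (PT.mk b w : PT C(K, ℂ) (OmI (linf K) n).E) =
            ∑ j, c j * ev (n + 1) (v j) (PT.mk b w : PT C(K, ℂ) (OmI (linf K) n).E) := by
          rw [sum_apply]
          rfl
        refine h5.trans ?_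
        refine Finset.sum_congr rfl fun j _ => ?_
        rw [ev_mk]
        ring
      have h3 := congrArg (fun f => f z) h
      have h4 : (∑ j, c j • ev (n + 1) (v j)) z = ∑ j, c j * ev (n + 1) (v j) z := by
        rw [sum_apply]
        rfl
      exact h4.symm.trans h3
    rw [h1]
    refine PT.norm_lift_le_of Φ R hR ?_ z
    intro b w
    rw [hΦ]
    refine (ih p (fun j => c j * b (v j 0)) (fun j => Fin.tail (v j)) (R * ‖b‖) (by positivity)
      ?_ w)
    intro u hu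
    rcases eq_or_ne ‖b‖ 0 with hb | hb
    · have hb0 : b = 0 := norm_eq_zero.1 hb
      rw [hb0]
      simp
    · have hpos : 0 < ‖b‖ := lt_of_le_of_ne (norm_nonneg _) (Ne.symm hb)
      have h2 := hc (Fin.cons (fun s => (‖b‖ : ℂ)⁻¹ * b s) u) (by
        intro i
        refine Fin.cases ?_ (fun i => ?_) i
        · intro s
          rw [Fin.cons_zero, norm_mul, norm_inv, Complex.norm_real, norm_norm]
          rw [inv_mul_le_iff₀ hpos, mul_one]
          exact b.norm_coe_le_norm s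
        · intro s
          rw [Fin.cons_succ]
          exact hu i s)
      have h3 : ∑ j, (c j * b (v j 0)) * ∏ i, u i (Fin.tail (v j) i) =
          (‖b‖ : ℂ) * ∑ j, c j * ∏ i, (Fin.cons (fun s => (‖b‖ : ℂ)⁻¹ * b s) u :
            Fin (n + 2) → K → ℂ) i (v j i) := by
        rw [Finset.mul_sum]
        refine Finset.sum_congr rfl fun j _ => ?_
        have h6 : ∏ i, (Fin.cons (fun s => (‖b‖ : ℂ)⁻¹ * b s) u :
            Fin (n + 2) → K → ℂ) i (v j i) =
            ((‖b‖ : ℂ)⁻¹ * b (v j 0)) * ∏ i, u i (Fin.tail (v j) i) := by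
          rw [Fin.prod_univ_succ]
          simp only [Fin.cons_zero, Fin.cons_succ, Fin.tail]
        rw [h6]
        have : (‖b‖ : ℂ) ≠ 0 := by exact_mod_cast hb
        field_simp
      rw [h3, norm_mul, Complex.norm_real, norm_norm, mul_comm]
      gcongr

/-- evaluation with continuous parameters -/
noncomputable def evC (s : K) : ∀ n, (OmI (linf K) n).E →L[ℂ] C(Fin n → K, ℂ)
  | 0 => (show ℂ →L[ℂ] C(Fin 0 → K, ℂ) from
      LinearMap.mkContinuous
        { toFun := fun c => ContinuousMap.const _ c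
          map_add' := fun a b => rfl
          map_smul' := fun c a => rfl } 1 (fun c => by
            rw [one_mul]
            exact (ContinuousMap.norm_le _ (norm_nonneg c)).2 fun _ => le_rfl)) ∘L linfEv K s
  | n + 1 =>
    (PT.lift ((ContinuousLinearMap.compL ℂ (OmI (linf K) n).E C(Fin (n + 1) → K, ℂ)
        C(Fin (n + 1) → K, ℂ)).flip
          ((show C(Fin n → K, ℂ) →L[ℂ] C(Fin (n + 1) → K, ℂ) from
            LinearMap.mkContinuous
              { toFun := fun f => f.comp ⟨fun w : Fin (n + 1) → K => Fin.tail w, by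
                  unfold Fin.tail
                  fun_prop⟩
                map_add' := fun a b => rfl
                map_smul' := fun c a => rfl } 1 (fun f => by
                  rw [one_mul]
                  exact (ContinuousMap.norm_le _ (norm_nonneg f)).2
                    fun w => f.norm_coe_le_norm _)) ∘L evC s n) ∘L
        (ContinuousLinearMap.mul ℂ C(Fin (n + 1) → K, ℂ)) ∘L
          (show C(K, ℂ) →L[ℂ] C(Fin (n + 1) → K, ℂ) from
            LinearMap.mkContinuous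
              { toFun := fun f => f.comp ⟨fun w : Fin (n + 1) → K => w 0, by fun_prop⟩
                map_add' := fun a b => rfl
                map_smul' := fun c a => rfl } 1 (fun f => by
                  rw [one_mul]
                  exact (ContinuousMap.norm_le _ (norm_nonneg f)).2
                    fun w => f.norm_coe_le_norm _))) :
      PT C(K, ℂ) (OmI (linf K) n).E →L[ℂ] C(Fin (n + 1) → K, ℂ))

theorem evC_mk (s : K) (n : ℕ) (b : C(K, ℂ)) (w : (OmI (linf K) n).E) (x : Fin (n + 1) → K) :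
    evC s (n + 1) (PT.mk b w : PT C(K, ℂ) (OmI (linf K) n).E) x =
      b (x 0) * evC s n w (Fin.tail x) :=
  congrArg (fun f : C(Fin (n + 1) → K, ℂ) => f x) (PT.lift_mk (G := C(Fin (n + 1) → K, ℂ)) _ b w)

theorem ev_snoc (s : K) (n : ℕ) : ∀ (x : Fin n → K) (z : (OmI (linf K) n).E),
    ev n (Fin.snoc x s) z = evC s n z x := by
  induction n with
  | zero =>
    intro x z
    rfl
  | succ n ih =>
    intro x z
    have h : ev (n + 1) (Fin.snoc x s) =
        (ContinuousMap.evalCLM ℂ x : C(Fin (n + 1) → K, ℂ) →L[ℂ] ℂ) ∘L evC s (n + 1) := by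
      apply PT.ext
      intro b w
      have h1 := evC_mk s n b w x
      have h2 := ev_mk n (Fin.snoc x s) b w
      refine h2.trans (Eq.trans ?_ h1.symm)
      have h3 : (Fin.snoc x s : Fin (n + 2) → K) 0 = x 0 := by
        simp
      have h4 : Fin.tail (Fin.snoc x s : Fin (n + 2) → K) = Fin.snoc (Fin.tail x) s := by
        ext i
        refine Fin.lastCases ?_ (fun i => ?_) i
        · simp [Fin.tail]
        · simp only [Fin.tail]
          rw [Fin.snoc_castSucc, ← Fin.castSucc_succ, Fin.snoc_castSucc]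
          rfl
      rw [h3, h4, ih]
    exact congrArg (fun f => f z) h

/-- The functional `Γ`. -/
noncomputable def Gam {N : ℕ} (Rh : Rho (linf K) N) (a : Fin N → C(K, ℂ)) (s : K)
    (v : Fin (N + 2) → K) : ℂ :=
  (-1 : ℂ) ^ N * ev (N + 1) v ((OmI (linf K) (N + 1)).act 1 (Rh.ρ (a ∘ Fin.rev) (ind s)))

theorem Gam_lin {N : ℕ} (Rh : Rho (linf K) N) (a : Fin N → C(K, ℂ)) (i : Fin N) (s : K)
    (v : Fin (N + 2) → K) :
    ∃ f : C(K, ℂ) →L[ℂ] ℂ, ∀ ψ, Gam Rh (update a i ψ) s v = f ψ := by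
  obtain ⟨f, hf⟩ := Rh.upd (a ∘ Fin.rev) (Fin.rev i) (ind s)
  refine ⟨(-1 : ℂ) ^ N • (ev (N + 1) v ∘L ((OmI (linf K) (N + 1)).act 1) ∘L f), fun ψ => ?_⟩
  have h1 : (update a i ψ) ∘ Fin.rev = update (a ∘ Fin.rev) (Fin.rev i) ψ := by
    ext1 j
    simp only [comp_apply]
    rcases eq_or_ne (Fin.rev j) i with h | h
    · rw [h, update_self]
      rw [← h, Fin.rev_rev, update_self]
    · rw [update_of_ne h, update_of_ne]
      · rfl
      · intro h2
        exact h (by rw [h2, Fin.rev_rev])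
  rw [Gam, h1, hf]
  rfl

theorem Gam_cont {N : ℕ} (Rh : Rho (linf K) N) (a : Fin N → C(K, ℂ)) (s : K) :
    Continuous fun w : Fin (N + 1) → K => Gam Rh a s (Fin.snoc w s) := by
  simp only [Gam]
  refine continuous_const.mul ?_
  simp only [ev_snoc]
  exact (evC s (N + 1) _).continuous

theorem Gam_ort {N : ℕ} (Rh : Rho (linf K) N) (c : Fin (N + 1) → C(K, ℂ))
    (hc : ∀ i : Fin N, c i.castSucc * c i.succ = 0) (s : K) (hs : c (Fin.last N) s = 0)
    (v : Fin (N + 2) → K) (hv : v (Fin.last (N + 1)) = s) (hv0 : c 0 (v 0) = 1) :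
    Gam Rh (Fin.tail c) s v = ∏ i : Fin N, c i.succ (v i.succ.castSucc) := by
  have h1 := Rh.ort (c ∘ Fin.rev) (ind s) (by
    intro i
    simp only [comp_apply, Fin.rev_succ, Fin.rev_castSucc]
    exact hc (Fin.rev i)) (by
    simp only [comp_apply, Fin.rev_zero]
    exact linf_act_ind _ _ hs)
  have h2 := congrArg (ev (N + 1) v) h1
  rw [ev_tens, map_smul, ev_act] at h2
  have h3 : ∀ z, ev (N + 1) v ((OmI (linf K) (N + 1)).act 1 z) =
      (ev (N + 1) v z - ev N (Fin.tail v) (muI N z)) := by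
    intro z
    rw [ev_act]
    simp
  rw [← h3, hv, linfEv_ind, if_pos rfl, mul_one] at h2
  simp only [comp_apply, Fin.rev_rev, Fin.rev_last] at h2
  rw [hv0, one_mul] at h2
  have h4 : (Fin.tail c) ∘ Fin.rev = Fin.init (c ∘ Fin.rev) := by
    ext1 i
    simp only [comp_apply, Fin.tail, Fin.init, Fin.rev_castSucc]
  rw [Gam, h4]
  rw [Fin.prod_univ_succ] at h2
  have h5 : c 0 (v (Fin.castSucc 0)) = 1 := hv0
  rw [h5, one_mul] at h2
  rw [h2]
  rfl

theorem Gam_sum {N : ℕ} (Rh : Rho (linf K) N) (a : Fin N → C(K, ℂ)) (s : K)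
    (v : Fin (N + 1) → K) :
    ∑ i : Fin (N + 1), (-1 : ℂ) ^ (i : ℕ) * Gam Rh a s (v ∘ Fin.predAbove i) = 0 := by
  have h1 := ev_muL N v ((OmI (linf K) (N + 1)).act 1 (Rh.ρ (a ∘ Fin.rev) (ind s)))
  have h2 : muL (OmI (linf K) N) ((OmI (linf K) (N + 1)).act 1 (Rh.ρ (a ∘ Fin.rev) (ind s))) = 0 :=
    muI_act N 1 _
  have h3 : ev N v (muI N ((OmI (linf K) (N + 1)).act 1 (Rh.ρ (a ∘ Fin.rev) (ind s)))) = 0 := by
    rw [muI_act, map_zero]
  have h4 := h1.symm.trans h3
  simp only [Gam]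
  have h5 : ∀ i : Fin (N + 1), (-1 : ℂ) ^ (i : ℕ) * ((-1 : ℂ) ^ N * ev (N + 1) (v ∘ Fin.predAbove i)
      ((OmI (linf K) (N + 1)).act 1 (Rh.ρ (a ∘ Fin.rev) (ind s)))) =
      (-1 : ℂ) ^ N * ((-1 : ℂ) ^ (i : ℕ) * ev (N + 1) (v ∘ Fin.predAbove i)
      ((OmI (linf K) (N + 1)).act 1 (Rh.ρ (a ∘ Fin.rev) (ind s)))) := fun i => by ring
  simp only [h5]
  rw [← Finset.mul_sum, h4, mul_zero]

theorem Gam_meas {N : ℕ} (Rh : Rho (linf K) N) :
    ∃ C : ℝ, 0 ≤ C ∧ ∀ (a : Fin N → C(K, ℂ)), (∀ i, ‖a i‖ ≤ 1) →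
      ∀ (T : Finset K) (θ : K → ℂ), (∀ s, ‖θ s‖ ≤ 1) →
      ∀ (p : ℕ) (c : Fin p → ℂ) (v : Fin p → Fin (N + 2) → K) (R : ℝ),
      (∀ u : Fin (N + 2) → K → ℂ, (∀ i x, ‖u i x‖ ≤ 1) → ‖∑ j, c j * ∏ i, u i (v j i)‖ ≤ R) →
      ‖∑ j, c j * ∑ s ∈ T, θ s * Gam Rh a s (v j)‖ ≤ C * R := by
  classical
  refine ⟨‖(OmI (linf K) (N + 1)).act 1‖ * Rh.C, by have := Rh.hC; positivity, ?_⟩
  intro a ha T θ hθ p c v R hR
  have hR0 : 0 ≤ R := (norm_nonneg _).trans (hR (fun _ _ => 0) (by simp))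
  set x : (linf K).E := ∑ s ∈ T, θ s • ind s with hx
  have hxn : ‖x‖ ≤ 1 := by
    apply linf_norm_le x 1 zero_le_one
    intro s'
    rw [hx, map_sum]
    simp only [map_smul, linfEv_ind, smul_eq_mul, mul_ite, mul_one, mul_zero]
    rw [Finset.sum_ite_eq]
    split_ifs
    · exact hθ s'
    · simp
  set z := (OmI (linf K) (N + 1)).act 1 (Rh.ρ (a ∘ Fin.rev) x) with hz
  have h1 : ∀ j, ∑ s ∈ T, θ s * Gam Rh a s (v j) = (-1 : ℂ) ^ N * ev (N + 1) (v j) z := by
    intro j
    rw [hz, hx, map_sum, map_sum, map_sum, Finset.mul_sum]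
    refine Finset.sum_congr rfl fun s _ => ?_
    rw [Gam, map_smul, map_smul, map_smul, smul_eq_mul]
    ring
  have h2 : ∑ j, c j * ∑ s ∈ T, θ s * Gam Rh a s (v j) =
      (-1 : ℂ) ^ N * ∑ j, c j * ev (N + 1) (v j) z := by
    rw [Finset.mul_sum]
    refine Finset.sum_congr rfl fun j _ => ?_
    rw [h1]
    ring
  rw [h2, norm_mul, norm_pow, norm_neg, norm_one, one_pow, one_mul]
  have h3 : ‖z‖ ≤ ‖(OmI (linf K) (N + 1)).act 1‖ * Rh.C := by
    calc ‖z‖ ≤ ‖(OmI (linf K) (N + 1)).act 1‖ * ‖Rh.ρ (a ∘ Fin.rev) x‖ :=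
          ContinuousLinearMap.le_opNorm _ _
      _ ≤ ‖(OmI (linf K) (N + 1)).act 1‖ * (Rh.C * 1 * 1) := by
        gcongr
        refine (Rh.bd _ _).trans ?_
        have := Rh.hC
        gcongr
        exact Finset.prod_le_one (fun i _ => norm_nonneg _) (fun i _ => ha _)
      _ = _ := by ring
  calc _ ≤ R * ‖z‖ := ev_bound (N + 1) p c v R hR0 hR z
    _ ≤ R * (‖(OmI (linf K) (N + 1)).act 1‖ * Rh.C) := by gcongr
    _ = _ := by ring

end Pool.Agent.Lib.MP_1bca0d_an
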