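import Mathlib

/-!
Iterated ultrafilter limits and their invariance under permutations of the order of the limits.
-/

open Filter Topology Function

namespace Pool.Agent.Lib.MP_1bca0d_an

/-- limit of a scalar function along an ultrafilter -/
noncomputable def ulim {J : Type*} (W : Ultrafilter J) (f : J → ℂ) : ℂ := limUnder (W : Filter J) f

section ulim

variable {J : Type*} (W : Ultrafilter J)

theorem tendsto_ulim (f : J → ℂ) (B : ℝ) (hf : ∀ I, ‖f I‖ ≤ B) :
    Tendsto f W (𝓝 (ulim W f)) := by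
  have hc : IsCompact (Metric.closedBall (0 : ℂ) B) := isCompact_closedBall _ _
  have h1 : ((W.map f : Ultrafilter ℂ) : Filter ℂ) ≤ 𝓟 (Metric.closedBall (0 : ℂ) B) := by
    rw [le_principal_iff]
    have h2 : f ⁻¹' (Metric.closedBall (0 : ℂ) B) = Set.univ := by
      ext I
      simpa using hf I
    change f ⁻¹' (Metric.closedBall (0 : ℂ) B) ∈ (W : Filter J)
    rw [h2]
    exact Filter.univ_mem
  obtain ⟨x, _, hx⟩ := hc.ultrafilter_le_nhds (W.map f) h1
  exact tendsto_nhds_limUnder ⟨x, hx⟩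

theorem ulim_eq {f : J → ℂ} {x : ℂ} (h : Tendsto f W (𝓝 x)) : ulim W f = x := h.limUnder_eq

theorem ulim_congr' {f g : J → ℂ} (h : ∀ᶠ I in (W : Filter J), f I = g I) :
    ulim W f = ulim W g := by
  unfold ulim limUnder
  rw [Filter.map_congr h]

theorem ulim_const (c : ℂ) : ulim W (fun _ : J => c) = c := ulim_eq W tendsto_const_nhds

theorem ulim_add {f g : J → ℂ} {B B' : ℝ} (hf : ∀ I, ‖f I‖ ≤ B) (hg : ∀ I, ‖g I‖ ≤ B') :
    ulim W (fun I => f I + g I) = ulim W f + ulim W g :=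
  ulim_eq W ((tendsto_ulim W f B hf).add (tendsto_ulim W g B' hg))

theorem ulim_sub {f g : J → ℂ} {B B' : ℝ} (hf : ∀ I, ‖f I‖ ≤ B) (hg : ∀ I, ‖g I‖ ≤ B') :
    ulim W (fun I => f I - g I) = ulim W f - ulim W g :=
  ulim_eq W ((tendsto_ulim W f B hf).sub (tendsto_ulim W g B' hg))

theorem ulim_const_mul {f : J → ℂ} {B : ℝ} (hf : ∀ I, ‖f I‖ ≤ B) (c : ℂ) :
    ulim W (fun I => c * f I) = c * ulim W f :=
  ulim_eq W ((tendsto_ulim W f B hf).const_mul c)

theorem ulim_sum {α : Type*} (S : Finset α) (f : α → J → ℂ) (B : ℝ)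
    (hf : ∀ a I, ‖f a I‖ ≤ B) :
    ulim W (fun I => ∑ a ∈ S, f a I) = ∑ a ∈ S, ulim W (f a) :=
  ulim_eq W (tendsto_finsetSum S fun a _ => tendsto_ulim W (f a) B (hf a))

theorem norm_ulim_le {f : J → ℂ} {B : ℝ} (hf : ∀ I, ‖f I‖ ≤ B) : ‖ulim W f‖ ≤ B :=
  le_of_tendsto (tendsto_ulim W f B hf).norm (Eventually.of_forall hf)

theorem norm_ulim_sub_le {f g : J → ℂ} {B B' : ℝ} (hf : ∀ I, ‖f I‖ ≤ B) (hg : ∀ I, ‖g I‖ ≤ B')
    {ε : ℝ} (h : ∀ᶠ I in (W : Filter J), ‖f I - g I‖ ≤ ε) : ‖ulim W f - ulim W g‖ ≤ ε :=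
  le_of_tendsto ((tendsto_ulim W f B hf).sub (tendsto_ulim W g B' hg)).norm h

end ulim

/-- iterated limit in the variables of the list, outermost limit first -/
noncomputable def LimL {ι J : Type*} [DecidableEq ι] (W : Ultrafilter J) :
    List ι → ((ι → J) → ℂ) → (ι → J) → ℂ
  | [], F, k => F k
  | i :: l, F, k => ulim W (fun I => LimL W l F (update k i I))

section LimL

variable {ι J : Type*} [DecidableEq ι] (W : Ultrafilter J)

theorem norm_LimL_le (l : List ι) {F : (ι → J) → ℂ} {B : ℝ} (hF : ∀ k, ‖F k‖ ≤ B) :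
    ∀ k, ‖LimL W l F k‖ ≤ B := by
  induction l with
  | nil => exact hF
  | cons i l ih => exact fun k => norm_ulim_le W fun I => ih _

theorem LimL_add (l : List ι) {F G : (ι → J) → ℂ} {B B' : ℝ} (hF : ∀ k, ‖F k‖ ≤ B)
    (hG : ∀ k, ‖G k‖ ≤ B') :
    ∀ k, LimL W l (fun k => F k + G k) k = LimL W l F k + LimL W l G k := by
  induction l with
  | nil => exact fun k => rfl
  | cons i l ih =>
    intro k
    simp only [LimL]
    simp only [ih]
    exact ulim_add W (fun I => norm_LimL_le W l hF _) (fun I => norm_LimL_le W l hG _)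

theorem LimL_const_mul (l : List ι) {F : (ι → J) → ℂ} {B : ℝ} (hF : ∀ k, ‖F k‖ ≤ B) (c : ℂ) :
    ∀ k, LimL W l (fun k => c * F k) k = c * LimL W l F k := by
  induction l with
  | nil => exact fun k => rfl
  | cons i l ih =>
    intro k
    simp only [LimL]
    simp only [ih]
    exact ulim_const_mul W (fun I => norm_LimL_le W l hF _) c

theorem LimL_sum {α : Type*} (S : Finset α) (l : List ι) (F : α → (ι → J) → ℂ) (B : ℝ)
    (hF : ∀ a k, ‖F a k‖ ≤ B) :
    ∀ k, LimL W l (fun k => ∑ a ∈ S, F a k) k = ∑ a ∈ S, LimL W l (F a) k := by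
  induction l with
  | nil => exact fun k => rfl
  | cons i l ih =>
    intro k
    simp only [LimL]
    simp only [ih]
    exact ulim_sum W S _ B (fun a I => norm_LimL_le W l (hF a) _)

theorem LimL_append (l l' : List ι) (F : (ι → J) → ℂ) :
    ∀ k, LimL W (l ++ l') F k = LimL W l (LimL W l' F) k := by
  induction l with
  | nil => exact fun k => rfl
  | cons i l ih =>
    intro k
    simp only [List.cons_append, LimL]
    simp only [ih]

theorem LimL_congr (l : List ι) {F G : (ι → J) → ℂ} (h : ∀ k, F k = G k) :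
    ∀ k, LimL W l F k = LimL W l G k := by
  have : F = G := funext h
  rw [this]
  exact fun k => rfl

end LimL

/-- `M`-term ladders of intervals -/
def Ladder {M : ℕ} (L : Fin M → ℕ × ℕ) : Prop :=
  (∀ i, (L i).1 < (L i).2) ∧ ∀ i j, i < j → (L i).2 < (L j).1

/-- test bound for a matrix -/
def TestBd {M : ℕ} (μ : Fin M → Fin M → ℂ) (R : ℝ) : Prop :=
  ∀ x y : Fin M → ℂ, (∀ i, ‖x i‖ ≤ 1) → (∀ i, ‖y i‖ ≤ 1) →
    ‖∑ s, ∑ t, μ s t * x s * y t‖ ≤ R

/-- two-variable bound -/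
def VB2 {ι : Type*} [DecidableEq ι] (F : (ι → ℕ × ℕ) → ℂ) (C : ℝ) : Prop :=
  ∀ (i j : ι), i ≠ j → ∀ (k : ι → ℕ × ℕ) (M : ℕ) (L : Fin M → ℕ × ℕ), Ladder L →
    ∀ (μ : Fin M → Fin M → ℂ) (R : ℝ), TestBd μ R →
    ‖∑ s, ∑ t, μ s t * F (update (update k i (L s)) j (L t))‖ ≤ C * R

/-! ### The dyadic test functional -/

/-- evaluation of a matrix -/
noncomputable def entry (s t : ℕ) : (ℕ → ℕ → ℂ) →ₗ[ℂ] ℂ where
  toFun G := G s t
  map_add' _ _ := rfl
  map_smul' _ _ := rfl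

theorem entry_apply (s t : ℕ) (G : ℕ → ℕ → ℂ) : entry s t G = G s t := rfl

/-- the dyadic test functional -/
noncomputable def Tf : ℕ → ℕ → (ℕ → ℕ → ℂ) →ₗ[ℂ] ℂ
  | 0, _ => 0
  | m + 1, o => Tf m o + Tf m (o + 2 ^ m) + ((1 : ℂ) / 2 ^ (m + 1)) •
      ∑ i ∈ Finset.range (2 ^ m), ∑ j ∈ Finset.range (2 ^ m),
        (entry (o + i) (o + 2 ^ m + j) - entry (o + 2 ^ m + i) (o + j))

theorem Tf_zero (o : ℕ) (G : ℕ → ℕ → ℂ) : Tf 0 o G = 0 := rfl

theorem Tf_succ (m o : ℕ) (G : ℕ → ℕ → ℂ) :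
    Tf (m + 1) o G = Tf m o G + Tf m (o + 2 ^ m) G + (1 / 2 ^ (m + 1)) *
      ∑ i ∈ Finset.range (2 ^ m), ∑ j ∈ Finset.range (2 ^ m),
        (G (o + i) (o + 2 ^ m + j) - G (o + 2 ^ m + i) (o + j)) := by
  rw [Tf]
  simp only [LinearMap.add_apply, LinearMap.smul_apply, LinearMap.sum_apply, LinearMap.sub_apply,
    entry_apply, smul_eq_mul]

theorem Tf_congr (m : ℕ) : ∀ (o : ℕ) (G G' : ℕ → ℕ → ℂ),
    (∀ s t, s < o + 2 ^ m → t < o + 2 ^ m → G s t = G' s t) → Tf m o G = Tf m o G' := by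
  induction m with
  | zero => intro o G G' _; rfl
  | succ m ih =>
    intro o G G' h
    have h2 : 2 ^ (m + 1) = 2 ^ m + 2 ^ m := by ring
    have h3 : 0 < 2 ^ m := Nat.two_pow_pos m
    rw [Tf_succ, Tf_succ, ih o G G' (fun s t hs ht => h s t (by omega) (by omega)),
      ih (o + 2 ^ m) G G' (fun s t hs ht => h s t (by omega) (by omega))]
    congr 2
    refine Finset.sum_congr rfl fun i hi => Finset.sum_congr rfl fun j hj => ?_
    rw [Finset.mem_range] at hi hj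
    rw [h _ _ (by omega) (by omega), h _ _ (by omega) (by omega)]

/-- block sums -/
noncomputable def bs (m o : ℕ) (x : ℕ → ℂ) : ℂ := ∑ i ∈ Finset.range (2 ^ m), x (o + i)

theorem bs_succ (m o : ℕ) (x : ℕ → ℂ) : bs (m + 1) o x = bs m o x + bs m (o + 2 ^ m) x := by
  unfold bs
  have h2 : 2 ^ (m + 1) = 2 ^ m + 2 ^ m := by ring
  rw [h2, Finset.sum_range_add]
  simp only [add_assoc]

theorem norm_bs_le (m o : ℕ) (x : ℕ → ℂ) (hx : ∀ i, ‖x i‖ ≤ 1) : ‖bs m o x‖ ≤ 2 ^ m := by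
  unfold bs
  refine (norm_sum_le _ _).trans ?_
  refine (Finset.sum_le_card_nsmul _ _ 1 fun i _ => hx _).trans ?_
  simp

/-- the Haar energy -/
noncomputable def En : ℕ → ℕ → (ℕ → ℂ) → ℝ
  | 0, _, _ => 0
  | m + 1, o, x => En m o x + En m (o + 2 ^ m) x +
      ‖bs m o x - bs m (o + 2 ^ m) x‖ ^ 2 / 2 ^ (m + 1)

theorem En_eq (m : ℕ) : ∀ (o : ℕ) (x : ℕ → ℂ),
    En m o x + ‖bs m o x‖ ^ 2 / 2 ^ m = ∑ i ∈ Finset.range (2 ^ m), ‖x (o + i)‖ ^ 2 := by
  induction m with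
  | zero => intro o x; simp [En, bs]
  | succ m ih =>
    intro o x
    have h2 : 2 ^ (m + 1) = 2 ^ m + 2 ^ m := by ring
    rw [h2, Finset.sum_range_add]
    have h3 := ih o x
    have h4 := ih (o + 2 ^ m) x
    simp only [add_assoc] at h4
    rw [← h3, ← h4, En, bs_succ]
    have h5 := parallelogram_law_with_norm ℂ (bs m o x) (bs m (o + 2 ^ m) x)
    have h6 : ‖bs m o x - bs m (o + 2 ^ m) x‖ ^ 2 =
      2 * (‖bs m o x‖ ^ 2 + ‖bs m (o + 2 ^ m) x‖ ^ 2) - ‖bs m o x + bs m (o + 2 ^ m) x‖ ^ 2 := by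
      linarith
    rw [h6, pow_succ]
    field_simp
    ring

theorem En_le (m o : ℕ) (x : ℕ → ℂ) (hx : ∀ i, ‖x i‖ ≤ 1) : En m o x ≤ 2 ^ m := by
  have h1 := En_eq m o x
  have h2 : ∑ i ∈ Finset.range (2 ^ m), ‖x (o + i)‖ ^ 2 ≤ 2 ^ m := by
    refine (Finset.sum_le_card_nsmul _ _ 1 fun i _ => ?_).trans ?_
    · exact pow_le_one₀ (norm_nonneg _) (hx _)
    · simp
  have h3 : 0 ≤ ‖bs m o x‖ ^ 2 / 2 ^ m := by positivity
  linarith

theorem norm_Tf_le (m : ℕ) (θ : ℝ) (hθ : 0 < θ) (x y : ℕ → ℂ) (hx : ∀ i, ‖x i‖ ≤ 1)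
    (hy : ∀ i, ‖y i‖ ≤ 1) : ∀ o : ℕ,
    ‖Tf m o (fun s t => x s * y t)‖ ≤ (2 * θ * (m * 2 ^ m) + (En m o x + En m o y) / θ) / 4 := by
  induction m with
  | zero => intro o; simp [Tf_zero, En]
  | succ m ih =>
    intro o
    rw [Tf_succ]
    have h1 := ih o
    have h2 := ih (o + 2 ^ m)
    set xl := bs m o x with hxl
    set xr := bs m (o + 2 ^ m) x with hxr
    set yl := bs m o y with hyl
    set yr := bs m (o + 2 ^ m) y with hyr
    have h3 : ∑ i ∈ Finset.range (2 ^ m), ∑ j ∈ Finset.range (2 ^ m),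
        (x (o + i) * y (o + 2 ^ m + j) - x (o + 2 ^ m + i) * y (o + j)) =
        ((xl - xr) * (yl + yr) - (xl + xr) * (yl - yr)) / 2 := by
      have e1 : ∑ i ∈ Finset.range (2 ^ m), ∑ j ∈ Finset.range (2 ^ m),
        (x (o + i) * y (o + 2 ^ m + j) - x (o + 2 ^ m + i) * y (o + j)) = xl * yr - xr * yl := by
        simp only [Finset.sum_sub_distrib]
        rw [hxl, hxr, hyl, hyr]
        unfold bs
        rw [Finset.sum_mul_sum, Finset.sum_mul_sum]
      rw [e1]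
      ring
    have h4 : ‖((xl - xr) * (yl + yr) - (xl + xr) * (yl - yr)) / 2‖ ≤
        (‖xl - xr‖ * 2 ^ (m + 1) + 2 ^ (m + 1) * ‖yl - yr‖) / 2 := by
      rw [norm_div, Complex.norm_ofNat]
      gcongr
      refine (norm_sub_le _ _).trans ?_
      rw [norm_mul, norm_mul]
      have e1 : ‖yl + yr‖ ≤ 2 ^ (m + 1) := by
        rw [hyl, hyr, ← bs_succ]
        exact norm_bs_le _ _ _ hy
      have e2 : ‖xl + xr‖ ≤ 2 ^ (m + 1) := by
        rw [hxl, hxr, ← bs_succ]
        exact norm_bs_le _ _ _ hx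
      gcongr
    have amgm : ∀ s : ℝ, s ≤ (θ * 2 ^ (m + 1) + s ^ 2 / 2 ^ (m + 1) / θ) / 2 := by
      intro s
      have hp : (0 : ℝ) < 2 ^ (m + 1) := by positivity
      have h5 : 0 ≤ (θ * 2 ^ (m + 1) - s) ^ 2 / (2 ^ (m + 1) * θ) := by positivity
      have h6 : (θ * 2 ^ (m + 1) - s) ^ 2 / (2 ^ (m + 1) * θ) =
        θ * 2 ^ (m + 1) + s ^ 2 / 2 ^ (m + 1) / θ - 2 * s := by
        field_simp
        ring
      linarith
    have h7 := amgm ‖xl - xr‖
    have h8 := amgm ‖yl - yr‖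
    have h9 : ‖(1 / 2 ^ (m + 1) : ℂ) * ∑ i ∈ Finset.range (2 ^ m), ∑ j ∈ Finset.range (2 ^ m),
        (x (o + i) * y (o + 2 ^ m + j) - x (o + 2 ^ m + i) * y (o + j))‖ ≤
        (‖xl - xr‖ + ‖yl - yr‖) / 2 := by
      rw [norm_mul, h3]
      have e1 : ‖(1 / 2 ^ (m + 1) : ℂ)‖ = 1 / 2 ^ (m + 1) := by
        rw [norm_div, norm_one, norm_pow, Complex.norm_ofNat]
      rw [e1]
      have hp : (0 : ℝ) < 2 ^ (m + 1) := by positivity
      calc _ ≤ 1 / 2 ^ (m + 1) * ((‖xl - xr‖ * 2 ^ (m + 1) + 2 ^ (m + 1) * ‖yl - yr‖) / 2) := by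
            gcongr
        _ = _ := by
          field_simp
    have h10 : En (m + 1) o x = En m o x + En m (o + 2 ^ m) x + ‖xl - xr‖ ^ 2 / 2 ^ (m + 1) := rfl
    have h11 : En (m + 1) o y = En m o y + En m (o + 2 ^ m) y + ‖yl - yr‖ ^ 2 / 2 ^ (m + 1) := rfl
    rw [h10, h11]
    refine (norm_add₃_le).trans ?_
    have h12 : (2 * θ * (((m + 1 : ℕ) : ℝ) * 2 ^ (m + 1)) +
        (En m o x + En m (o + 2 ^ m) x + ‖xl - xr‖ ^ 2 / 2 ^ (m + 1) +
          (En m o y + En m (o + 2 ^ m) y + ‖yl - yr‖ ^ 2 / 2 ^ (m + 1))) / θ) / 4 =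
        (2 * θ * (m * 2 ^ m) + (En m o x + En m o y) / θ) / 4 +
        (2 * θ * (m * 2 ^ m) + (En m (o + 2 ^ m) x + En m (o + 2 ^ m) y) / θ) / 4 +
        ((θ * 2 ^ (m + 1) + ‖xl - xr‖ ^ 2 / 2 ^ (m + 1) / θ) / 2 +
          (θ * 2 ^ (m + 1) + ‖yl - yr‖ ^ 2 / 2 ^ (m + 1) / θ) / 2) / 2 := by
      push_cast
      rw [pow_succ]
      field_simp
      ring
    rw [h12]
    linarith

theorem Tf_pairing (m : ℕ) (G : ℕ → ℕ → ℂ) (a b : ℂ) (ε : ℝ)
    (h1 : ∀ s t, s < t → ‖G s t - a‖ ≤ ε) (h2 : ∀ s t, t < s → ‖G s t - b‖ ≤ ε) : ∀ o,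
    ‖Tf m o G - (a - b) * (m * 2 ^ m / 4)‖ ≤ ε * (m * 2 ^ m / 2) := by
  induction m with
  | zero => intro o; simp [Tf_zero]
  | succ m ih =>
    intro o
    have h3 := ih o
    have h4 := ih (o + 2 ^ m)
    have h5 : ‖∑ i ∈ Finset.range (2 ^ m), ∑ j ∈ Finset.range (2 ^ m),
        ((G (o + i) (o + 2 ^ m + j) - G (o + 2 ^ m + i) (o + j)) - (a - b))‖ ≤
        (2 ^ m * (2 ^ m * (2 * ε))) := by
      refine (norm_sum_le _ _).trans ?_
      have e1 : ∀ i ∈ Finset.range (2 ^ m), ‖∑ j ∈ Finset.range (2 ^ m),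
          ((G (o + i) (o + 2 ^ m + j) - G (o + 2 ^ m + i) (o + j)) - (a - b))‖ ≤
          2 ^ m * (2 * ε) := by
        intro i hi
        refine (norm_sum_le _ _).trans ?_
        rw [Finset.mem_range] at hi
        have e2 : ∀ j ∈ Finset.range (2 ^ m),
          ‖(G (o + i) (o + 2 ^ m + j) - G (o + 2 ^ m + i) (o + j)) - (a - b)‖ ≤ 2 * ε := by
          intro j hj
          rw [Finset.mem_range] at hj
          have f1 := h1 (o + i) (o + 2 ^ m + j) (by omega)
          have f2 := h2 (o + 2 ^ m + i) (o + j) (by omega)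
          have f3 : (G (o + i) (o + 2 ^ m + j) - G (o + 2 ^ m + i) (o + j)) - (a - b) =
            (G (o + i) (o + 2 ^ m + j) - a) - (G (o + 2 ^ m + i) (o + j) - b) := by ring
          rw [f3]
          refine (norm_sub_le _ _).trans ?_
          linarith
        refine (Finset.sum_le_card_nsmul _ _ _ e2).trans ?_
        simp
      refine (Finset.sum_le_card_nsmul _ _ _ e1).trans ?_
      simp
    have h6 : Tf (m + 1) o G - (a - b) * (((m + 1 : ℕ) : ℂ) * 2 ^ (m + 1) / 4) =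
        (Tf m o G - (a - b) * (m * 2 ^ m / 4)) +
        (Tf m (o + 2 ^ m) G - (a - b) * (m * 2 ^ m / 4)) +
        (1 / 2 ^ (m + 1)) * ∑ i ∈ Finset.range (2 ^ m), ∑ j ∈ Finset.range (2 ^ m),
        ((G (o + i) (o + 2 ^ m + j) - G (o + 2 ^ m + i) (o + j)) - (a - b)) := by
      rw [Tf_succ]
      have e1 : ∑ i ∈ Finset.range (2 ^ m), ∑ j ∈ Finset.range (2 ^ m),
        ((G (o + i) (o + 2 ^ m + j) - G (o + 2 ^ m + i) (o + j)) - (a - b)) =
        ∑ i ∈ Finset.range (2 ^ m), ∑ j ∈ Finset.range (2 ^ m),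
        (G (o + i) (o + 2 ^ m + j) - G (o + 2 ^ m + i) (o + j)) - 2 ^ m * (2 ^ m * (a - b)) := by
        simp [Finset.sum_sub_distrib]
        ring
      rw [e1]
      push_cast
      rw [pow_succ]
      field_simp
      ring
    rw [h6]
    refine (norm_add₃_le).trans ?_
    have h7 : ‖(1 / 2 ^ (m + 1) : ℂ) * ∑ i ∈ Finset.range (2 ^ m), ∑ j ∈ Finset.range (2 ^ m),
        ((G (o + i) (o + 2 ^ m + j) - G (o + 2 ^ m + i) (o + j)) - (a - b))‖ ≤ ε * 2 ^ m := by
      rw [norm_mul]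
      have e1 : ‖(1 / 2 ^ (m + 1) : ℂ)‖ = 1 / 2 ^ (m + 1) := by
        rw [norm_div, norm_one, norm_pow, Complex.norm_ofNat]
      rw [e1]
      calc _ ≤ 1 / 2 ^ (m + 1) * (2 ^ m * (2 ^ m * (2 * ε))) := by gcongr
        _ = _ := by
          rw [pow_succ]
          field_simp
    have h8 : ε * (((m + 1 : ℕ) : ℝ) * 2 ^ (m + 1) / 2) =
        ε * (m * 2 ^ m / 2) + ε * (m * 2 ^ m / 2) + ε * 2 ^ m := by
      push_cast
      rw [pow_succ]
      ring
    rw [h8]
    linarith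

/-- the matrix of the dyadic test functional -/
noncomputable def muT (m s t : ℕ) : ℂ := Tf m 0 (fun s' t' => if s' = s ∧ t' = t then 1 else 0)

theorem Tf_eq_sum (m : ℕ) (G : ℕ → ℕ → ℂ) :
    Tf m 0 G = ∑ s ∈ Finset.range (2 ^ m), ∑ t ∈ Finset.range (2 ^ m), muT m s t * G s t := by
  have h1 : Tf m 0 G = Tf m 0 (∑ s ∈ Finset.range (2 ^ m), ∑ t ∈ Finset.range (2 ^ m),
      G s t • (fun s' t' => if s' = s ∧ t' = t then (1 : ℂ) else 0)) := by
    apply Tf_congr
    intro s t hs ht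
    rw [zero_add] at hs ht
    simp only [Finset.sum_apply, Pi.smul_apply, smul_eq_mul, mul_ite, mul_one, mul_zero]
    rw [Finset.sum_eq_single s, Finset.sum_eq_single t]
    · simp
    · intro t' _ h
      rw [if_neg]
      rintro ⟨-, h2⟩
      exact h h2.symm
    · intro h
      exact absurd (Finset.mem_range.2 ht) h
    · intro s' _ h
      refine Finset.sum_eq_zero fun t' _ => ?_
      rw [if_neg]
      rintro ⟨h2, -⟩
      exact h h2.symm
    · intro h
      exact absurd (Finset.mem_range.2 hs) h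
  rw [h1]
  simp only [map_sum, map_smul, smul_eq_mul, muT]
  refine Finset.sum_congr rfl fun s _ => Finset.sum_congr rfl fun t _ => ?_
  ring

/-- the swap lemma for iterated limits -/
theorem swap_lemma (W : Ultrafilter (ℕ × ℕ))
    (h1 : ∀ᶠ I : ℕ × ℕ in (W : Filter (ℕ × ℕ)), I.1 < I.2)
    (h2 : ∀ N : ℕ, ∀ᶠ I : ℕ × ℕ in (W : Filter (ℕ × ℕ)), N < I.1)
    (F : ℕ × ℕ → ℕ × ℕ → ℂ) (B C : ℝ) (hB : ∀ I I', ‖F I I'‖ ≤ B)
    (hF : ∀ (M : ℕ) (L : Fin M → ℕ × ℕ), Ladder L →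
      ∀ (μ : Fin M → Fin M → ℂ) (R : ℝ), TestBd μ R →
      ‖∑ s, ∑ t, μ s t * F (L s) (L t)‖ ≤ C * R) :
    ulim W (fun I => ulim W (fun I' => F I I')) = ulim W (fun I' => ulim W (fun I => F I I')) := by
  set a := ulim W (fun I => ulim W (fun I' => F I I')) with ha
  set b := ulim W (fun I' => ulim W (fun I => F I I')) with hb
  have key : ∀ ε > 0, ∀ n : ℕ, 0 < n → ‖a - b‖ ≤ 4 * C / n + 2 * ε := by
    intro ε hε n hn
    -- the sequence
    obtain ⟨f, hfP, hfr⟩ := exists_seq_of_forall_finset_exists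
      (fun I : ℕ × ℕ => I.1 < I.2 ∧ ‖ulim W (fun I' => F I I') - a‖ < ε ∧
        ‖ulim W (fun I' => F I' I) - b‖ < ε)
      (fun I I' : ℕ × ℕ => I.2 < I'.1 ∧ ‖F I I' - a‖ < ε ∧ ‖F I' I - b‖ < ε) (by
        intro S hS
        have e1 : ∀ᶠ I' : ℕ × ℕ in (W : Filter (ℕ × ℕ)), ‖ulim W (fun I'' => F I' I'') - a‖ < ε := by
          have := tendsto_ulim W (fun I => ulim W (fun I' => F I I')) B
            (fun I => norm_ulim_le W (hB I))
          filter_upwards [this.eventually (Metric.ball_mem_nhds _ hε)] with I' hI'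
          exact mem_ball_iff_norm.1 hI'
        have e2 : ∀ᶠ I' : ℕ × ℕ in (W : Filter (ℕ × ℕ)), ‖ulim W (fun I'' => F I'' I') - b‖ < ε := by
          have := tendsto_ulim W (fun I' => ulim W (fun I => F I I')) B
            (fun I' => norm_ulim_le W (fun I => hB I I'))
          filter_upwards [this.eventually (Metric.ball_mem_nhds _ hε)] with I' hI'
          exact mem_ball_iff_norm.1 hI'
        have e3 : ∀ᶠ I' : ℕ × ℕ in (W : Filter (ℕ × ℕ)), ∀ I ∈ S,
            I.2 < I'.1 ∧ ‖F I I' - a‖ < ε ∧ ‖F I' I - b‖ < ε := by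
          rw [Filter.eventually_all_finset]
          intro I hI
          obtain ⟨-, hI1, hI2⟩ := hS I hI
          have f1 : ∀ᶠ I' : ℕ × ℕ in (W : Filter (ℕ × ℕ)), ‖F I I' - a‖ < ε := by
            have h3 := (tendsto_ulim W (fun I' => F I I') B (hB I)).sub_const a |>.norm
            exact h3.eventually_lt_const hI1
          have f2 : ∀ᶠ I' : ℕ × ℕ in (W : Filter (ℕ × ℕ)), ‖F I' I - b‖ < ε := by
            have h3 := (tendsto_ulim W (fun I' => F I' I) B (fun I' => hB I' I)).sub_const b |>.norm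
            exact h3.eventually_lt_const hI2
          filter_upwards [h2 I.2, f1, f2] with I' g1 g2 g3
          exact ⟨g1, g2, g3⟩
        obtain ⟨I', g1, g2, g3, g4⟩ := (h1.and (e1.and (e2.and e3))).exists
        exact ⟨I', ⟨g1, g2, g3⟩, g4⟩)
    -- the test functional
    set m := n ^ 2 with hm
    set M := 2 ^ m with hM
    have hladder : Ladder (fun i : Fin M => f i) :=
      ⟨fun i => (hfP i).1, fun i j hij => (hfr i j hij).1⟩
    have hpos : (0 : ℝ) < n := by exact_mod_cast hn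
    have htest : TestBd (fun s t : Fin M => muT m s t) (2 ^ m * n) := by
      intro x y hx hy
      let x' : ℕ → ℂ := fun i => if h : i < M then x ⟨i, h⟩ else 0
      let y' : ℕ → ℂ := fun i => if h : i < M then y ⟨i, h⟩ else 0
      have hx' : ∀ i, ‖x' i‖ ≤ 1 := by
        intro i
        simp only [x']
        split_ifs
        · exact hx _
        · simp
      have hy' : ∀ i, ‖y' i‖ ≤ 1 := by
        intro i
        simp only [y']
        split_ifs
        · exact hy _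
        · simp
      have e1 : ∑ s : Fin M, ∑ t : Fin M, muT m s t * x s * y t =
          Tf m 0 (fun s t => x' s * y' t) := by
        rw [Tf_eq_sum, ← Fin.sum_univ_eq_sum_range
          (fun s => ∑ t ∈ Finset.range (2 ^ m), muT m s t * (x' s * y' t)) M]
        refine Finset.sum_congr rfl fun s _ => ?_
        rw [← Fin.sum_univ_eq_sum_range (fun t => muT m s t * (x' s * y' t)) M]
        refine Finset.sum_congr rfl fun t _ => ?_
        simp only [x', y', Fin.is_lt, dif_pos, Fin.eta]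
        ring
      rw [e1]
      have hθ : (0 : ℝ) < 1 / n := by positivity
      refine (norm_Tf_le m (1 / n) hθ x' y' hx' hy' 0).trans ?_
      have e2 := En_le m 0 x' hx'
      have e3 := En_le m 0 y' hy'
      calc _ ≤ (2 * (1 / (n : ℝ)) * (m * 2 ^ m) + (2 ^ m + 2 ^ m) / (1 / n)) / 4 := by gcongr
        _ = 2 ^ m * n := by
          rw [hm]
          push_cast
          field_simp
          ring
    have h3 := hF M (fun i : Fin M => f i) hladder (fun s t : Fin M => muT m s t) (2 ^ m * n) htest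
    have h4 : ∑ s : Fin M, ∑ t : Fin M, muT m s t * F (f s) (f t) =
        Tf m 0 (fun s t => F (f s) (f t)) := by
      rw [Tf_eq_sum, ← Fin.sum_univ_eq_sum_range
          (fun s => ∑ t ∈ Finset.range (2 ^ m), muT m s t * F (f s) (f t)) M]
      refine Finset.sum_congr rfl fun s _ => ?_
      rw [← Fin.sum_univ_eq_sum_range (fun t => muT m s t * F (f s) (f t)) M]
    rw [h4] at h3
    have h5 := Tf_pairing m (fun s t => F (f s) (f t)) a b ε
      (fun s t hst => (hfr s t hst).2.1.le) (fun s t hst => (hfr t s hst).2.2.le) 0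
    have h6 : ‖(a - b) * ((m : ℂ) * 2 ^ m / 4)‖ ≤ C * (2 ^ m * n) + ε * (m * 2 ^ m / 2) := by
      have e1 : (a - b) * ((m : ℂ) * 2 ^ m / 4) = Tf m 0 (fun s t => F (f s) (f t)) -
        (Tf m 0 (fun s t => F (f s) (f t)) - (a - b) * ((m : ℂ) * 2 ^ m / 4)) := by ring
      rw [e1]
      exact (norm_sub_le _ _).trans (add_le_add h3 h5)
    have h7 : ‖(a - b) * ((m : ℂ) * 2 ^ m / 4)‖ = ‖a - b‖ * (m * 2 ^ m / 4) := by
      rw [norm_mul]
      congr 1
      rw [norm_div, norm_mul, norm_pow, Complex.norm_natCast, Complex.norm_ofNat, Complex.norm_ofNat]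
    rw [h7] at h6
    have hm' : (m : ℝ) = (n : ℝ) ^ 2 := by rw [hm]; push_cast; ring
    rw [hm'] at h6
    have hp2 : (0 : ℝ) < 2 ^ m := by positivity
    have h8 : (‖a - b‖ - (4 * C / n + 2 * ε)) * ((n : ℝ) ^ 2 * 2 ^ m / 4) ≤ 0 := by
      have e1 : (‖a - b‖ - (4 * C / n + 2 * ε)) * ((n : ℝ) ^ 2 * 2 ^ m / 4) =
        ‖a - b‖ * ((n : ℝ) ^ 2 * 2 ^ m / 4) - (C * (2 ^ m * n) + ε * ((n : ℝ) ^ 2 * 2 ^ m / 2)) := by
        field_simp
        ring
      rw [e1]
      linarith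
    by_contra hcon
    push Not at hcon
    have h9 : 0 < (‖a - b‖ - (4 * C / n + 2 * ε)) * ((n : ℝ) ^ 2 * 2 ^ m / 4) := by
      apply mul_pos
      · linarith
      · positivity
    linarith
  have h3 : ∀ ε > 0, ‖a - b‖ ≤ 2 * ε := by
    intro ε hε
    have h4 : Tendsto (fun n : ℕ => 4 * C / (n : ℝ) + 2 * ε) atTop (𝓝 (0 + 2 * ε)) :=
      (tendsto_const_div_atTop_nhds_zero_nat (4 * C)).add_const _
    rw [zero_add] at h4
    refine ge_of_tendsto h4 ?_
    filter_upwards [eventually_gt_atTop 0] with n hn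
    exact key ε hε n hn
  have h5 : ‖a - b‖ ≤ 0 := by
    refine le_of_forall_pos_le_add fun ε hε => ?_
    have := h3 (ε / 2) (by positivity)
    linarith
  exact sub_eq_zero.1 (norm_le_zero_iff.1 h5)

theorem VB2_LimL {ι : Type*} [DecidableEq ι] (W : Ultrafilter (ℕ × ℕ))
    (F : (ι → ℕ × ℕ) → ℂ) (B C : ℝ) (hB : ∀ k, ‖F k‖ ≤ B) (hF : VB2 F C)
    (l : List ι) (i j : ι) (hij : i ≠ j) (hi : i ∉ l) (hj : j ∉ l) :
    ∀ (k : ι → ℕ × ℕ) (M : ℕ) (L : Fin M → ℕ × ℕ), Ladder L →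
    ∀ (μ : Fin M → Fin M → ℂ) (R : ℝ), TestBd μ R →
    ‖∑ s, ∑ t, μ s t * LimL W l F (update (update k i (L s)) j (L t))‖ ≤ C * R := by
  induction l with
  | nil => exact hF i j hij
  | cons p l ih =>
    intro k M L hL μ R hμ
    rw [List.mem_cons, not_or] at hi hj
    have h1 : ∀ s t, μ s t * LimL W (p :: l) F (update (update k i (L s)) j (L t)) =
        ulim W (fun I => μ s t * LimL W l F (update (update (update k p I) i (L s)) j (L t))) := by
      intro s t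
      have e1 : ∀ I, update (update (update k i (L s)) j (L t)) p I =
          update (update (update k p I) i (L s)) j (L t) := by
        intro I
        rw [update_comm hj.1, update_comm hi.1]
      simp only [LimL, e1]
      rw [ulim_const_mul W (fun I => norm_LimL_le W l hB _)]
    simp only [h1]
    have hbd : ∃ B' : ℝ, ∀ s t I, ‖μ s t * LimL W l F
        (update (update (update k p I) i (L s)) j (L t))‖ ≤ B' := by
      obtain ⟨B₁, hB₁⟩ := (Set.finite_range fun q : Fin M × Fin M => ‖μ q.1 q.2‖).bddAbove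
      refine ⟨|B₁| * |B|, fun s t I => ?_⟩
      rw [norm_mul]
      gcongr
      · exact (hB₁ ⟨(s, t), rfl⟩).trans (le_abs_self _)
      · exact (norm_LimL_le W l hB _).trans (le_abs_self _)
    obtain ⟨B', hB'⟩ := hbd
    have hM : ∀ s, ∑ t, ulim W (fun I => μ s t * LimL W l F
        (update (update (update k p I) i (L s)) j (L t))) =
        ulim W (fun I => ∑ t, μ s t * LimL W l F
        (update (update (update k p I) i (L s)) j (L t))) := by
      intro s
      rw [ulim_sum W Finset.univ _ B' (fun t I => hB' s t I)]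
    simp only [hM]
    rw [← ulim_sum W Finset.univ (fun s I => ∑ t, μ s t * LimL W l F
        (update (update (update k p I) i (L s)) j (L t))) (M * B') (fun s I => ?_)]
    · refine norm_ulim_le W fun I => ?_
      exact ih hi.2 hj.2 (update k p I) M L hL μ R hμ
    · refine (norm_sum_le _ _).trans ?_
      refine (Finset.sum_le_card_nsmul _ _ _ fun t _ => hB' s t I).trans ?_
      simp

theorem LimL_perm {ι : Type*} [DecidableEq ι] (W : Ultrafilter (ℕ × ℕ))
    (h1 : ∀ᶠ I : ℕ × ℕ in (W : Filter (ℕ × ℕ)), I.1 < I.2)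
    (h2 : ∀ N : ℕ, ∀ᶠ I : ℕ × ℕ in (W : Filter (ℕ × ℕ)), N < I.1)
    (F : (ι → ℕ × ℕ) → ℂ) (B C : ℝ) (hB : ∀ k, ‖F k‖ ≤ B) (hF : VB2 F C)
    {l l' : List ι} (hl : l.Nodup) (h : l.Perm l') : ∀ (k : ι → ℕ × ℕ),
    LimL W l F k = LimL W l' F k := by
  induction h with
  | nil => exact fun k => rfl
  | cons x _ ih =>
    intro k
    simp only [LimL]
    simp only [ih hl.of_cons]
  | swap x y l =>
    intro k
    simp only [LimL]
    have hxy : y ≠ x := by
      rw [List.nodup_cons] at hl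
      intro h
      exact hl.1 (by rw [h]; exact List.mem_cons_self ..)
    have hyl : y ∉ l := by
      rw [List.nodup_cons] at hl
      intro h
      exact hl.1 (List.mem_cons_of_mem _ h)
    have hxl : x ∉ l := by
      rw [List.nodup_cons, List.nodup_cons] at hl
      exact hl.2.1
    have h3 := swap_lemma W h1 h2 (fun I I' => LimL W l F (update (update k y I) x I')) B C
      (fun I I' => norm_LimL_le W l hB _)
      (fun M L hL μ R hμ => VB2_LimL W F B C hB hF l y x hxy hyl hxl k M L hL μ R hμ)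
    rw [h3]
    simp only [update_comm hxy]
  | trans h₁ _ ih1 ih2 =>
    intro k
    rw [ih1 hl, ih2 (h₁.nodup hl)]

end Pool.Agent.Lib.MP_1bca0d_an
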