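import Pool.Agent.Lib.MP_1bca0d_an.RedB

/-!
The modules `Ω W = A ⊗ W`, canonical cocycles, evaluation of iterated primes and the orthogonality
lemma.
-/

open Topology Filter

set_option maxSynthPendingDepth 3

namespace Pool.Agent.Lib.MP_1bca0d_an

variable {A : Type} [NormedRing A] [NormedAlgebra ℂ A]

/-- the module `Ω W = A ⊗ W` with the action `a * (b ⊗ w) = ab ⊗ w - a ⊗ b w` -/
noncomputable def Om (W : LMod A) : LMod A where
  E := PT A W.E
  act := PT.lift ∘L
    ((ContinuousLinearMap.compL ℂ A A (W.E →L[ℂ] PT A W.E)) PT.mk ∘L (ContinuousLinearMap.mul ℂ A) -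
      (ContinuousLinearMap.compL ℂ A (W.E →L[ℂ] W.E) (W.E →L[ℂ] PT A W.E)).flip W.act ∘L
        (ContinuousLinearMap.compL ℂ W.E W.E (PT A W.E)) ∘L PT.mk)
  act_mul := by
    intro a c z
    have hmk : ∀ a b w, (PT.lift ∘L
      ((ContinuousLinearMap.compL ℂ A A (W.E →L[ℂ] PT A W.E)) PT.mk ∘L
        (ContinuousLinearMap.mul ℂ A) -
      (ContinuousLinearMap.compL ℂ A (W.E →L[ℂ] W.E) (W.E →L[ℂ] PT A W.E)).flip W.act ∘L
        (ContinuousLinearMap.compL ℂ W.E W.E (PT A W.E)) ∘L PT.mk) :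
          A →L[ℂ] PT A W.E →L[ℂ] PT A W.E) a (PT.mk b w) =
          PT.mk (a * b) w - PT.mk a (W.act b w) := by
      intro a b w
      exact PT.lift_mk _ b w
    generalize (PT.lift ∘L
      ((ContinuousLinearMap.compL ℂ A A (W.E →L[ℂ] PT A W.E)) PT.mk ∘L
        (ContinuousLinearMap.mul ℂ A) -
      (ContinuousLinearMap.compL ℂ A (W.E →L[ℂ] W.E) (W.E →L[ℂ] PT A W.E)).flip W.act ∘L
        (ContinuousLinearMap.compL ℂ W.E W.E (PT A W.E)) ∘L PT.mk) :
          A →L[ℂ] PT A W.E →L[ℂ] PT A W.E) = T at hmk ⊢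
    have h : T (a * c) = (T a) ∘L (T c) := by
      apply PT.ext
      intro b w
      rw [ContinuousLinearMap.comp_apply, hmk, hmk, map_sub, hmk, hmk, W.act_mul, mul_assoc]
      abel
    rw [h]
    rfl

theorem Om_act_mk (W : LMod A) (a b : A) (w : W.E) :
    (Om W).act a (PT.mk b w) = PT.mk (a * b) w - PT.mk a (W.act b w) :=
  PT.lift_mk (G := PT A W.E) _ b w

/-- the canonical map `W → (Ω W)'` -/
noncomputable def eta (W : LMod A) : W.E →L[ℂ] (prime (Om W)).E :=
  (pmk (Om W)) ∘L (PT.mk : A →L[ℂ] W.E →L[ℂ] PT A W.E).flip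

theorem pev_eta (W : LMod A) (w : W.E) (a : A) : pev (eta W w) a = PT.mk a w := rfl

theorem isHom_eta (W : LMod A) : IsHom W (prime (Om W)) (eta W) := by
  intro b w
  apply pev_ext (W := Om W)
  intro a
  rw [pev_act, pev_eta, pev_eta]
  have h1 : (Om W).act a (PT.mk b w) = PT.mk (a * b) w - PT.mk a (W.act b w) := Om_act_mk W a b w
  have h2 : pev (eta W w) b = PT.mk b w := rfl
  rw [h2, h1]
  change PT.mk a (W.act b w) = PT.mk (a * b) w - (PT.mk (a * b) w - PT.mk a (W.act b w))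
  abel

/-- multiplication `Ω W → W` -/
noncomputable def muL (W : LMod A) : (Om W).E →L[ℂ] W.E :=
  (PT.lift W.act : PT A W.E →L[ℂ] W.E)

theorem muL_mk (W : LMod A) (b : A) (w : W.E) : muL W (PT.mk b w) = W.act b w :=
  PT.lift_mk _ b w

theorem muL_act (W : LMod A) (a : A) (z : (Om W).E) : muL W ((Om W).act a z) = 0 := by
  have h : (muL W) ∘L ((Om W).act a) = 0 := by
    apply PT.ext
    intro b w
    change muL W ((Om W).act a (PT.mk b w)) = 0
    rw [Om_act_mk]
    have h2 : muL W (PT.mk (a * b) w - PT.mk a (W.act b w)) =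
        muL W (PT.mk (a * b) w) - muL W (PT.mk a (W.act b w)) := (muL W).map_sub _ _
    rw [h2, muL_mk, muL_mk, W.act_mul, sub_self]
  exact congrArg (fun f => f z) h

/-- pushing a map `W → W₁'` to the iterated primes -/
noncomputable def pushMap {W W₁ : LMod A} (f : W.E →L[ℂ] (prime W₁).E) :
    ∀ n, (iter W n).E →L[ℂ] (iter W₁ (n + 1)).E
  | 0 => f
  | n + 1 => primeMap (pushMap f n)

theorem isHom_pushMap {W W₁ : LMod A} (f : W.E →L[ℂ] (prime W₁).E) (hf : IsHom W (prime W₁) f) :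
    ∀ n, IsHom (iter W n) (iter W₁ (n + 1)) (pushMap f n)
  | 0 => hf
  | n + 1 => isHom_primeMap _ (isHom_pushMap f hf n)

/-- evaluation of an element of an iterated prime (outermost variable first) -/
noncomputable def evlL (W : LMod A) : ∀ n, (Fin n → A) → (iter W n).E →L[ℂ] W.E
  | 0, _ => ContinuousLinearMap.id ℂ W.E
  | n + 1, b => evlL W n (Fin.tail b) ∘L (pevL (iter W n)).flip (b 0)

theorem evlL_zero (W : LMod A) (b : Fin 0 → A) (ψ : W.E) : evlL W 0 b ψ = ψ := rfl

theorem evlL_succ (W : LMod A) (n : ℕ) (b : Fin (n + 1) → A) (ψ : (iter W (n + 1)).E) :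
    evlL W (n + 1) b ψ = evlL W n (Fin.tail b) (pev (W := iter W n) ψ (b 0)) := rfl

theorem evlL_pushMap {W W₁ : LMod A} (f : W.E →L[ℂ] (prime W₁).E) (n : ℕ) :
    ∀ (b : Fin (n + 1) → A) (ψ : (iter W n).E),
      evlL W₁ (n + 1) b (pushMap f n ψ) = pev (f (evlL W n (Fin.init b) ψ)) (b (Fin.last n)) := by
  induction n with
  | zero =>
    intro b ψ
    rfl
  | succ n ih =>
    intro b ψ
    rw [evlL_succ, evlL_succ]
    have h := ih (Fin.tail b) (pev (W := iter W n) ψ (b 0))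
    exact h

theorem evlL_iterMap {W W₁ : LMod A} (f : W.E →L[ℂ] W₁.E) (n : ℕ) :
    ∀ (b : Fin n → A) (ψ : (iter W n).E), evlL W₁ n b (iterMap f n ψ) = f (evlL W n b ψ) := by
  induction n with
  | zero =>
    intro b ψ
    rfl
  | succ n ih =>
    intro b ψ
    rw [evlL_succ, evlL_succ]
    exact ih (Fin.tail b) (pev (W := iter W n) ψ (b 0))

theorem norm_evlL_le (W : LMod A) (n : ℕ) :
    ∀ (b : Fin n → A) (ψ : (iter W n).E), ‖evlL W n b ψ‖ ≤ (∏ i, ‖b i‖) * ‖ψ‖ := by
  induction n with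
  | zero =>
    intro b ψ
    rw [evlL_zero]
    simp
    exact le_refl _
  | succ n ih =>
    intro b ψ
    rw [evlL_succ]
    have h1 : ‖pev (W := iter W n) ψ (b 0)‖ ≤ ‖ψ‖ * ‖b 0‖ :=
      ContinuousLinearMap.le_opNorm (E := A) (F := (iter W n).E) ψ (b 0)
    calc _ ≤ (∏ i, ‖Fin.tail b i‖) * ‖pev (W := iter W n) ψ (b 0)‖ := ih _ _
      _ ≤ (∏ i, ‖Fin.tail b i‖) * (‖ψ‖ * ‖b 0‖) := by gcongr
      _ = _ := by
        rw [Fin.prod_univ_succ]
        simp only [Fin.tail]
        ring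

theorem evlL_update (W : LMod A) (n : ℕ) :
    ∀ (b : Fin n → A) (i : Fin n) (ψ : (iter W n).E),
      ∃ f : A →L[ℂ] W.E, ∀ a, evlL W n (Function.update b i a) ψ = f a := by
  induction n with
  | zero =>
    intro b i
    exact i.elim0
  | succ n ih =>
    intro b i ψ
    refine Fin.cases ?_ (fun j => ?_) i
    · refine ⟨evlL W n (Fin.tail b) ∘L (pevL (iter W n) ψ), fun a => ?_⟩
      rw [evlL_succ]
      have h1 : Fin.tail (Function.update b 0 a) = Fin.tail b := by
        ext j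
        simp [Fin.tail]
      have h2 : Function.update b 0 a 0 = a := by simp
      rw [h1, h2]
      rfl
    · obtain ⟨f, hf⟩ := ih (Fin.tail b) j (pev (W := iter W n) ψ (b 0))
      refine ⟨f, fun a => ?_⟩
      rw [evlL_succ]
      have h1 : Fin.tail (Function.update b j.succ a) = Function.update (Fin.tail b) j a :=
        Fin.tail_update_succ b j a
      have h2 : Function.update b j.succ a 0 = b 0 := by
        rw [Function.update_of_ne (Fin.succ_ne_zero j).symm]
      rw [h1, h2, hf]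

/-- the orthogonality lemma -/
theorem evlL_act (W : LMod A) (r : ℕ) :
    ∀ (d : Fin (r + 1) → A) (_ : ∀ i : Fin r, d i.succ * d i.castSucc = 0) (ψ : (iter W r).E),
      evlL W r (Fin.tail d) ((iter W r).act (d 0) ψ) =
        (-1 : ℂ) ^ r • W.act (d (Fin.last r)) (evlL W r (Fin.init d) ψ) := by
  induction r with
  | zero =>
    intro d _ ψ
    simp only [pow_zero, one_smul]
    rfl
  | succ r ih =>
    intro d hd ψ
    rw [evlL_succ, evlL_succ]
    have h1 : pev (W := iter W r) ((iter W (r + 1)).act (d 0) ψ) (Fin.tail d 0) =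
        pev (W := iter W r) ψ (Fin.tail d 0 * d 0) -
          (iter W r).act (Fin.tail d 0) (pev (W := iter W r) ψ (d 0)) := rfl
    have h2 : Fin.tail d 0 * d 0 = 0 := hd 0
    have h3 : pev (W := iter W r) ψ (0 : A) = 0 := (pevL (iter W r) ψ).map_zero
    rw [h1, h2, h3, zero_sub, map_neg]
    rw [ih (Fin.tail d) (fun i => hd i.succ)]
    rw [pow_succ, mul_neg_one, neg_smul]
    rfl

end Pool.Agent.Lib.MP_1bca0d_an
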