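import Mathlib

/-!
Projective tensor product of Banach spaces, realised (isometrically) as the closed linear span of the
elementary tensors inside the dual of the space of bounded bilinear forms.
-/

open Topology Filter

set_option maxSynthPendingDepth 3

namespace Pool.Agent.Lib.MP_1bca0d_an

section PTdef

variable (E F : Type) [NormedAddCommGroup E] [NormedSpace ℂ E]
  [NormedAddCommGroup F] [NormedSpace ℂ F]

/-- The elementary tensor `e ⊗ f`, as the functional `φ ↦ φ e f` on bounded bilinear forms. -/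
noncomputable def elem : E →L[ℂ] F →L[ℂ] StrongDual ℂ (E →L[ℂ] F →L[ℂ] ℂ) :=
  ((ContinuousLinearMap.compL ℂ F (StrongDual ℂ (StrongDual ℂ F))
      (StrongDual ℂ (E →L[ℂ] F →L[ℂ] ℂ))).flip (ContinuousLinearMap.apply ℂ ℂ)) ∘L
    (ContinuousLinearMap.compL ℂ (E →L[ℂ] F →L[ℂ] ℂ) (F →L[ℂ] ℂ) ℂ).flip ∘L
    (ContinuousLinearMap.apply ℂ (F →L[ℂ] ℂ) : E →L[ℂ] (E →L[ℂ] F →L[ℂ] ℂ) →L[ℂ] (F →L[ℂ] ℂ))

@[simp] theorem elem_apply (e : E) (f : F) (φ : E →L[ℂ] F →L[ℂ] ℂ) :
    elem E F e f φ = φ e f := rfl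

/-- The closed linear span of the elementary tensors. -/
noncomputable def PTsub : Submodule ℂ (StrongDual ℂ (E →L[ℂ] F →L[ℂ] ℂ)) :=
  (Submodule.span ℂ (Set.range fun p : E × F => elem E F p.1 p.2)).topologicalClosure

/-- The projective tensor product of `E` and `F`: the closed linear span of the elementary tensors
`φ ↦ φ e f` in the dual space of the space of bounded bilinear forms on `E × F`. -/
def PT : Type := PTsub E F

noncomputable instance : NormedAddCommGroup (PT E F) :=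
  inferInstanceAs (NormedAddCommGroup (PTsub E F))

noncomputable instance : NormedSpace ℂ (PT E F) :=
  inferInstanceAs (NormedSpace ℂ (PTsub E F))

instance : CompleteSpace (PT E F) := by
  have : IsClosed (PTsub E F : Set (StrongDual ℂ (E →L[ℂ] F →L[ℂ] ℂ))) :=
    Submodule.isClosed_topologicalClosure _
  exact this.completeSpace_coe

/-- inclusion of the projective tensor product into the dual of the bilinear forms -/
noncomputable def PT.incl : PT E F →L[ℂ] StrongDual ℂ (E →L[ℂ] F →L[ℂ] ℂ) :=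
  (PTsub E F).subtypeL

theorem PT.norm_incl (z : PT E F) : ‖PT.incl E F z‖ = ‖z‖ := rfl

theorem elem_mem (e : E) (f : F) : elem E F e f ∈ PTsub E F :=
  Submodule.le_topologicalClosure _ (Submodule.subset_span ⟨(e, f), rfl⟩)

theorem norm_elem_le (e : E) (f : F) : ‖elem E F e f‖ ≤ ‖e‖ * ‖f‖ := by
  refine ContinuousLinearMap.opNorm_le_bound _ (by positivity) fun φ => ?_
  rw [elem_apply]
  calc ‖φ e f‖ ≤ ‖φ e‖ * ‖f‖ := (φ e).le_opNorm f
    _ ≤ ‖φ‖ * ‖e‖ * ‖f‖ := by gcongr; exact φ.le_opNorm e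
    _ = ‖e‖ * ‖f‖ * ‖φ‖ := by ring

end PTdef

variable {E F G : Type} [NormedAddCommGroup E] [NormedSpace ℂ E]
  [NormedAddCommGroup F] [NormedSpace ℂ F] [NormedAddCommGroup G] [NormedSpace ℂ G]

/-- The elementary tensor in the projective tensor product, as a bounded bilinear map. -/
noncomputable def PT.mk : E →L[ℂ] F →L[ℂ] PT E F :=
  LinearMap.mkContinuous₂
    (LinearMap.mk₂ ℂ (fun e f => (⟨elem E F e f, elem_mem E F e f⟩ : PTsub E F))
      (by intro m₁ m₂ n; apply Subtype.ext; simp; rfl)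
      (by intro c m n; apply Subtype.ext; simp; rfl)
      (by intro m n₁ n₂; apply Subtype.ext; simp; rfl)
      (by intro c m n; apply Subtype.ext; simp; rfl)) 1
    (by
      intro e f
      rw [one_mul]
      exact norm_elem_le E F e f)

theorem PT.incl_mk (e : E) (f : F) : PT.incl E F (PT.mk e f) = elem E F e f := rfl

@[simp] theorem PT.incl_mk_apply (e : E) (f : F) (φ : E →L[ℂ] F →L[ℂ] ℂ) :
    PT.incl E F (PT.mk e f) φ = φ e f := rfl

theorem PT.norm_mk_le (e : E) (f : F) : ‖(PT.mk e f : PT E F)‖ ≤ ‖e‖ * ‖f‖ :=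
  norm_elem_le E F e f

/-- induction principle: a closed property which is stable under sums and holds on elementary tensors -/
theorem PT.induction {p : PT E F → Prop} (hc : IsClosed {z | p z})
    (h0 : p 0) (hadd : ∀ x y, p x → p y → p (x + y)) (hmk : ∀ e f, p (PT.mk e f)) (z : PT E F) :
    p z := by
  have hsp : ∀ T (hT : T ∈ Submodule.span ℂ (Set.range fun p : E × F => elem E F p.1 p.2)),
      p (⟨T, Submodule.le_topologicalClosure _ hT⟩ : PTsub E F) := by
    intro T hT
    induction hT using Submodule.closure_induction with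
    | zero => exact h0
    | add x y hx hy h1 h2 => exact hadd _ _ h1 h2
    | smul_mem c x hx =>
      obtain ⟨⟨e, f⟩, rfl⟩ := hx
      have := hmk (c • e) f
      have h2 : (PT.mk (c • e) f : PT E F) = (⟨c • elem E F e f,
        Submodule.le_topologicalClosure _ (Submodule.smul_mem _ c (Submodule.subset_span ⟨(e, f), rfl⟩))⟩ :
          PTsub E F) := by
        apply Subtype.ext
        change elem E F (c • e) f = c • elem E F e f
        simp
      rw [h2] at this
      exact this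
  obtain ⟨T, hT⟩ := z
  have hT' : T ∈ closure (Submodule.span ℂ (Set.range fun p : E × F => elem E F p.1 p.2) :
      Set (StrongDual ℂ (E →L[ℂ] F →L[ℂ] ℂ))) := hT
  obtain ⟨u, hu, hlim⟩ := mem_closure_iff_seq_limit.1 hT'
  have hlim2 : Tendsto (fun n => (⟨u n, Submodule.le_topologicalClosure _ (hu n)⟩ : PTsub E F)) atTop
      (𝓝 (⟨T, hT⟩ : PTsub E F)) := by
    rw [tendsto_subtype_rng]
    exact hlim
  exact hc.mem_of_tendsto hlim2 (Eventually.of_forall fun n => hsp _ (hu n))

theorem PT.ext {f g : PT E F →L[ℂ] G} (h : ∀ e f', f (PT.mk e f') = g (PT.mk e f')) : f = g := by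
  ext z
  refine PT.induction (p := fun z => f z = g z) (isClosed_eq f.continuous g.continuous) (by simp)
    (fun x y hx hy => by rw [map_add, map_add, hx, hy]) h z

/-- the norm of the projective tensor product is determined by the bounded bilinear forms -/
theorem PT.norm_le_of (z : PT E F) (R : ℝ) (hR : 0 ≤ R)
    (h : ∀ φ : E →L[ℂ] F →L[ℂ] ℂ, ‖PT.incl E F z φ‖ ≤ R * ‖φ‖) : ‖z‖ ≤ R :=
  ContinuousLinearMap.opNorm_le_bound (PT.incl E F z) hR h

/-- auxiliary: `T ↦ (g* ↦ T (g* ∘ φ))` -/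
noncomputable def liftDual : (E →L[ℂ] F →L[ℂ] G) →L[ℂ] PT E F →L[ℂ] StrongDual ℂ (StrongDual ℂ G) :=
  (((ContinuousLinearMap.compL ℂ (StrongDual ℂ G) (E →L[ℂ] F →L[ℂ] ℂ) ℂ).flip ∘L
    ((ContinuousLinearMap.compL ℂ E (F →L[ℂ] G) (F →L[ℂ] ℂ)) ∘L
      (ContinuousLinearMap.compL ℂ F G ℂ)).flip).flip ∘L (PT.incl E F)).flip

theorem liftDual_apply (φ : E →L[ℂ] F →L[ℂ] G) (z : PT E F) (g : StrongDual ℂ G) :
    liftDual φ z g = PT.incl E F z ((ContinuousLinearMap.compL ℂ F G ℂ g) ∘L φ) := rfl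

theorem liftDual_mk (φ : E →L[ℂ] F →L[ℂ] G) (e : E) (f : F) :
    liftDual φ (PT.mk e f) = NormedSpace.inclusionInDoubleDualLi ℂ (φ e f) := by
  ext g
  rfl

theorem norm_liftDual_le (φ : E →L[ℂ] F →L[ℂ] G) (z : PT E F) :
    ‖liftDual φ z‖ ≤ ‖φ‖ * ‖z‖ := by
  refine ContinuousLinearMap.opNorm_le_bound _ (by positivity) fun g => ?_
  rw [liftDual_apply]
  have h1 : ‖(ContinuousLinearMap.compL ℂ F G ℂ g) ∘L φ‖ ≤ ‖g‖ * ‖φ‖ := by
    refine ContinuousLinearMap.opNorm_le_bound _ (by positivity) fun e => ?_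
    refine ContinuousLinearMap.opNorm_le_bound _ (by positivity) fun f => ?_
    change ‖g (φ e f)‖ ≤ _
    calc ‖g (φ e f)‖ ≤ ‖g‖ * ‖φ e f‖ := g.le_opNorm _
      _ ≤ ‖g‖ * (‖φ‖ * ‖e‖ * ‖f‖) := by
        gcongr
        exact φ.le_opNorm₂ e f
      _ = _ := by ring
  calc _ ≤ ‖PT.incl E F z‖ * ‖(ContinuousLinearMap.compL ℂ F G ℂ g) ∘L φ‖ :=
        (PT.incl E F z).le_opNorm _
    _ ≤ ‖z‖ * (‖g‖ * ‖φ‖) := by
        gcongr
        exact (PT.norm_incl E F z).le
    _ = _ := by ring

variable [CompleteSpace G]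

theorem exists_lift (φ : E →L[ℂ] F →L[ℂ] G) (z : PT E F) :
    ∃ g : G, NormedSpace.inclusionInDoubleDualLi ℂ g = liftDual φ z := by
  have hcl : IsClosed (Set.range (NormedSpace.inclusionInDoubleDualLi ℂ (E := G))) :=
    (NormedSpace.inclusionInDoubleDualLi ℂ (E := G)).isometry.isClosedEmbedding.isClosed_range
  refine PT.induction (p := fun z => ∃ g : G, NormedSpace.inclusionInDoubleDualLi ℂ g = liftDual φ z)
    ?_ ⟨0, by simp⟩ ?_ ?_ z
  · exact hcl.preimage (liftDual φ).continuous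
  · rintro x y ⟨g, hg⟩ ⟨g', hg'⟩
    exact ⟨g + g', by rw [map_add, map_add, hg, hg']⟩
  · intro e f
    exact ⟨φ e f, (liftDual_mk φ e f).symm⟩

/-- auxiliary function underlying the lift -/
noncomputable def liftFun (φ : E →L[ℂ] F →L[ℂ] G) (z : PT E F) : G :=
  Classical.choose (exists_lift φ z)

theorem incl_liftFun (φ : E →L[ℂ] F →L[ℂ] G) (z : PT E F) :
    NormedSpace.inclusionInDoubleDualLi ℂ (liftFun φ z) = liftDual φ z :=
  Classical.choose_spec (exists_lift φ z)

/-- The bounded linear map `E ⊗ F → G` determined by a bounded bilinear map; depends linearly and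
continuously on the bilinear map. -/
noncomputable def PT.lift : (E →L[ℂ] F →L[ℂ] G) →L[ℂ] PT E F →L[ℂ] G :=
  LinearMap.mkContinuous₂
    (LinearMap.mk₂ ℂ liftFun
      (by
        intro φ ψ z
        apply (NormedSpace.inclusionInDoubleDualLi ℂ (E := G)).injective
        rw [map_add, incl_liftFun, incl_liftFun, incl_liftFun, map_add, add_apply])
      (by
        intro c φ z
        apply (NormedSpace.inclusionInDoubleDualLi ℂ (E := G)).injective
        rw [map_smul, incl_liftFun, incl_liftFun, map_smul, smul_apply])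
      (by
        intro φ z w
        apply (NormedSpace.inclusionInDoubleDualLi ℂ (E := G)).injective
        rw [map_add, incl_liftFun, incl_liftFun, incl_liftFun, map_add])
      (by
        intro c φ z
        apply (NormedSpace.inclusionInDoubleDualLi ℂ (E := G)).injective
        rw [map_smul, incl_liftFun, incl_liftFun, map_smul])) 1
    (by
      intro φ z
      rw [one_mul]
      change ‖liftFun φ z‖ ≤ _
      rw [← (NormedSpace.inclusionInDoubleDualLi ℂ (E := G)).norm_map, incl_liftFun]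
      exact norm_liftDual_le φ z)

@[simp] theorem PT.lift_mk (φ : E →L[ℂ] F →L[ℂ] G) (e : E) (f : F) :
    PT.lift φ (PT.mk e f) = φ e f := by
  apply (NormedSpace.inclusionInDoubleDualLi ℂ (E := G)).injective
  change NormedSpace.inclusionInDoubleDualLi ℂ (liftFun φ (PT.mk e f)) = _
  rw [incl_liftFun, liftDual_mk]

theorem PT.norm_lift_le (φ : E →L[ℂ] F →L[ℂ] G) (z : PT E F) :
    ‖PT.lift φ z‖ ≤ ‖φ‖ * ‖z‖ := by
  change ‖liftFun φ z‖ ≤ _
  rw [← (NormedSpace.inclusionInDoubleDualLi ℂ (E := G)).norm_map, incl_liftFun]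
  exact norm_liftDual_le φ z

/-- a bound for lifted bilinear maps -/
theorem PT.norm_lift_le_of (φ : E →L[ℂ] F →L[ℂ] G) (C : ℝ) (hC : 0 ≤ C)
    (h : ∀ e f, ‖φ e f‖ ≤ C * ‖e‖ * ‖f‖) (z : PT E F) : ‖PT.lift φ z‖ ≤ C * ‖z‖ := by
  refine (PT.norm_lift_le φ z).trans ?_
  gcongr
  exact ContinuousLinearMap.opNorm_le_bound₂ φ hC h

/-- functoriality of the projective tensor product -/
noncomputable def PT.map {E' F' : Type} [NormedAddCommGroup E'] [NormedSpace ℂ E']
    [NormedAddCommGroup F'] [NormedSpace ℂ F'] (f : E →L[ℂ] E') (g : F →L[ℂ] F') :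
    PT E F →L[ℂ] PT E' F' :=
  PT.lift (((ContinuousLinearMap.compL ℂ F F' (PT E' F')).flip g) ∘L PT.mk ∘L f)

@[simp] theorem PT.map_mk {E' F' : Type} [NormedAddCommGroup E'] [NormedSpace ℂ E']
    [NormedAddCommGroup F'] [NormedSpace ℂ F'] (f : E →L[ℂ] E') (g : F →L[ℂ] F') (e : E) (x : F) :
    PT.map f g (PT.mk e x) = PT.mk (f e) (g x) := by
  rw [PT.map, PT.lift_mk]
  rfl

end Pool.Agent.Lib.MP_1bca0d_an
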