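import Mathlib

/-! An abstract double complex argument. -/

namespace Pool.Agent.Lib.MP_1bca0d_an

theorem zigzag (D : ℕ → ℕ → Type) [∀ r j, AddCommGroup (D r j)]
    (δ : ∀ r j, D r j →+ D (r + 1) j) (e : ∀ r j, D r j →+ D r (j + 1))
    (q : ∀ r j, D r (j + 1) →+ D r j)
    (hee : ∀ r j x, e r (j + 1) (e r j x) = 0)
    (hδe : ∀ r j x, δ r (j + 1) (e r j x) = e (r + 1) j (δ r j x))
    (hδδ : ∀ r j x, δ (r + 1) j (δ r j x) = 0)
    (hq0 : ∀ r x, q r 0 (e r 0 x) = x)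
    (hq : ∀ r j x, e r j (q r j x) + q r (j + 1) (e r (j + 1) x) = x)
    (hex : ∀ r j (z : D (r + 1) (j + 1)), δ (r + 1) (j + 1) z = 0 →
      ∃ h : D r (j + 1), δ r (j + 1) h = z)
    (m : ℕ) (hm : ∀ r j, m + 1 < j → ∀ x : D r j, x = 0)
    (n : ℕ) (hn : m ≤ n) (S : D (n + 1) 0) (hS : δ (n + 1) 0 S = 0) :
    ∃ R : D n 0, δ n 0 R = S := by
  have key : ∀ r j, m ≤ r + j → ∀ z : D (r + 1) (j + 1), δ (r + 1) (j + 1) z = 0 →
      e (r + 1) (j + 1) z = 0 → ∃ h : D r (j + 1), δ r (j + 1) h = z ∧ e r (j + 1) h = 0 := by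
    intro r
    induction r with
    | zero =>
      intro j hj z hz _
      obtain ⟨h, hh⟩ := hex 0 j z hz
      exact ⟨h, hh, hm 0 (j + 1 + 1) (by omega) _⟩
    | succ r ih =>
      intro j hj z hz hez
      obtain ⟨h, hh⟩ := hex (r + 1) j z hz
      have h1 : δ (r + 1) (j + 1 + 1) (e (r + 1) (j + 1) h) = 0 := by rw [hδe, hh, hez]
      have h2 : e (r + 1) (j + 1 + 1) (e (r + 1) (j + 1) h) = 0 := hee _ _ _
      obtain ⟨h', hh', heh'⟩ := ih (j + 1) (by omega) _ h1 h2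
      refine ⟨h - δ r (j + 1) (q r (j + 1) h'), ?_, ?_⟩
      · rw [map_sub, hδδ, sub_zero, hh]
      · have h3 : e r (j + 1) (q r (j + 1) h') = h' := by
          have := hq r (j + 1) h'
          rw [heh', map_zero, add_zero] at this
          exact this
        rw [map_sub, ← hδe, h3, hh', sub_self]
  have h1 : δ (n + 1) 1 (e (n + 1) 0 S) = 0 := by rw [hδe, hS, map_zero]
  obtain ⟨h, hh, heh⟩ := key n 0 (by omega) _ h1 (hee _ _ _)
  refine ⟨q n 0 h, ?_⟩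
  have h3 : e n 0 (q n 0 h) = h := by
    have := hq n 0 h
    rw [heh, map_zero, add_zero] at this
    exact this
  have h4 : e (n + 1) 0 (δ n 0 (q n 0 h) - S) = 0 := by
    rw [map_sub, ← hδe, h3, hh, sub_self]
  have h5 := hq0 (n + 1) (δ n 0 (q n 0 h) - S)
  rw [h4, map_zero] at h5
  exact (sub_eq_zero.1 h5.symm)

end Pool.Agent.Lib.MP_1bca0d_an
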