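import Pool.Agent.Lib.MP_1bca0d_an.Defs
import Pool.Agent.Lib.MP_1bca0d_an.Zigzag

/-!
The prime functor `W ↦ W' = B(A, W)` with the action `(b * ψ)(a) = ψ(ab) - a * ψ(b)`, its iterates and
the coboundary `δ : B(E, W) → B(E, W')`.
-/

open Topology Filter

set_option maxSynthPendingDepth 3

namespace Pool.Agent.Lib.MP_1bca0d_an

variable {A : Type} [NormedRing A] [NormedAlgebra ℂ A]

/-- the module `W' = B(A, W)` -/
noncomputable def prime (W : LMod A) : LMod A where
  E := A →L[ℂ] W.E
  act := (ContinuousLinearMap.compL ℂ A A W.E).flip ∘L (ContinuousLinearMap.mul ℂ A).flip -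
    (ContinuousLinearMap.compL ℂ (A →L[ℂ] W.E) W.E (A →L[ℂ] W.E) W.act.flip) ∘L
      (ContinuousLinearMap.apply ℂ W.E)
  act_mul := by
    intro a b ψ
    ext c
    change ψ (c * (a * b)) - W.act c (ψ (a * b)) =
      (ψ (c * a * b) - W.act (c * a) (ψ b)) - W.act c (ψ (a * b) - W.act a (ψ b))
    rw [W.act_mul, map_sub, mul_assoc]
    abel

/-- evaluation of an element of `W'` -/
noncomputable def pev {W : LMod A} (ψ : (prime W).E) (a : A) : W.E :=
  (show A →L[ℂ] W.E from ψ) a

/-- evaluation of elements of `W'`, as a bounded bilinear map -/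
noncomputable def pevL (W : LMod A) : (prime W).E →L[ℂ] A →L[ℂ] W.E :=
  ContinuousLinearMap.id ℂ (A →L[ℂ] W.E)

theorem pevL_apply {W : LMod A} (ψ : (prime W).E) (a : A) : pevL W ψ a = pev ψ a := rfl

/-- construct an element of `W'` -/
noncomputable def pmk (W : LMod A) : (A →L[ℂ] W.E) →L[ℂ] (prime W).E :=
  ContinuousLinearMap.id ℂ (A →L[ℂ] W.E)

@[simp] theorem pev_pmk {W : LMod A} (f : A →L[ℂ] W.E) (a : A) : pev (pmk W f) a = f a := rfl

theorem pev_ext {W : LMod A} {ψ χ : (prime W).E} (h : ∀ a, pev ψ a = pev χ a) : ψ = χ :=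
  ContinuousLinearMap.ext (M₁ := A) (M₂ := W.E) h

@[simp] theorem pev_add {W : LMod A} (ψ χ : (prime W).E) (a : A) :
    pev (ψ + χ) a = pev ψ a + pev χ a := rfl

@[simp] theorem pev_sub {W : LMod A} (ψ χ : (prime W).E) (a : A) :
    pev (ψ - χ) a = pev ψ a - pev χ a := rfl

@[simp] theorem pev_neg {W : LMod A} (ψ : (prime W).E) (a : A) :
    pev (-ψ) a = -pev ψ a := rfl

@[simp] theorem pev_zero {W : LMod A} (a : A) :
    pev (0 : (prime W).E) a = 0 := rfl

@[simp] theorem pev_smul {W : LMod A} (c : ℂ) (ψ : (prime W).E) (a : A) :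
    pev (c • ψ) a = c • pev ψ a := rfl

theorem pev_add_right {W : LMod A} (ψ : (prime W).E) (a b : A) :
    pev ψ (a + b) = pev ψ a + pev ψ b := (pevL W ψ).map_add a b

theorem pev_smul_right {W : LMod A} (ψ : (prime W).E) (c : ℂ) (a : A) :
    pev ψ (c • a) = c • pev ψ a := (pevL W ψ).map_smul c a

@[simp] theorem pev_act {W : LMod A} (b : A) (ψ : (prime W).E) (a : A) :
    pev ((prime W).act b ψ) a = pev ψ (a * b) - W.act a (pev ψ b) := rfl

/-- the iterates of the prime functor -/
noncomputable def iter (W : LMod A) : ℕ → LMod A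
  | 0 => W
  | r + 1 => prime (iter W r)

/-- The coboundary `δ : B(X, W) → B(X, W')`, `(δ S)(x)(a) = a S(x) - S(a x)`. -/
noncomputable def delta (X W : LMod A) : (X.E →L[ℂ] W.E) →+ (X.E →L[ℂ] (prime W).E) where
  toFun S := (pmk W) ∘L (W.act.flip ∘L S - (ContinuousLinearMap.compL ℂ A X.E W.E S) ∘L X.act.flip)
  map_zero' := by
    ext x
    apply pev_ext
    intro a
    change W.act a 0 - 0 = 0
    simp
  map_add' S T := by
    ext x
    apply pev_ext
    intro a
    change W.act a (S x + T x) - (S (X.act a x) + T (X.act a x)) =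
      (W.act a (S x) - S (X.act a x)) + (W.act a (T x) - T (X.act a x))
    rw [map_add]
    abel

@[simp] theorem pev_delta (X W : LMod A) (S : X.E →L[ℂ] W.E) (x : X.E) (a : A) :
    pev (delta X W S x) a = W.act a (S x) - S (X.act a x) := rfl

theorem delta_eq_zero_iff (X W : LMod A) (S : X.E →L[ℂ] W.E) :
    delta X W S = 0 ↔ IsHom X W S := by
  constructor
  · intro h a x
    have h1 : pev (delta X W S x) a = 0 := by rw [h]; rfl
    rw [pev_delta, sub_eq_zero] at h1
    exact h1.symm
  · intro h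
    ext x
    apply pev_ext
    intro a
    rw [pev_delta, h a x, sub_self]
    rfl

theorem isHom_delta (X W : LMod A) (S : X.E →L[ℂ] W.E) : IsHom X (prime W) (delta X W S) := by
  intro b x
  apply pev_ext
  intro a
  rw [pev_act, pev_delta, pev_delta, pev_delta, map_sub, W.act_mul, X.act_mul]
  abel

theorem delta_delta (X W : LMod A) (S : X.E →L[ℂ] W.E) :
    delta X (prime W) (delta X W S) = 0 :=
  (delta_eq_zero_iff _ _ _).2 (isHom_delta X W S)

theorem delta_comp (X Y W : LMod A) (S : X.E →L[ℂ] W.E) (d : Y.E →L[ℂ] X.E) (hd : IsHom Y X d) :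
    delta Y W (S ∘L d) = (delta X W S) ∘L d := by
  ext x
  apply pev_ext
  intro a
  rw [pev_delta, ContinuousLinearMap.comp_apply, ContinuousLinearMap.comp_apply,
    ContinuousLinearMap.comp_apply, pev_delta, hd a x]

/-- functoriality of the prime construction -/
noncomputable def primeMap {W V : LMod A} (f : W.E →L[ℂ] V.E) : (prime W).E →L[ℂ] (prime V).E :=
  ContinuousLinearMap.compL ℂ A W.E V.E f

@[simp] theorem pev_primeMap {W V : LMod A} (f : W.E →L[ℂ] V.E) (ψ : (prime W).E) (a : A) :
    pev (primeMap f ψ) a = f (pev ψ a) := rfl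

theorem isHom_primeMap {W V : LMod A} (f : W.E →L[ℂ] V.E) (hf : IsHom W V f) :
    IsHom (prime W) (prime V) (primeMap f) := by
  intro b ψ
  apply pev_ext
  intro a
  rw [pev_primeMap, pev_act, pev_act, pev_primeMap, pev_primeMap, map_sub, hf]

theorem delta_postcomp (X W V : LMod A) (f : W.E →L[ℂ] V.E) (hf : IsHom W V f)
    (S : X.E →L[ℂ] W.E) : delta X V (f ∘L S) = (primeMap f) ∘L (delta X W S) := by
  ext x
  apply pev_ext
  intro a
  rw [pev_delta, ContinuousLinearMap.comp_apply, ContinuousLinearMap.comp_apply,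
    ContinuousLinearMap.comp_apply, pev_primeMap, pev_delta, map_sub, hf]

/-- exactness at projective modules, with equivariance -/
theorem exists_delta_of_section (P W : LMod A) (σ : P.E →L[ℂ] PT (Aplus A) P.E)
    (hσ : ∀ a x, σ (P.act a x) =
      PT.map (ContinuousLinearMap.mul ℂ (Aplus A) (inrL a)) (ContinuousLinearMap.id ℂ P.E) (σ x))
    (hσ2 : ∀ x, P.mult (σ x) = x)
    (S : P.E →L[ℂ] (prime W).E) (hS : IsHom P (prime W) S) :
    ∃ R : P.E →L[ℂ] W.E, delta P W R = S ∧
      ∀ (f : W.E →L[ℂ] W.E) (g : P.E →L[ℂ] P.E), (∀ p, S (g p) = primeMap f (S p)) →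
        (∀ p, σ (g p) = PT.map (ContinuousLinearMap.id ℂ (Aplus A)) g (σ p)) →
        ∀ p, R (g p) = f (R p) := by
  -- the bilinear map `(u, p) ↦ S p (u.snd)`
  let Φ : Aplus A →L[ℂ] P.E →L[ℂ] W.E := ((pevL W ∘L S).flip) ∘L sndL
  have hΦ : ∀ u p, Φ u p = pev (S p) (sndL u) := fun u p => rfl
  let L : PT (Aplus A) P.E →L[ℂ] W.E := PT.lift Φ
  have key : ∀ (a : A) (z : PT (Aplus A) P.E),
      L (PT.map (ContinuousLinearMap.mul ℂ (Aplus A) (inrL a)) (ContinuousLinearMap.id ℂ P.E) z) -
        W.act a (L z) = pev (S (P.mult z)) a := by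
    intro a
    have h1 : L ∘L (PT.map (ContinuousLinearMap.mul ℂ (Aplus A) (inrL a))
        (ContinuousLinearMap.id ℂ P.E)) - (W.act a) ∘L L =
        ((pevL W).flip a) ∘L S ∘L P.mult := by
      apply PT.ext
      intro u p
      change L (PT.map (ContinuousLinearMap.mul ℂ (Aplus A) (inrL a))
        (ContinuousLinearMap.id ℂ P.E) (PT.mk u p)) - W.act a (L (PT.mk u p)) =
          pev (S (P.mult (PT.mk u p))) a
      rw [PT.map_mk, PT.lift_mk, PT.lift_mk, LMod.mult, PT.lift_mk, hΦ, hΦ]
      have h2 : sndL ((ContinuousLinearMap.mul ℂ (Aplus A) (inrL a)) u) =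
          fstL u • a + a * sndL u := by
        change (Unitization.inr a * (WithLp.ofLp u)).snd = _
        rw [Unitization.snd_mul]
        simp only [Unitization.fst_inr, Unitization.snd_inr, zero_smul, zero_add]
        rfl
      have h3 : P.plus u p = fstL u • p + P.act (sndL u) p := rfl
      rw [h2, h3, map_add, map_smul, hS (sndL u) p, pev_add, pev_smul, pev_act, pev_add_right,
        pev_smul_right]
      change fstL u • pev (S p) a + pev (S p) (a * sndL u) - W.act a (pev (S p) (sndL u)) = _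
      abel
    intro z
    exact congrArg (fun f => f z) h1
  refine ⟨-(L ∘L σ), ?_, ?_⟩
  · ext p
    apply pev_ext
    intro a
    rw [pev_delta]
    have h4 := key a (σ p)
    rw [← hσ a p, hσ2 p] at h4
    rw [← h4]
    change W.act a (-(L (σ p))) - (-(L (σ (P.act a p)))) = _
    rw [map_neg]
    abel
  · intro f g h1 h2 p
    have h3 : L ∘L (PT.map (ContinuousLinearMap.id ℂ (Aplus A)) g) = f ∘L L := by
      apply PT.ext
      intro u p
      change L (PT.map (ContinuousLinearMap.id ℂ (Aplus A)) g (PT.mk u p)) = f (L (PT.mk u p))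
      rw [PT.map_mk, PT.lift_mk, PT.lift_mk, hΦ, hΦ, h1]
      rfl
    change -(L (σ (g p))) = f (-(L (σ p)))
    rw [h2, map_neg]
    have := congrArg (fun F => F (σ p)) h3
    exact congrArg Neg.neg this

/-- exactness at projective modules -/
theorem exists_delta_of_projective (P W : LMod A) (hP : P.Projective)
    (S : P.E →L[ℂ] (prime W).E) (hS : IsHom P (prime W) S) :
    ∃ R : P.E →L[ℂ] W.E, delta P W R = S := by
  obtain ⟨σ, hσ, hσ2⟩ := hP
  obtain ⟨R, hR, -⟩ := exists_delta_of_section P W σ hσ hσ2 S hS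
  exact ⟨R, hR⟩

/-- the modules of the augmented resolution -/
noncomputable def augM {X : LMod A} {m : ℕ} (Res : Resolution X m) : ℕ → LMod A
  | 0 => X
  | j + 1 => Res.P j

/-- the differentials of the augmented resolution -/
noncomputable def augD {X : LMod A} {m : ℕ} (Res : Resolution X m) :
    ∀ j, (augM Res (j + 1)).E →L[ℂ] (augM Res j).E
  | 0 => Res.ε
  | j + 1 => Res.d j

/-- the homotopy of the augmented resolution -/
noncomputable def augS {X : LMod A} {m : ℕ} (Res : Resolution X m) :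
    ∀ j, (augM Res j).E →L[ℂ] (augM Res (j + 1)).E
  | 0 => Res.s₀
  | j + 1 => Res.s j

/-- reduction of the homological dimension to the `δ`-equation -/
theorem exists_delta_of_resolution (X W : LMod A) (m : ℕ) (Res : Resolution X m) (n : ℕ)
    (hn : m ≤ n) (S : X.E →L[ℂ] (iter W (n + 1)).E) (hS : IsHom X (iter W (n + 1)) S) :
    ∃ R : X.E →L[ℂ] (iter W n).E, delta X (iter W n) R = S := by
  have hdd : ∀ j, IsHom (augM Res (j + 1)) (augM Res j) (augD Res j) := fun j =>
    match j with
    | 0 => Res.ε_hom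
    | j + 1 => Res.d_hom j
  have hdd2 : ∀ j x, augD Res j (augD Res (j + 1) x) = 0 := fun j =>
    match j with
    | 0 => Res.ε_d
    | j + 1 => Res.d_d j
  have hss0 : ∀ x, augD Res 0 (augS Res 0 x) = x := Res.ε_s₀
  have hss : ∀ j x, augS Res j (augD Res j x) + augD Res (j + 1) (augS Res (j + 1) x) = x :=
    fun j =>
    match j with
    | 0 => Res.s₀_ε
    | j + 1 => Res.s_d j
  have hproj : ∀ j, (augM Res (j + 1)).Projective := Res.proj
  have hzero : ∀ j, m + 1 < j → ∀ x : (augM Res j).E, x = 0 := by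
    intro j hj x
    obtain ⟨j, rfl⟩ : ∃ j', j = j' + 1 := ⟨j - 1, by omega⟩
    have := Res.zero j (by omega)
    exact this.elim _ _
  obtain ⟨R, hR⟩ := zigzag (fun r j => (augM Res j).E →L[ℂ] (iter W r).E)
    (fun r j => delta (augM Res j) (iter W r))
    (fun r j =>
      { toFun := fun h => h ∘L augD Res j
        map_zero' := rfl
        map_add' := fun h h' => rfl })
    (fun r j =>
      { toFun := fun h => h ∘L augS Res j
        map_zero' := rfl
        map_add' := fun h h' => rfl })
    (fun r j x => by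
      ext y
      change x (augD Res j (augD Res (j + 1) y)) = 0
      rw [hdd2, map_zero])
    (fun r j x => delta_comp _ _ _ _ _ (hdd j))
    (fun r j x => delta_delta _ _ _)
    (fun r x => by
      ext y
      change x (augD Res 0 (augS Res 0 y)) = x y
      rw [hss0])
    (fun r j x => by
      ext y
      change x (augS Res j (augD Res j y)) + x (augD Res (j + 1) (augS Res (j + 1) y)) = x y
      rw [← map_add, hss])
    (fun r j z hz => by
      exact exists_delta_of_projective _ _ (hproj j) z ((delta_eq_zero_iff _ _ _).1 hz))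
    m
    (fun r j hj x => by
      ext y
      rw [hzero j hj y, map_zero, map_zero])
    n hn S ((delta_eq_zero_iff _ _ _).2 hS)
  exact ⟨R, hR⟩

end Pool.Agent.Lib.MP_1bca0d_an
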