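import Pool.Agent.Lib.MP_1bca0d_an.Bimod

/-!
Reduction of the bidimension to a `δ`-equation for equivariant maps, second part.
-/

open Topology Filter

set_option maxSynthPendingDepth 3

namespace Pool.Agent.Lib.MP_1bca0d_an

variable {A : Type} [NormedRing A] [NormedAlgebra ℂ A]

/-- the right section of the regular bimodule -/
noncomputable def rsecRegular [CompleteSpace A] : RSec (regularB A) where
  τ := show A →L[ℂ] PT A (Aplus A) from (PT.mk (1 : A)) ∘L inrL
  right := fun c (x : A) => by
    have h1 : PT.map (ContinuousLinearMap.id ℂ A) (rmulP c) (PT.mk (1 : A) (inrL x)) =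
      PT.mk (1 : A) (rmulP c (inrL x)) := PT.map_mk _ _ _ _
    have h2 : inrL (x * c) = rmulP c (inrL x) := by
      change WithLp.toLp 1 (Unitization.inr (x * c)) =
        WithLp.toLp 1 (Unitization.inr x * Unitization.inr c)
      rw [Unitization.inr_mul]
    have h3 : PT.mk (1 : A) (inrL (x * c)) = PT.mk (1 : A) (rmulP c (inrL x)) := by rw [h2]
    exact h3.trans h1.symm
  sec := fun (x : A) => by
    have h : (regularB A).rmult (PT.mk (1 : A) (inrL x)) = (regularB A).plusR (inrL x) (1 : A) :=
      (regularB A).rmult_mk (1 : A) (inrL x)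
    have h2 : (0 : ℂ) • (1 : A) + (1 : A) * x = x := by simp
    exact h.trans h2

/-- the modules of the augmented resolution -/
noncomputable def augBM {X : BMod A} {m : ℕ} (Res : BResolution X m) : ℕ → BMod A
  | 0 => X
  | j + 1 => Res.P j

/-- the differentials of the augmented resolution -/
noncomputable def augBD {X : BMod A} {m : ℕ} (Res : BResolution X m) :
    ∀ j, (augBM Res (j + 1)).E →L[ℂ] (augBM Res j).E
  | 0 => Res.ε
  | j + 1 => Res.d j

/-- the homotopy of the augmented resolution -/
noncomputable def augBS {X : BMod A} {m : ℕ} (Res : BResolution X m) :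
    ∀ j, (augBM Res j).E →L[ℂ] (augBM Res (j + 1)).E
  | 0 => Res.s₀
  | j + 1 => Res.s j

/-- the right linear homotopy of the augmented resolution -/
noncomputable def augBS' {X : BMod A} {m : ℕ} (Res : BResolution X m)
    (t : ∀ j, RSec (augBM Res j)) :
    ∀ j, (augBM Res j).E →L[ℂ] (augBM Res (j + 1)).E
  | 0 => rlin _ (t 0) (augBS Res 0)
  | j + 1 => rlin _ (t (j + 1)) (augBS Res (j + 1) ∘L
      (ContinuousLinearMap.id ℂ _ - augBS' Res t j ∘L augBD Res j))

theorem augBS'_rlin {X : BMod A} {m : ℕ} (Res : BResolution X m)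
    (t : ∀ j, RSec (augBM Res j)) :
    ∀ j, RLin (augBM Res j) (augBM Res (j + 1)) (augBS' Res t j)
  | 0 => rlin_rlin _ _ _
  | j + 1 => rlin_rlin _ _ _

theorem augBD_hom {X : BMod A} {m : ℕ} (Res : BResolution X m) :
    ∀ j, IsBHom (augBM Res (j + 1)) (augBM Res j) (augBD Res j)
  | 0 => Res.ε_hom
  | j + 1 => Res.d_hom j

theorem augBD_augBD {X : BMod A} {m : ℕ} (Res : BResolution X m) :
    ∀ j x, augBD Res j (augBD Res (j + 1) x) = 0
  | 0 => Res.ε_d
  | j + 1 => Res.d_d j

theorem augBS_zero {X : BMod A} {m : ℕ} (Res : BResolution X m) (x : X.E) :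
    augBD Res 0 (augBS Res 0 x) = x := Res.ε_s₀ x

theorem augBS_succ {X : BMod A} {m : ℕ} (Res : BResolution X m) :
    ∀ j x, augBS Res j (augBD Res j x) + augBD Res (j + 1) (augBS Res (j + 1) x) = x
  | 0 => Res.s₀_ε
  | j + 1 => Res.s_d j

theorem augBS'_zero {X : BMod A} {m : ℕ} (Res : BResolution X m)
    (t : ∀ j, RSec (augBM Res j)) (x : (augBM Res 0).E) :
    augBD Res 0 (augBS' Res t 0 x) = x := by
  have h := comp_rlin _ _ (t 0) (augBS Res 0) (augBD Res 0) (augBD_hom Res 0).2 x
  have h2 : augBD Res 0 ∘L augBS Res 0 = ContinuousLinearMap.id ℂ (augBM Res 0).E := by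
    ext y
    exact augBS_zero Res y
  have h3 : rlin (augBM Res 0) (t 0) (ContinuousLinearMap.id ℂ (augBM Res 0).E) =
      ContinuousLinearMap.id ℂ (augBM Res 0).E :=
    rlin_of_rlin _ (t 0) _ (fun c x => rfl)
  rw [h2, h3] at h
  exact h

theorem augBD_three {X : BMod A} {m : ℕ} (Res : BResolution X m)
    (t : ∀ j, RSec (augBM Res j)) :
    ∀ j, (∀ x, augBD Res j (augBS' Res t j (augBD Res j x)) = augBD Res j x) ∧
      ∀ x, augBS' Res t j (augBD Res j x) + augBD Res (j + 1) (augBS' Res t (j + 1) x) = x := by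
  have step : ∀ j, (∀ x, augBD Res j (augBS' Res t j (augBD Res j x)) = augBD Res j x) →
      ∀ x, augBS' Res t j (augBD Res j x) + augBD Res (j + 1) (augBS' Res t (j + 1) x) = x := by
    intro j hj x
    have h := comp_rlin _ _ (t (j + 1)) (augBS Res (j + 1) ∘L
      (ContinuousLinearMap.id ℂ _ - augBS' Res t j ∘L augBD Res j)) (augBD Res (j + 1))
      (augBD_hom Res (j + 1)).2 x
    have h2 : augBD Res (j + 1) ∘L (augBS Res (j + 1) ∘L
        (ContinuousLinearMap.id ℂ _ - augBS' Res t j ∘L augBD Res j)) =
        ContinuousLinearMap.id ℂ _ - augBS' Res t j ∘L augBD Res j := by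
      ext y
      change augBD Res (j + 1) (augBS Res (j + 1) (y - augBS' Res t j (augBD Res j y))) =
        y - augBS' Res t j (augBD Res j y)
      have h5 := augBS_succ Res j (y - augBS' Res t j (augBD Res j y))
      rw [map_sub (augBD Res j), hj, sub_self, map_zero, zero_add] at h5
      exact h5
    have h3 : rlin _ (t (j + 1)) (ContinuousLinearMap.id ℂ _ - augBS' Res t j ∘L augBD Res j) =
        ContinuousLinearMap.id ℂ _ - augBS' Res t j ∘L augBD Res j := by
      apply rlin_of_rlin
      intro c y
      change (augBM Res (j + 1)).actR c y -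
        augBS' Res t j (augBD Res j ((augBM Res (j + 1)).actR c y)) =
        (augBM Res (j + 1)).actR c (y - augBS' Res t j (augBD Res j y))
      rw [(augBD_hom Res j).2, augBS'_rlin Res t j, map_sub]
    rw [h2, h3] at h
    have h6 : augBD Res (j + 1) (augBS' Res t (j + 1) x) =
        x - augBS' Res t j (augBD Res j x) := h
    rw [h6]
    abel
  intro j
  induction j with
  | zero =>
    have h0 : ∀ x, augBD Res 0 (augBS' Res t 0 (augBD Res 0 x)) = augBD Res 0 x :=
      fun x => augBS'_zero Res t (augBD Res 0 x)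
    exact ⟨h0, step 0 h0⟩
  | succ j ih =>
    have h0 : ∀ x, augBD Res (j + 1) (augBS' Res t (j + 1) (augBD Res (j + 1) x)) =
        augBD Res (j + 1) x := by
      intro x
      have := ih.2 (augBD Res (j + 1) x)
      rw [augBD_augBD, map_zero, zero_add] at this
      exact this
    exact ⟨h0, step (j + 1) h0⟩

section Eq

variable (V : LMod A) (ρ : A → V.E →L[ℂ] V.E)

/-- the right equivariant maps from a bimodule to an iterated prime -/
def Eqv (P : BMod A) (r : ℕ) : AddSubgroup (P.left.E →L[ℂ] (iter V r).E) where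
  carrier := {h | ∀ c x, h (P.actR c x) = iterMap (ρ c) r (h x)}
  zero_mem' := by
    intro c x
    change (0 : (iter V r).E) = iterMap (ρ c) r 0
    rw [map_zero]
  add_mem' := by
    intro f g hf hg c x
    change f (P.actR c x) + g (P.actR c x) = iterMap (ρ c) r (f x + g x)
    rw [map_add, hf, hg]
  neg_mem' := by
    intro f hf c x
    change -(f (P.actR c x)) = iterMap (ρ c) r (-(f x))
    rw [map_neg, hf]

theorem delta_mem_Eqv (hρ : ∀ c, IsHom V V (ρ c)) (P : BMod A) (r : ℕ)
    (h : P.left.E →L[ℂ] (iter V r).E) (hh : h ∈ Eqv V ρ P r) :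
    delta P.left (iter V r) h ∈ Eqv V ρ P (r + 1) := by
  intro c x
  apply pev_ext (W := iter V r)
  intro a
  change pev (delta P.left (iter V r) h (P.actR c x)) a =
    pev (primeMap (iterMap (ρ c) r) (delta P.left (iter V r) h x)) a
  rw [pev_primeMap, pev_delta, pev_delta, map_sub]
  have h1 : h (P.actR c x) = iterMap (ρ c) r (h x) := hh c x
  have h2 : P.left.act a (P.actR c x) = P.actR c (P.left.act a x) := P.actL_actR a c x
  have h3 : h (P.actR c (P.left.act a x)) = iterMap (ρ c) r (h (P.left.act a x)) := hh c _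
  rw [h1, h2, h3, isHom_iterMap (ρ c) (hρ c) r]

/-- reduction of the bidimension to an equivariant `δ`-equation -/
theorem exists_delta_of_bresolution (hρ : ∀ c, IsHom V V (ρ c)) (X : BMod A) (tX : RSec X)
    (m : ℕ) (Res : BResolution X m)
    (n : ℕ) (hn : m ≤ n) (S : X.left.E →L[ℂ] (iter V (n + 1)).E)
    (hS : IsHom X.left (iter V (n + 1)) S) (hSr : S ∈ Eqv V ρ X (n + 1)) :
    ∃ R : X.left.E →L[ℂ] (iter V n).E, delta X.left (iter V n) R = S ∧ R ∈ Eqv V ρ X n := by
  have hproj : ∀ j, (augBM Res (j + 1)).Projective := Res.proj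
  have hzero : ∀ j, m + 1 < j → ∀ x : (augBM Res j).E, x = 0 := by
    intro j hj x
    obtain ⟨j, rfl⟩ : ∃ j', j = j' + 1 := ⟨j - 1, by omega⟩
    have := Res.zero j (by omega)
    exact this.elim _ _
  let t : ∀ j, RSec (augBM Res j) := fun j =>
    match j with
    | 0 => tX
    | j + 1 => (exists_rsec _ (hproj j)).some
  obtain ⟨R, hR⟩ := zigzag (fun r j => Eqv V ρ (augBM Res j) r)
    (fun r j =>
      { toFun := fun h => ⟨delta (augBM Res j).left (iter V r) h.1,
          delta_mem_Eqv V ρ hρ _ r h.1 h.2⟩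
        map_zero' := Subtype.ext (map_zero _)
        map_add' := fun h h' => Subtype.ext (map_add _ _ _) })
    (fun r j =>
      { toFun := fun h => ⟨h.1 ∘L augBD Res j, fun c x => by
          have h1 := h.2 c (augBD Res j x)
          have h2 := (augBD_hom Res j).2 c x
          change h.1 (augBD Res j ((augBM Res (j + 1)).actR c x)) =
            iterMap (ρ c) r (h.1 (augBD Res j x))
          rw [h2]
          exact h1⟩
        map_zero' := Subtype.ext rfl
        map_add' := fun h h' => Subtype.ext rfl })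
    (fun r j =>
      { toFun := fun h => ⟨h.1 ∘L augBS' Res t j, fun c x => by
          have h1 := h.2 c (augBS' Res t j x)
          have h2 := augBS'_rlin Res t j c x
          change h.1 (augBS' Res t j ((augBM Res j).actR c x)) =
            iterMap (ρ c) r (h.1 (augBS' Res t j x))
          rw [h2]
          exact h1⟩
        map_zero' := Subtype.ext rfl
        map_add' := fun h h' => Subtype.ext rfl })
    (fun r j x => by
      apply Subtype.ext
      ext y
      change x.1 (augBD Res j (augBD Res (j + 1) y)) = 0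
      rw [augBD_augBD]
      exact map_zero x.1)
    (fun r j x => Subtype.ext (delta_comp _ _ _ _ _ (augBD_hom Res j).1))
    (fun r j x => Subtype.ext (delta_delta _ _ _))
    (fun r x => by
      apply Subtype.ext
      ext y
      change x.1 (augBD Res 0 (augBS' Res t 0 y)) = x.1 y
      exact congrArg x.1 (augBS'_zero Res t y))
    (fun r j x => by
      apply Subtype.ext
      ext y
      change x.1 (augBS' Res t j (augBD Res j y)) +
        x.1 (augBD Res (j + 1) (augBS' Res t (j + 1) y)) = x.1 y
      have h1 := (augBD_three Res t j).2 y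
      have h2 := (map_add x.1 (augBS' Res t j (augBD Res j y))
        (augBD Res (j + 1) (augBS' Res t (j + 1) y))).symm
      exact h2.trans (congrArg x.1 h1))
    (fun r j z hz => by
      obtain ⟨σ, h1, h2, h3⟩ := exists_lsec _ (hproj j)
      have hz1 : delta (augBM Res (j + 1)).left (iter V (r + 1)) z.1 = 0 :=
        congrArg Subtype.val hz
      obtain ⟨R, hR, hR2⟩ := exists_delta_of_section (augBM Res (j + 1)).left (iter V r) σ h1 h2
        z.1 ((delta_eq_zero_iff _ _ _).1 hz1)
      refine ⟨⟨R, fun c x => ?_⟩, Subtype.ext hR⟩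
      exact hR2 (iterMap (ρ c) r) ((augBM Res (j + 1)).actR c) (fun p => z.2 c p)
        (fun p => h3 c p) x)
    m
    (fun r j hj x => by
      apply Subtype.ext
      ext y
      have h1 : y = 0 := hzero j hj y
      rw [h1]
      exact (map_zero x.1).trans (map_zero _).symm)
    n hn ⟨S, hSr⟩ (Subtype.ext ((delta_eq_zero_iff _ _ _).2 hS))
  exact ⟨R.1, congrArg Subtype.val hR, R.2⟩

end Eq

end Pool.Agent.Lib.MP_1bca0d_an
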