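import Pool.Agent.Lib.MP_1bca0d_an.Omega

/-!
From resolutions (of a left module, or of the bimodule `A`) to a bounded multilinear map `ρ` with an
orthogonality identity.
-/

open Topology Filter

set_option maxSynthPendingDepth 3

namespace Pool.Agent.Lib.MP_1bca0d_an

variable {A : Type} [NormedRing A] [NormedAlgebra ℂ A]

/-- iterates of `Ω` -/
noncomputable def OmI (X : LMod A) : ℕ → LMod A
  | 0 => X
  | n + 1 => Om (OmI X n)

/-- the canonical cocycle -/
noncomputable def canS (X : LMod A) : ∀ n, X.E →L[ℂ] (iter (OmI X n) n).E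
  | 0 => ContinuousLinearMap.id ℂ X.E
  | n + 1 => pushMap (eta (OmI X n)) n ∘L canS X n

theorem isHom_canS (X : LMod A) : ∀ n, IsHom X (iter (OmI X n) n) (canS X n)
  | 0 => fun _ _ => rfl
  | n + 1 => fun a x => by
    have h1 := isHom_canS X n a x
    have h2 := isHom_pushMap (eta (OmI X n)) (isHom_eta (OmI X n)) n a (canS X n x)
    change pushMap (eta (OmI X n)) n (canS X n (X.act a x)) = _
    rw [h1]
    exact h2

/-- nested elementary tensors, `tens n d x = d (n-1) ⊗ (⋯ ⊗ (d 0 ⊗ x))` -/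
noncomputable def tens (X : LMod A) : ∀ n, (Fin n → A) → X.E → (OmI X n).E
  | 0, _, x => x
  | n + 1, d, x => (PT.mk (d (Fin.last n)) (tens X n (Fin.init d) x) : PT A (OmI X n).E)

theorem evlL_canS (X : LMod A) (n : ℕ) : ∀ (d : Fin n → A) (x : X.E),
    evlL (OmI X n) n d (canS X n x) = tens X n d x := by
  induction n with
  | zero =>
    intro d x
    rfl
  | succ n ih =>
    intro d x
    have h1 : evlL (Om (OmI X n)) (n + 1) d (pushMap (eta (OmI X n)) n (canS X n x)) =
      pev (eta (OmI X n) (evlL (OmI X n) n (Fin.init d) (canS X n x))) (d (Fin.last n)) :=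
      evlL_pushMap (eta (OmI X n)) n d (canS X n x)
    rw [ih] at h1
    exact h1

/-- A bounded multilinear map with the orthogonality identity. -/
structure Rho (X : LMod A) (N : ℕ) where
  /-- the map -/
  ρ : (Fin N → A) → X.E →L[ℂ] (OmI X (N + 1)).E
  upd : ∀ b i x, ∃ f : A →L[ℂ] (OmI X (N + 1)).E, ∀ a, ρ (Function.update b i a) x = f a
  /-- the bound -/
  C : ℝ
  hC : 0 ≤ C
  bd : ∀ b x, ‖ρ b x‖ ≤ C * (∏ i, ‖b i‖) * ‖x‖
  ort : ∀ (d : Fin (N + 1) → A) (x : X.E), (∀ i : Fin N, d i.succ * d i.castSucc = 0) →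
    X.act (d 0) x = 0 →
    tens X (N + 1) d x =
      (-1 : ℂ) ^ N • (OmI X (N + 1)).act (d (Fin.last N)) (ρ (Fin.init d) x)

theorem exists_Rho_of_resolution (X : LMod A) (m : ℕ) (Res : Resolution X m) (N : ℕ)
    (hN : m ≤ N) : Nonempty (Rho X N) := by
  obtain ⟨R, hR⟩ := exists_delta_of_resolution X (OmI X (N + 1)) m Res N hN (canS X (N + 1))
    (isHom_canS X (N + 1))
  refine ⟨⟨fun b => evlL (OmI X (N + 1)) N b ∘L R, ?_, ‖R‖, norm_nonneg _, ?_, ?_⟩⟩
  · intro b i x
    exact evlL_update (OmI X (N + 1)) N b i (R x)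
  · intro b x
    calc _ ≤ (∏ i, ‖b i‖) * ‖R x‖ := norm_evlL_le _ _ _ _
      _ ≤ (∏ i, ‖b i‖) * (‖R‖ * ‖x‖) := by
        gcongr
        exact R.le_opNorm x
      _ = _ := by ring
  · intro d x hd hx
    have e1 : tens X (N + 1) d x = evlL (OmI X (N + 1)) (N + 1) d (canS X (N + 1) x) :=
      (evlL_canS X (N + 1) d x).symm
    have e2 : canS X (N + 1) x = delta X (iter (OmI X (N + 1)) N) R x := by
      rw [hR]
      rfl
    have e3 : evlL (OmI X (N + 1)) (N + 1) d (delta X (iter (OmI X (N + 1)) N) R x) =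
      evlL (OmI X (N + 1)) N (Fin.tail d)
        ((iter (OmI X (N + 1)) N).act (d 0) (R x) - R (X.act (d 0) x)) := rfl
    rw [e1, e2]
    refine e3.trans ?_
    rw [hx, map_zero, sub_zero, evlL_act _ _ d hd]
    rfl

section Hom

/-- the module of bounded linear maps `X → W`, with the action on the values -/
noncomputable def homMod (X W : LMod A) : LMod A where
  E := X.E →L[ℂ] W.E
  act := (ContinuousLinearMap.compL ℂ X.E W.E W.E) ∘L W.act
  act_mul := by
    intro a b f
    ext x
    exact W.act_mul a b (f x)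

/-- apply an element of `homMod` -/
noncomputable def happ {X W : LMod A} (f : (homMod X W).E) : X.E →L[ℂ] W.E := f

/-- `happ` as a bounded linear map -/
noncomputable def happL (X W : LMod A) : (homMod X W).E →L[ℂ] X.E →L[ℂ] W.E :=
  ContinuousLinearMap.id ℂ (X.E →L[ℂ] W.E)

theorem happ_act {X W : LMod A} (a : A) (f : (homMod X W).E) (x : X.E) :
    happ ((homMod X W).act a f) x = W.act a (happ f x) := rfl

theorem happ_ext {X W : LMod A} {f g : (homMod X W).E} (h : ∀ x, happ f x = happ g x) : f = g :=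
  ContinuousLinearMap.ext (M₁ := X.E) (M₂ := W.E) h

/-- right action of `c` on `Hom(X, W)` -/
noncomputable def rhoH (X W : LMod A) (c : A) : (homMod X W).E →L[ℂ] (homMod X W).E :=
  (ContinuousLinearMap.compL ℂ X.E X.E W.E).flip (X.act c)

theorem happ_rhoH {X W : LMod A} (c : A) (f : (homMod X W).E) (x : X.E) :
    happ (rhoH X W c f) x = happ f (X.act c x) := rfl

theorem isHom_rhoH (X W : LMod A) (c : A) : IsHom (homMod X W) (homMod X W) (rhoH X W c) := by
  intro a f
  rfl

/-- the canonical map for `Hom` modules -/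
noncomputable def etaH (X W : LMod A) : (homMod X W).E →L[ℂ] (prime (homMod X (Om W))).E :=
  (pmk (homMod X (Om W))) ∘L ((ContinuousLinearMap.compL ℂ X.E W.E (PT A W.E)) ∘L PT.mk).flip

theorem happ_pev_etaH (X W : LMod A) (f : (homMod X W).E) (a : A) (x : X.E) :
    happ (pev (etaH X W f) a) x = PT.mk a (happ f x) := rfl

theorem isHom_etaH (X W : LMod A) :
    IsHom (homMod X W) (prime (homMod X (Om W))) (etaH X W) := by
  intro b f
  apply pev_ext (W := homMod X (Om W))
  intro a
  apply happ_ext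
  intro x
  rw [pev_act]
  have h1 : (Om W).act a (PT.mk b (happ f x)) =
    PT.mk (a * b) (happ f x) - PT.mk a (W.act b (happ f x)) := Om_act_mk W a b _
  have h2 : (PT.mk (a * b) (happ f x) : PT A W.E) -
      (show PT A W.E from (Om W).act a (PT.mk b (happ f x))) =
    PT.mk (a * b) (happ f x) - (PT.mk (a * b) (happ f x) - PT.mk a (W.act b (happ f x))) :=
    congrArg (fun y : PT A W.E => PT.mk (a * b) (happ f x) - y) h1
  refine Eq.trans ?_ h2.symm
  change PT.mk a (W.act b (happ f x)) = _
  abel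

/-- the canonical cocycle for `Hom` modules -/
noncomputable def canSH (X : LMod A) :
    ∀ n, (homMod X X).E →L[ℂ] (iter (homMod X (OmI X n)) n).E
  | 0 => ContinuousLinearMap.id ℂ (homMod X X).E
  | n + 1 => pushMap (etaH X (OmI X n)) n ∘L canSH X n

theorem isHom_canSH (X : LMod A) :
    ∀ n, IsHom (homMod X X) (iter (homMod X (OmI X n)) n) (canSH X n)
  | 0 => fun _ _ => rfl
  | n + 1 => fun a x => by
    have h1 := isHom_canSH X n a x
    have h2 := isHom_pushMap (etaH X (OmI X n)) (isHom_etaH X (OmI X n)) n a (canSH X n x)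
    change pushMap (etaH X (OmI X n)) n (canSH X n ((homMod X X).act a x)) = _
    rw [h1]
    exact h2

theorem pushMap_natural {W W₁ : LMod A} (f : W.E →L[ℂ] (prime W₁).E)
    (g : W.E →L[ℂ] W.E) (g₁ : W₁.E →L[ℂ] W₁.E)
    (hfg : ∀ w, f (g w) = primeMap g₁ (f w)) (n : ℕ) :
    ∀ ψ, pushMap f n (iterMap g n ψ) = iterMap g₁ (n + 1) (pushMap f n ψ) := by
  induction n with
  | zero => exact hfg
  | succ n ih =>
    intro ψ
    apply pev_ext (W := iter W₁ (n + 1))
    intro a
    exact ih (pev (W := iter W n) ψ a)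

theorem canSH_natural (X : LMod A) (c : A) (n : ℕ) : ∀ f,
    canSH X n (rhoH X X c f) = iterMap (rhoH X (OmI X n) c) n (canSH X n f) := by
  induction n with
  | zero => intro f; rfl
  | succ n ih =>
    intro f
    change pushMap (etaH X (OmI X n)) n (canSH X n (rhoH X X c f)) = _
    rw [ih]
    exact pushMap_natural (etaH X (OmI X n)) (rhoH X (OmI X n) c) (rhoH X (Om (OmI X n)) c)
      (fun w => rfl) n (canSH X n f)

theorem evlL_canSH (X : LMod A) (n : ℕ) : ∀ (d : Fin n → A) (f : (homMod X X).E) (x : X.E),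
    happ (evlL (homMod X (OmI X n)) n d (canSH X n f)) x = tens X n d (happ f x) := by
  induction n with
  | zero =>
    intro d f x
    rfl
  | succ n ih =>
    intro d f x
    have h1 : evlL (homMod X (Om (OmI X n))) (n + 1) d
        (pushMap (etaH X (OmI X n)) n (canSH X n f)) =
      pev (etaH X (OmI X n) (evlL (homMod X (OmI X n)) n (Fin.init d) (canSH X n f)))
        (d (Fin.last n)) :=
      evlL_pushMap (etaH X (OmI X n)) n d (canSH X n f)
    have h2 : happ (evlL (homMod X (Om (OmI X n))) (n + 1) d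
        (pushMap (etaH X (OmI X n)) n (canSH X n f))) x =
        PT.mk (d (Fin.last n)) (happ (evlL (homMod X (OmI X n)) n (Fin.init d) (canSH X n f)) x) := by
      rw [h1]
      rfl
    rw [ih] at h2
    exact h2

theorem exists_Rho_of_bresolution [CompleteSpace A] (X : LMod A) (hX : ∀ x, X.act 1 x = x) (m : ℕ)
    (Res : BResolution (regularB A) m) (N : ℕ) (hN : m ≤ N) : Nonempty (Rho X N) := by
  have hcomp : IsHom (regularB A).left (homMod X X) X.act := by
    intro a (b : A)
    apply happ_ext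
    intro x
    exact X.act_mul a b x
  have hhom : IsHom (regularB A).left (iter (homMod X (OmI X (N + 1))) (N + 1))
      (canSH X (N + 1) ∘L X.act) := by
    intro a b
    exact (congrArg (canSH X (N + 1)) (hcomp a b)).trans (isHom_canSH X (N + 1) a _)
  have heq : (canSH X (N + 1) ∘L X.act) ∈
      Eqv (homMod X (OmI X (N + 1))) (rhoH X (OmI X (N + 1))) (regularB A) (N + 1) := by
    intro c (b : A)
    change canSH X (N + 1) (X.act (b * c)) =
      iterMap (rhoH X (OmI X (N + 1)) c) (N + 1) (canSH X (N + 1) (X.act b))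
    rw [← canSH_natural]
    have h1 : X.act (b * c) = rhoH X X c (X.act b) := by
      apply happ_ext
      intro x
      exact X.act_mul b c x
    rw [h1]
  obtain ⟨R, hR, hR2⟩ := exists_delta_of_bresolution (homMod X (OmI X (N + 1)))
    (rhoH X (OmI X (N + 1))) (isHom_rhoH X (OmI X (N + 1))) (regularB A) rsecRegular m Res N hN
    (canSH X (N + 1) ∘L X.act) hhom heq
  refine ⟨⟨fun b => happ (evlL (homMod X (OmI X (N + 1))) N b (R (1 : A))), ?_, ‖R (1 : A)‖,
    norm_nonneg _, ?_, ?_⟩⟩
  · intro b i x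
    obtain ⟨f, hf⟩ := evlL_update (homMod X (OmI X (N + 1))) N b i (R (1 : A))
    refine ⟨(happL X (OmI X (N + 1)) ∘L f).flip x, fun a => ?_⟩
    rw [hf]
    rfl
  · intro b x
    have h1 : ‖happ (evlL (homMod X (OmI X (N + 1))) N b (R (1 : A))) x‖ ≤
      ‖evlL (homMod X (OmI X (N + 1))) N b (R (1 : A))‖ * ‖x‖ :=
      (happ (evlL (homMod X (OmI X (N + 1))) N b (R (1 : A)))).le_opNorm x
    calc _ ≤ _ := h1
      _ ≤ ((∏ i, ‖b i‖) * ‖R (1 : A)‖) * ‖x‖ := by
        gcongr
        exact norm_evlL_le _ _ _ _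
      _ = _ := by ring
  · intro d x hd hx
    have h0 : happ (W := X) (X := X) (X.act (1 : A)) x = x := hX x
    have h1 : tens X (N + 1) d x = happ (evlL (homMod X (OmI X (N + 1))) (N + 1) d
        (canSH X (N + 1) (X.act (1 : A)))) x := by
      rw [evlL_canSH, h0]
    have h2 : canSH X (N + 1) (X.act (1 : A)) =
        delta (regularB A).left (iter (homMod X (OmI X (N + 1))) N) R (1 : A) := by
      rw [hR]
      rfl
    have h3 : pev (W := iter (homMod X (OmI X (N + 1))) N)
        (delta (regularB A).left (iter (homMod X (OmI X (N + 1))) N) R (1 : A)) (d 0) =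
      (iter (homMod X (OmI X (N + 1))) N).act (d 0) (R (1 : A)) - R (d 0 * 1 : A) := rfl
    have h4 : R (d 0 * 1 : A) = iterMap (rhoH X (OmI X (N + 1)) (d 0)) N (R (1 : A)) := by
      have h5 := hR2 (d 0) (1 : A)
      have h6 : (regularB A).actR (d 0) (1 : A) = (1 : A) * d 0 := rfl
      rw [h6, one_mul] at h5
      rw [mul_one]
      exact h5
    rw [h1, h2, evlL_succ, h3, h4, map_sub, evlL_iterMap, evlL_act _ _ d hd]
    have h7 : ∀ (u v : (homMod X (OmI X (N + 1))).E), happ (u - v) x = happ u x - happ v x :=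
      fun u v => rfl
    rw [h7, happ_rhoH, hx, map_zero, sub_zero]
    rfl

end Hom

end Pool.Agent.Lib.MP_1bca0d_an
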