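import Mathlib

/-!
Banach modules and bimodules over a Banach algebra, relative projectivity, admissible projective
resolutions, homological dimension, global dimension and bidimension.
-/

namespace Pool.Agent.Lib.MP_1bca0d_an.Spec

section Tensor

variable (E F : Type) [NormedAddCommGroup E] [NormedSpace ℂ E]
  [NormedAddCommGroup F] [NormedSpace ℂ F]

/-- The closed unit ball of the space of bounded bilinear forms on `E × F`. -/
def BilBall : Type :=
  {φ : E → F → ℂ // IsBoundedBilinearMap ℂ (fun p : E × F => φ p.1 p.2) ∧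
    ∀ e f, ‖φ e f‖ ≤ ‖e‖ * ‖f‖}

/-- the discrete topology -/
instance : TopologicalSpace (BilBall E F) := ⊥

instance : DiscreteTopology (BilBall E F) := ⟨rfl⟩

/-- The Banach space of bounded functions on the unit ball of bilinear forms, with the supremum
norm. -/
abbrev BFun : Type := BoundedContinuousFunction (BilBall E F) ℂ

variable {E F} in
/-- The elementary tensor `e ⊗ f`, as the bounded function `φ ↦ φ e f`. -/
noncomputable def elemS (e : E) (f : F) : BFun E F :=
  BoundedContinuousFunction.ofNormedAddCommGroupDiscrete (fun φ : BilBall E F => φ.1 e f)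
    (‖e‖ * ‖f‖) (fun φ => φ.2.2 e f)

/-- The projective tensor product of `E` and `F`: the closed linear span of the elementary tensors
in the space of bounded functions on the unit ball of bounded bilinear forms. -/
noncomputable def PTsubS : Submodule ℂ (BFun E F) :=
  (Submodule.span ℂ (Set.range fun p : E × F => elemS p.1 p.2)).topologicalClosure

/-- The projective tensor product as a type. -/
def PTS : Type := PTsubS E F

noncomputable instance instNormPTS : NormedAddCommGroup (PTS E F) :=
  Submodule.normedAddCommGroup (PTsubS E F)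

noncomputable instance instSpacePTS : NormedSpace ℂ (PTS E F) :=
  Submodule.normedSpace (PTsubS E F)

variable {E F} in
/-- The elementary tensor `e ⊗ f`. -/
noncomputable def tm (e : E) (f : F) : PTS E F :=
  ⟨elemS e f, Submodule.le_topologicalClosure _ (Submodule.subset_span ⟨(e, f), rfl⟩)⟩

end Tensor

section Unitiz

variable (A : Type) [NormedRing A] [NormedAlgebra ℂ A]

/-- The unitization `A_+ = ℂ ⊕ A`, with the norm `‖λ + a‖ = |λ| + ‖a‖`. -/
def AP : Type := WithLp 1 (Unitization ℂ A)

noncomputable instance instNormAP : NormedAddCommGroup (AP A) :=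
  WithLp.instUnitizationNormedAddCommGroup ℂ A

noncomputable instance instSpaceAP : NormedSpace ℂ (AP A) :=
  WithLp.instUnitizationNormedAlgebra.toNormedSpace

variable {A}

/-- The element `λ + a` of `A_+`. -/
def AP.mk (u : Unitization ℂ A) : AP A := WithLp.toLp 1 u

/-- An element of `A_+` as an element of the algebraic unitization. -/
def AP.un (u : AP A) : Unitization ℂ A := WithLp.ofLp u

end Unitiz

section Left

/-- A left Banach module over the Banach algebra `A`: a Banach space `E` with a bounded bilinear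
(that is, jointly continuous bilinear) action of `A` with `(ab)x = a(bx)`. -/
structure LM (A : Type) [NormedRing A] [NormedAlgebra ℂ A] where
  /-- the underlying Banach space -/
  E : Type
  [nacg : NormedAddCommGroup E]
  [ns : NormedSpace ℂ E]
  [cs : CompleteSpace E]
  /-- the action of `A` -/
  act : A → E → E
  bdd : IsBoundedBilinearMap ℂ (fun p : A × E => act p.1 p.2)
  mul_act : ∀ a b x, act (a * b) x = act a (act b x)

attribute [instance] LM.nacg LM.ns LM.cs

variable {A : Type} [NormedRing A] [NormedAlgebra ℂ A]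

/-- Morphisms of left Banach modules: bounded linear maps commuting with the actions. -/
def Hom (X Y : LM A) (f : X.E → Y.E) : Prop :=
  IsBoundedLinearMap ℂ f ∧ ∀ a x, f (X.act a x) = Y.act a (f x)

/-- (Relative) projectivity of a left Banach module `X`. Here `π : A_+ ⊗ X → X`, `u ⊗ x ↦ u x` is
the canonical map, `L a` is the action `a (u ⊗ x) = (a u) ⊗ x` of `a ∈ A` on `A_+ ⊗ X`, and `σ` is a
right inverse of `π` which is a morphism of modules. -/
def Projective (X : LM A) : Prop :=
  ∃ (π : PTS (AP A) X.E → X.E) (L : A → PTS (AP A) X.E → PTS (AP A) X.E)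
    (σ : X.E → PTS (AP A) X.E),
    IsBoundedLinearMap ℂ π ∧ (∀ a, IsBoundedLinearMap ℂ (L a)) ∧ IsBoundedLinearMap ℂ σ ∧
    (∀ u x, π (tm u x) = (AP.un u).fst • x + X.act (AP.un u).snd x) ∧
    (∀ a u x, L a (tm u x) = tm (AP.mk (Unitization.inr a * AP.un u)) x) ∧
    (∀ a x, σ (X.act a x) = L a (σ x)) ∧ ∀ x, π (σ x) = x

/-- An admissible resolution `0 ← X ← P 0 ← P 1 ← ⋯ ← P m ← 0` of `X` by projective modules
(`P j = 0` for `j > m`); `s₀, s` is the bounded linear contracting homotopy. -/
structure Res (X : LM A) (m : ℕ) where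
  /-- the modules -/
  P : ℕ → LM A
  proj : ∀ j, Projective (P j)
  zero : ∀ j, m < j → ∀ x : (P j).E, x = 0
  /-- the augmentation -/
  ε : (P 0).E → X.E
  /-- the differentials -/
  d : ∀ j, (P (j + 1)).E → (P j).E
  ε_hom : Hom (P 0) X ε
  d_hom : ∀ j, Hom (P (j + 1)) (P j) (d j)
  ε_d : ∀ x, ε (d 0 x) = 0
  d_d : ∀ j x, d j (d (j + 1) x) = 0
  /-- the contracting homotopy, first map -/
  s₀ : X.E → (P 0).E
  /-- the contracting homotopy -/
  s : ∀ j, (P j).E → (P (j + 1)).E
  s₀_bdd : IsBoundedLinearMap ℂ s₀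
  s_bdd : ∀ j, IsBoundedLinearMap ℂ (s j)
  ε_s₀ : ∀ x, ε (s₀ x) = x
  s₀_ε : ∀ x, s₀ (ε x) + d 0 (s 0 x) = x
  s_d : ∀ j x, s j (d j x) + d (j + 1) (s (j + 1) x) = x

/-- The homological dimension `dh_A X`: the least `m` such that `X` has an admissible resolution of
length `m` by projective modules, and `∞` if there is none. -/
noncomputable def dh (X : LM A) : ℕ∞ :=
  ⨅ (m : ℕ) (_ : Nonempty (Res X m)), (m : ℕ∞)

variable (A) in
/-- The global dimension `dg A`: the supremum of `dh_A X` over all left Banach `A`-modules `X`. -/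
noncomputable def dg : ℕ∞ := ⨆ X : LM A, dh X

end Left

section Bi

/-- A Banach bimodule over the Banach algebra `A`. -/
structure BM (A : Type) [NormedRing A] [NormedAlgebra ℂ A] where
  /-- the underlying Banach space -/
  E : Type
  [nacg : NormedAddCommGroup E]
  [ns : NormedSpace ℂ E]
  [cs : CompleteSpace E]
  /-- the left action, `l a x = a x` -/
  l : A → E → E
  /-- the right action, `r a x = x a` -/
  r : A → E → E
  l_bdd : IsBoundedBilinearMap ℂ (fun p : A × E => l p.1 p.2)
  r_bdd : IsBoundedBilinearMap ℂ (fun p : A × E => r p.1 p.2)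
  l_mul : ∀ a b x, l (a * b) x = l a (l b x)
  r_mul : ∀ a b x, r (a * b) x = r b (r a x)
  l_r : ∀ a b x, l a (r b x) = r b (l a x)

attribute [instance] BM.nacg BM.ns BM.cs

variable {A : Type} [NormedRing A] [NormedAlgebra ℂ A]

/-- Morphisms of Banach bimodules. -/
def BHom (X Y : BM A) (f : X.E → Y.E) : Prop :=
  IsBoundedLinearMap ℂ f ∧ (∀ a x, f (X.l a x) = Y.l a (f x)) ∧ ∀ a x, f (X.r a x) = Y.r a (f x)

/-- The Banach space `A_+ ⊗ (X ⊗ A_+)`. -/
def T3 (X : BM A) : Type := PTS (AP A) (PTS X.E (AP A))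

noncomputable instance instNormT3 (X : BM A) : NormedAddCommGroup (T3 X) :=
  instNormPTS (AP A) (PTS X.E (AP A))

noncomputable instance instSpaceT3 (X : BM A) : NormedSpace ℂ (T3 X) :=
  instSpacePTS (AP A) (PTS X.E (AP A))

/-- The elementary tensor `u ⊗ (x ⊗ w)`. -/
noncomputable def tm3 (X : BM A) (u : AP A) (x : X.E) (w : AP A) : T3 X := tm u (tm x w)

/-- The left action `u x`, `u ∈ A_+`. -/
def BM.lp (X : BM A) (u : AP A) (x : X.E) : X.E := (AP.un u).fst • x + X.l (AP.un u).snd x

/-- The right action `x u`, `u ∈ A_+`. -/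
def BM.rp (X : BM A) (u : AP A) (x : X.E) : X.E := (AP.un u).fst • x + X.r (AP.un u).snd x

/-- (Relative) projectivity of a Banach bimodule `X`. Here `π : A_+ ⊗ (X ⊗ A_+) → X`,
`u ⊗ (x ⊗ w) ↦ u x w` is the canonical map, `L a`, `R a` are the actions
`a (u ⊗ (x ⊗ w)) = (a u) ⊗ (x ⊗ w)`, `(u ⊗ (x ⊗ w)) a = u ⊗ (x ⊗ (w a))` on `A_+ ⊗ (X ⊗ A_+)`, and
`σ` is a right inverse of `π` which is a morphism of bimodules. -/
def BProjective (X : BM A) : Prop :=
  ∃ (π : T3 X → X.E) (L R : A → T3 X → T3 X) (σ : X.E → T3 X),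
    IsBoundedLinearMap ℂ π ∧ (∀ a, IsBoundedLinearMap ℂ (L a)) ∧
    (∀ a, IsBoundedLinearMap ℂ (R a)) ∧ IsBoundedLinearMap ℂ σ ∧
    (∀ u x w, π (tm3 X u x w) = X.lp u (X.rp w x)) ∧
    (∀ a u x w, L a (tm3 X u x w) = tm3 X (AP.mk (Unitization.inr a * AP.un u)) x w) ∧
    (∀ a u x w, R a (tm3 X u x w) = tm3 X u x (AP.mk (AP.un w * Unitization.inr a))) ∧
    (∀ a x, σ (X.l a x) = L a (σ x)) ∧ (∀ a x, σ (X.r a x) = R a (σ x)) ∧ ∀ x, π (σ x) = x

/-- An admissible resolution `0 ← X ← P 0 ← P 1 ← ⋯ ← P m ← 0` of the bimodule `X` by projective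
bimodules (`P j = 0` for `j > m`); `s₀, s` is the bounded linear contracting homotopy. -/
structure BRes (X : BM A) (m : ℕ) where
  /-- the bimodules -/
  P : ℕ → BM A
  proj : ∀ j, BProjective (P j)
  zero : ∀ j, m < j → ∀ x : (P j).E, x = 0
  /-- the augmentation -/
  ε : (P 0).E → X.E
  /-- the differentials -/
  d : ∀ j, (P (j + 1)).E → (P j).E
  ε_hom : BHom (P 0) X ε
  d_hom : ∀ j, BHom (P (j + 1)) (P j) (d j)
  ε_d : ∀ x, ε (d 0 x) = 0
  d_d : ∀ j x, d j (d (j + 1) x) = 0
  /-- the contracting homotopy, first map -/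
  s₀ : X.E → (P 0).E
  /-- the contracting homotopy -/
  s : ∀ j, (P j).E → (P (j + 1)).E
  s₀_bdd : IsBoundedLinearMap ℂ s₀
  s_bdd : ∀ j, IsBoundedLinearMap ℂ (s j)
  ε_s₀ : ∀ x, ε (s₀ x) = x
  s₀_ε : ∀ x, s₀ (ε x) + d 0 (s 0 x) = x
  s_d : ∀ j x, s j (d j x) + d (j + 1) (s (j + 1) x) = x

/-- The homological dimension of a Banach bimodule: the least `m` such that `X` has an admissible
resolution of length `m` by projective bimodules, and `∞` if there is none. -/
noncomputable def bdh (X : BM A) : ℕ∞ :=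
  ⨅ (m : ℕ) (_ : Nonempty (BRes X m)), (m : ℕ∞)

variable (A) in
/-- The algebra `A`, regarded as a bimodule over itself. -/
noncomputable def selfB [CompleteSpace A] : BM A where
  E := A
  l := fun a x => a * x
  r := fun a x => x * a
  l_bdd := (ContinuousLinearMap.mul ℂ A).isBoundedBilinearMap
  r_bdd := (ContinuousLinearMap.mul ℂ A).flip.isBoundedBilinearMap
  l_mul := fun a b x => mul_assoc a b x
  r_mul := fun a b x => (mul_assoc x a b).symm
  l_r := fun a b x => (mul_assoc a x b).symm

variable (A) in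
/-- The bidimension `db A`: the homological dimension of the bimodule `A`. -/
noncomputable def db [CompleteSpace A] : ℕ∞ := bdh (selfB A)

end Bi

end Pool.Agent.Lib.MP_1bca0d_an.Spec
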