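import Pool.Agent.Lib.MP_1bca0d_an.Lim

/-!
The two-variable bound for functionals satisfying a measure bound.
-/

open Filter Topology Function

namespace Pool.Agent.Lib.MP_1bca0d_an

/-- the cell function of an interval -/
noncomputable def cell {K : Type*} [TopologicalSpace K] (φ : ℕ → C(K, ℂ)) (I : ℕ × ℕ) : C(K, ℂ) :=
  φ I.1 - φ I.2

theorem norm_cell_le {K : Type*} [TopologicalSpace K] [CompactSpace K] (φ : ℕ → C(K, ℂ))
    (h01 : ∀ l x, (φ l x).im = 0 ∧ 0 ≤ (φ l x).re ∧ (φ l x).re ≤ 1) (I : ℕ × ℕ) :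
    ‖cell φ I‖ ≤ 1 := by
  rw [ContinuousMap.norm_le _ zero_le_one]
  intro x
  have h1 := h01 I.1 x
  have h2 := h01 I.2 x
  have h3 : cell φ I x = (((φ I.1 x).re - (φ I.2 x).re : ℝ) : ℂ) := by
    apply Complex.ext
    · simp [cell]
    · simp [cell, h1.1, h2.1]
  rw [h3, Complex.norm_real, Real.norm_eq_abs, abs_le]
  constructor <;> linarith [h1.2.1, h1.2.2, h2.2.1, h2.2.2]

theorem norm_sum_cell_le {K : Type*} [TopologicalSpace K] [CompactSpace K] (φ : ℕ → C(K, ℂ))
    (h01 : ∀ l x, (φ l x).im = 0 ∧ 0 ≤ (φ l x).re ∧ (φ l x).re ≤ 1)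
    (hmul : ∀ l l', l < l' → φ l * φ l' = φ l')
    {M : ℕ} (L : Fin M → ℕ × ℕ) (hL : Ladder L) (θ : Fin M → ℂ) (hθ : ∀ s, ‖θ s‖ ≤ 1) :
    ‖∑ s, θ s • cell φ (L s)‖ ≤ 1 := by
  rw [ContinuousMap.norm_le _ zero_le_one]
  intro x
  have hmono : ∀ l l', l < l' → (φ l' x).re ≤ (φ l x).re := by
    intro l l' h
    have h1 : φ l x * φ l' x = φ l' x := congrArg (fun f : C(K, ℂ) => f x) (hmul l l' h)
    have h2 := h01 l x
    have h3 := h01 l' x
    have h4 : (φ l x).re * (φ l' x).re = (φ l' x).re := by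
      have := congrArg Complex.re h1
      rw [Complex.mul_re, h2.1, h3.1] at this
      linarith
    nlinarith [h2.2.1, h2.2.2, h3.2.1, h3.2.2]
  have hcell : ∀ s, ‖cell φ (L s) x‖ = (φ (L s).1 x).re - (φ (L s).2 x).re := by
    intro s
    have h3 : cell φ (L s) x = (((φ (L s).1 x).re - (φ (L s).2 x).re : ℝ) : ℂ) := by
      apply Complex.ext
      · simp [cell]
      · simp [cell, (h01 (L s).1 x).1, (h01 (L s).2 x).1]
    rw [h3, Complex.norm_real, Real.norm_eq_abs, abs_of_nonneg]
    linarith [hmono _ _ (hL.1 s)]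
  have h1 : ‖(∑ s, θ s • cell φ (L s)) x‖ ≤ ∑ s, ((φ (L s).1 x).re - (φ (L s).2 x).re) := by
    rw [ContinuousMap.sum_apply]
    refine (norm_sum_le _ _).trans (Finset.sum_le_sum fun s _ => ?_)
    rw [ContinuousMap.smul_apply, norm_smul, hcell]
    have h2 : 0 ≤ (φ (L s).1 x).re - (φ (L s).2 x).re := by linarith [hmono _ _ (hL.1 s)]
    have := mul_le_mul_of_nonneg_right (hθ s) h2
    linarith
  refine h1.trans ?_
  -- telescoping
  have key : ∀ (M : ℕ) (L : Fin M → ℕ × ℕ), Ladder L → ∀ A : ℝ, 0 ≤ A →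
      (∀ s, (φ (L s).1 x).re ≤ A) → ∑ s, ((φ (L s).1 x).re - (φ (L s).2 x).re) ≤ A := by
    intro M
    induction M with
    | zero =>
      intro L _ A hA _
      simpa using hA
    | succ M ih =>
      intro L hL A hA hA2
      rw [Fin.sum_univ_succ]
      have h3 := ih (fun s => L s.succ) ⟨fun i => hL.1 _, fun i j hij =>
        hL.2 _ _ (Fin.succ_lt_succ_iff.2 hij)⟩ ((φ (L 0).2 x).re) (h01 _ x).2.1 (by
          intro s
          exact hmono _ _ (hL.2 0 s.succ (Fin.succ_pos s)))
      have h4 := hA2 0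
      linarith
  exact key M L hL 1 zero_le_one (fun s => (h01 _ x).2.2)

/-- hypothesis on `Γ`: the measure bound -/
def MeasBd {K : Type*} [TopologicalSpace K] [CompactSpace K] {N : ℕ}
    (Γ : (Fin N → C(K, ℂ)) → K → (Fin (N + 2) → K) → ℂ) (C : ℝ) : Prop :=
  ∀ (a : Fin N → C(K, ℂ)), (∀ i, ‖a i‖ ≤ 1) → ∀ (T : Finset K) (θ : K → ℂ), (∀ s, ‖θ s‖ ≤ 1) →
  ∀ (p : ℕ) (c : Fin p → ℂ) (v : Fin p → Fin (N + 2) → K) (R : ℝ),
    (∀ u : Fin (N + 2) → K → ℂ, (∀ i x, ‖u i x‖ ≤ 1) → ‖∑ j, c j * ∏ i, u i (v j i)‖ ≤ R) →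
    ‖∑ j, c j * ∑ s ∈ T, θ s * Γ a s (v j)‖ ≤ C * R

/-- decoupling data -/
structure Dec (M : ℕ) where
  /-- number of terms -/
  H : ℕ
  /-- weights -/
  p : Fin H → ℝ
  hp : ∀ h, 0 ≤ p h
  hp1 : ∑ h, p h ≤ 1
  /-- coefficients -/
  x : Fin H → Fin M → ℂ
  /-- dual coefficients -/
  w : Fin H → Fin M → ℂ
  hx : ∀ h s, ‖x h s‖ ≤ 1
  hw : ∀ h s, ‖w h s‖ ≤ 1

/-- compatibility of decoupling data with a function -/
def Dec.Good {M : ℕ} (D : Dec M) (Ψ : (Fin M → ℂ) → ℂ) : Prop :=
  ∀ s, Ψ (Pi.single s 1) = ∑ h, (D.p h : ℂ) * D.w h s * Ψ (D.x h)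

theorem exists_dec_const (M : ℕ) : ∃ D : Dec M, ∀ Ψ : (Fin M → ℂ) → ℂ, (∀ x y, Ψ x = Ψ y) →
    D.Good Ψ := by
  refine ⟨⟨1, fun _ => 1, fun _ => zero_le_one, by simp, fun _ _ => 1, fun _ _ => 1, by simp,
    by simp⟩, ?_⟩
  intro Ψ hΨ s
  simp only [Fin.sum_univ_one, Complex.ofReal_one, one_mul]
  exact hΨ _ _

theorem exists_dec_lin (M : ℕ) (hM : 0 < M) : ∃ D : Dec M, ∀ Ψ : (Fin M → ℂ) → ℂ,
    IsLinearMap ℂ Ψ → D.Good Ψ := by
  have hM0 : M ≠ 0 := hM.ne'
  have hω := Complex.isPrimitiveRoot_exp M hM0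
  set ω := Complex.exp (2 * Real.pi * Complex.I / M) with hωdef
  have hnorm : ‖ω‖ = 1 := hω.norm'_eq_one hM0
  have hω0 : ω ≠ 0 := by
    intro h
    rw [h, norm_zero] at hnorm
    exact zero_ne_one hnorm
  refine ⟨⟨M, fun _ => 1 / M, fun _ => by positivity, ?_, fun h s => ω ^ ((h : ℕ) * (s : ℕ)),
    fun h s => (ω ^ ((h : ℕ) * (s : ℕ)))⁻¹, ?_, ?_⟩, ?_⟩
  · simp only [Finset.sum_const, Finset.card_univ, Fintype.card_fin, nsmul_eq_mul]
    rw [mul_one_div_cancel]
    exact_mod_cast hM0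
  · intro h s
    rw [norm_pow, hnorm, one_pow]
  · intro h s
    rw [norm_inv, norm_pow, hnorm, one_pow, inv_one]
  · intro Ψ hΨ s
    let Ψ' : (Fin M → ℂ) →ₗ[ℂ] ℂ := hΨ.mk' Ψ
    have h1 : ∀ x, Ψ x = Ψ' x := fun x => rfl
    simp only [h1]
    have h2 : (Pi.single s 1 : Fin M → ℂ) = ∑ h : Fin M,
        (((1 / M : ℝ) : ℂ) * (ω ^ ((h : ℕ) * (s : ℕ)))⁻¹) • (fun s' : Fin M => ω ^ ((h : ℕ) * (s' : ℕ))) := by
      ext s'
      rw [Finset.sum_apply]
      simp only [Pi.smul_apply, smul_eq_mul]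
      have h3 : ∀ h : Fin M, (((1 / M : ℝ) : ℂ) * (ω ^ ((h : ℕ) * (s : ℕ)))⁻¹) *
          ω ^ ((h : ℕ) * (s' : ℕ)) = (1 / M : ℂ) * (ω ^ (s' : ℕ) * (ω ^ (s : ℕ))⁻¹) ^ (h : ℕ) := by
        intro h
        push_cast
        rw [mul_pow, inv_pow, ← pow_mul, ← pow_mul, mul_comm (s' : ℕ), mul_comm (s : ℕ)]
        ring
      simp only [h3]
      rw [← Finset.mul_sum, Fin.sum_univ_eq_sum_range
        (fun h => (ω ^ (s' : ℕ) * (ω ^ (s : ℕ))⁻¹) ^ h) M]
      have hMc : (M : ℂ) ≠ 0 := by exact_mod_cast hM0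
      rcases eq_or_ne s' s with h | h
      · rw [h, Pi.single_eq_same, mul_inv_cancel₀ (pow_ne_zero _ hω0)]
        simp only [one_pow, Finset.sum_const, Finset.card_range, nsmul_eq_mul, mul_one]
        rw [one_div_mul_cancel hMc]
      · rw [Pi.single_eq_of_ne h]
        have h4 : ω ^ (s' : ℕ) * (ω ^ (s : ℕ))⁻¹ ≠ 1 := by
          intro h5
          have h6 : ω ^ (s' : ℕ) = ω ^ (s : ℕ) := by
            field_simp at h5
            exact h5
          exact h (Fin.ext (hω.pow_inj s'.2 s.2 h6))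
        rw [geom_sum_eq h4]
        have h5 : (ω ^ (s' : ℕ) * (ω ^ (s : ℕ))⁻¹) ^ M = 1 := by
          rw [mul_pow, inv_pow, ← pow_mul, ← pow_mul, mul_comm (s' : ℕ), mul_comm (s : ℕ), pow_mul,
            pow_mul, hω.pow_eq_one, one_pow, one_pow, inv_one, mul_one]
        rw [h5, sub_self, zero_div, mul_zero]
    conv_lhs => rw [h2]
    rw [map_sum]
    refine Finset.sum_congr rfl fun h _ => ?_
    rw [map_smul, smul_eq_mul]

/-- finite combinations of points with distinct values as sums over finite sets -/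
theorem exists_T {K : Type*} {M : ℕ} (τ : Fin M → K) (hτ : Injective τ) (x : Fin M → ℂ)
    (hx : ∀ s, ‖x s‖ ≤ 1) : ∃ (T : Finset K) (θ : K → ℂ), (∀ s, ‖θ s‖ ≤ 1) ∧
      ∀ g : K → ℂ, ∑ s ∈ T, θ s * g s = ∑ s, x s * g (τ s) := by
  classical
  refine ⟨Finset.univ.image τ, fun y => if h : ∃ s, τ s = y then x h.choose else 0, ?_, ?_⟩
  · intro y
    dsimp only
    split_ifs with h
    · exact hx _
    · simp
  · intro g
    rw [Finset.sum_image (fun a _ b _ h => hτ h)]
    refine Finset.sum_congr rfl fun s _ => ?_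
    have h : ∃ s', τ s' = τ s := ⟨s, rfl⟩
    dsimp only
    rw [dif_pos h]
    rw [hτ h.choose_spec]

theorem MeasBd.fintype {K : Type*} [TopologicalSpace K] [CompactSpace K] {N : ℕ}
    {Γ : (Fin N → C(K, ℂ)) → K → (Fin (N + 2) → K) → ℂ} {C : ℝ} (hΓ : MeasBd Γ C)
    (a : Fin N → C(K, ℂ)) (ha : ∀ i, ‖a i‖ ≤ 1) (T : Finset K) (θ : K → ℂ)
    (hθ : ∀ s, ‖θ s‖ ≤ 1) {P : Type*} [Fintype P] (c : P → ℂ) (v : P → Fin (N + 2) → K) (R : ℝ)
    (hR : ∀ u : Fin (N + 2) → K → ℂ, (∀ i x, ‖u i x‖ ≤ 1) →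
      ‖∑ j, c j * ∏ i, u i (v j i)‖ ≤ R) :
    ‖∑ j, c j * ∑ s ∈ T, θ s * Γ a s (v j)‖ ≤ C * R := by
  let eq := Fintype.equivFin P
  have h1 := hΓ a ha T θ hθ (Fintype.card P) (c ∘ eq.symm) (v ∘ eq.symm) R (by
    intro u hu
    have h2 := hR u hu
    rw [← Equiv.sum_comp eq.symm] at h2
    exact h2)
  rw [← Equiv.sum_comp eq.symm]
  exact h1

theorem lc_add {α : Type*} (G G' : α → ℂ) (x : α →₀ ℂ) :
    Finsupp.linearCombination ℂ (fun I => G I + G' I) x =
      Finsupp.linearCombination ℂ G x + Finsupp.linearCombination ℂ G' x := by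
  simp only [Finsupp.linearCombination_apply, smul_add, Finsupp.sum_add]

theorem lc_smul {α : Type*} (a : ℂ) (G : α → ℂ) (x : α →₀ ℂ) :
    Finsupp.linearCombination ℂ (fun I => a • G I) x = a • Finsupp.linearCombination ℂ G x := by
  simp only [Finsupp.linearCombination_apply, Finsupp.smul_sum, smul_comm a]

section Main

variable {ι : Type*} [DecidableEq ι] {K : Type*} [TopologicalSpace K] [CompactSpace K] {N : ℕ}
    (Γ : (Fin N → C(K, ℂ)) → K → (Fin (N + 2) → K) → ℂ)
    (t : ℕ → K) (φ : ℕ → C(K, ℂ)) (e : Fin N → ι) (r : ι)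

/-- the multilinear extension of the functional -/
noncomputable def Fhat (c : ι → (ℕ × ℕ →₀ ℂ)) (v : Fin (N + 2) → K) : ℂ :=
  Finsupp.linearCombination ℂ (fun I : ℕ × ℕ =>
    Γ (fun p => Finsupp.linearCombination ℂ (cell φ) (c (e p))) (t I.1) v) (c r)

omit [DecidableEq ι] [CompactSpace K] in
theorem Fhat_single (k : ι → ℕ × ℕ) (v : Fin (N + 2) → K) :
    Fhat Γ t φ e r (fun i => Finsupp.single (k i) 1) v =
      Γ (fun i => cell φ (k (e i))) (t (k r).1) v := by
  simp [Fhat, Finsupp.linearCombination_single]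

omit [CompactSpace K] in
theorem Fhat_lin_or_const
    (hlin : ∀ (a : Fin N → C(K, ℂ)) (i : Fin N) (s : K) (v : Fin (N + 2) → K),
      ∃ f : C(K, ℂ) →L[ℂ] ℂ, ∀ ψ, Γ (update a i ψ) s v = f ψ)
    (he : Injective e) (hr : ∀ i, e i ≠ r) (i : ι) :
    (∀ c v, IsLinearMap ℂ (fun f => Fhat Γ t φ e r (update c i f) v)) ∨
    (∀ c v f f', Fhat Γ t φ e r (update c i f) v = Fhat Γ t φ e r (update c i f') v) := by
  by_cases h1 : ∃ p, e p = i
  · left
    obtain ⟨p0, hp0⟩ := h1
    intro c v
    have hir : r ≠ i := fun h => hr p0 (by rw [hp0, h])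
    have h2 : ∀ f, (fun p => Finsupp.linearCombination ℂ (cell φ) (update c i f (e p))) =
        update (fun p => Finsupp.linearCombination ℂ (cell φ) (c (e p))) p0
          (Finsupp.linearCombination ℂ (cell φ) f) := by
      intro f
      ext1 p
      rcases eq_or_ne p p0 with h | h
      · rw [h, hp0, update_self, update_self]
      · rw [update_of_ne h, update_of_ne]
        intro h3
        exact h (he (by rw [h3, hp0]))
    choose g hg using fun s => hlin (fun p => Finsupp.linearCombination ℂ (cell φ) (c (e p))) p0 s v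
    have h3 : ∀ f, Fhat Γ t φ e r (update c i f) v =
        Finsupp.linearCombination ℂ (fun I : ℕ × ℕ =>
          g (t I.1) (Finsupp.linearCombination ℂ (cell φ) f)) (c r) := by
      intro f
      simp only [Fhat, h2, hg, update_of_ne hir]
    constructor
    · intro f f'
      simp only [h3, map_add]
      exact lc_add _ _ _
    · intro a f
      simp only [h3, map_smul]
      exact lc_smul _ _ _
  · push Not at h1
    by_cases h2 : r = i
    · left
      intro c v
      have h3 : ∀ f, (fun p => Finsupp.linearCombination ℂ (cell φ) (update c i f (e p))) =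
          fun p => Finsupp.linearCombination ℂ (cell φ) (c (e p)) := by
        intro f
        ext1 p
        rw [update_of_ne (h1 p)]
      constructor
      · intro f f'
        simp only [Fhat, h3, h2, update_self, map_add]
      · intro a f
        simp only [Fhat, h3, h2, update_self, map_smul]
    · right
      intro c v f f'
      have h3 : ∀ f, (fun p => Finsupp.linearCombination ℂ (cell φ) (update c i f (e p))) =
          fun p => Finsupp.linearCombination ℂ (cell φ) (c (e p)) := by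
        intro f
        ext1 p
        rw [update_of_ne (h1 p)]
      simp only [Fhat, h3, update_of_ne h2]

theorem vb2_Gamma
    (hlin : ∀ (a : Fin N → C(K, ℂ)) (i : Fin N) (s : K) (v : Fin (N + 2) → K),
      ∃ f : C(K, ℂ) →L[ℂ] ℂ, ∀ ψ, Γ (update a i ψ) s v = f ψ)
    (C : ℝ) (hC : 0 ≤ C) (hbd : MeasBd Γ C)
    (h01 : ∀ l x, (φ l x).im = 0 ∧ 0 ≤ (φ l x).re ∧ (φ l x).re ≤ 1)
    (h1 : ∀ l j, l ≤ j → φ l (t j) = 1) (h0 : ∀ l j, j < l → φ l (t j) = 0)
    (hmul : ∀ l l', l < l' → φ l * φ l' = φ l')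
    (he : Injective e) (hr : ∀ i, e i ≠ r) (σ : Fin (N + 2) → ι) :
    VB2 (fun k : ι → ℕ × ℕ =>
      Γ (fun i => cell φ (k (e i))) (t (k r).1) (fun i => t (k (σ i)).1)) C := by
  intro i j hij k M L hL μ R hμ
  have hR0 : 0 ≤ R := (norm_nonneg _).trans (hμ (fun _ => 0) (fun _ => 0) (by simp) (by simp))
  rcases Nat.eq_zero_or_pos M with hM | hM
  · subst hM
    simp only [Finset.univ_eq_empty, Finset.sum_empty, norm_zero]
    positivity
  -- injectivity of t on the ladder
  have htinj : Injective t := by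
    intro a b hab
    by_contra hne
    rcases lt_or_gt_of_ne hne with h | h
    · have e1 := h1 b b le_rfl
      have e2 := h0 b a h
      rw [hab, e1] at e2
      exact one_ne_zero e2
    · have e1 := h1 a a le_rfl
      have e2 := h0 a b h
      rw [← hab, e1] at e2
      exact one_ne_zero e2
  have hLinj : Injective fun s => (L s).1 := by
    intro a b hab
    by_contra hne
    rcases lt_or_gt_of_ne hne with h | h
    · have e1 := hL.2 a b h
      have e2 := hL.1 a
      have e3 : (L a).1 = (L b).1 := hab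
      omega
    · have e1 := hL.2 b a h
      have e2 := hL.1 b
      have e3 : (L a).1 = (L b).1 := hab
      omega
  have hτinj : Injective fun s => t (L s).1 := htinj.comp hLinj
  -- contents
  let cont : (Fin M → ℂ) → (ℕ × ℕ →₀ ℂ) := fun x => ∑ s, x s • Finsupp.single (L s) 1
  have hcont_single : ∀ s, cont (Pi.single s 1) = Finsupp.single (L s) 1 := by
    intro s
    simp only [cont]
    rw [Finset.sum_eq_single s]
    · simp
    · intro s' _ h
      rw [Pi.single_eq_of_ne h, zero_smul]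
    · intro h
      exact absurd (Finset.mem_univ s) h
  have hcont_lin : ∀ Ψ : (ℕ × ℕ →₀ ℂ) → ℂ, IsLinearMap ℂ Ψ → IsLinearMap ℂ (fun x => Ψ (cont x)) := by
    intro Ψ hΨ
    constructor
    · intro x y
      have : cont (x + y) = cont x + cont y := by
        simp only [cont, Pi.add_apply, add_smul, Finset.sum_add_distrib]
      rw [this, hΨ.map_add]
    · intro a x
      have : cont (a • x) = a • cont x := by
        simp only [cont, Pi.smul_apply, smul_assoc, Finset.smul_sum]
      rw [this, hΨ.map_smul]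
  let base : ι → (ℕ × ℕ →₀ ℂ) := fun i => Finsupp.single (k i) 1
  let c : (Fin M → ℂ) → (Fin M → ℂ) → ι → (ℕ × ℕ →₀ ℂ) := fun x y =>
    update (update base i (cont x)) j (cont y)
  have hdec : ∀ i' : ι, ∃ D : Dec M, ∀ c' v,
      D.Good (fun x => Fhat Γ t φ e r (update c' i' (cont x)) v) := by
    intro i'
    rcases Fhat_lin_or_const Γ t φ e r hlin he hr i' with h | h
    · obtain ⟨D, hD⟩ := exists_dec_lin M hM
      exact ⟨D, fun c' v => hD _ (hcont_lin _ (h c' v))⟩
    · obtain ⟨D, hD⟩ := exists_dec_const M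
      exact ⟨D, fun c' v => hD _ (fun x y => h c' v _ _)⟩
  obtain ⟨D, hD⟩ := hdec i
  obtain ⟨D', hD'⟩ := hdec j
  let vv : Fin M → Fin M → Fin (N + 2) → K := fun s u m =>
    t (update (update k i (L s)) j (L u) (σ m)).1
  -- the decoupled expression
  have e1 : ∀ s u, Γ (fun p => cell φ (update (update k i (L s)) j (L u) (e p)))
      (t (update (update k i (L s)) j (L u) r).1) (vv s u) =
      ∑ h, ∑ h', (D.p h : ℂ) * D.w h s * ((D'.p h' : ℂ) * D'.w h' u *
        Fhat Γ t φ e r (c (D.x h) (D'.x h')) (vv s u)) := by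
    intro s u
    rw [← Fhat_single Γ t φ e r (update (update k i (L s)) j (L u)) (vv s u)]
    have f1 : (fun i' => (Finsupp.single (update (update k i (L s)) j (L u) i') 1 : ℕ × ℕ →₀ ℂ)) =
        update (update base j (cont (Pi.single u 1))) i (cont (Pi.single s 1)) := by
      rw [hcont_single, hcont_single, update_comm hij.symm]
      ext1 i'
      by_cases g1 : i' = j
      · subst g1
        simp
      · rw [update_of_ne g1, update_of_ne g1]
        by_cases g2 : i' = i
        · subst g2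
          simp
        · rw [update_of_ne g2, update_of_ne g2]
    rw [f1]
    refine (hD _ _ s).trans ?_
    refine Finset.sum_congr rfl fun h _ => ?_
    have f2 : update (update base j (cont (Pi.single u 1))) i (cont (D.x h)) =
        update (update base i (cont (D.x h))) j (cont (Pi.single u 1)) := update_comm hij.symm _ _ _
    dsimp only
    rw [f2]
    have f3 := hD' (update base i (cont (D.x h))) (vv s u) u
    dsimp only at f3
    rw [f3, Finset.mul_sum]
  -- the bound for fixed signs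
  have e2 : ∀ h h', ‖∑ s, ∑ u, (μ s u * D.w h s * D'.w h' u) *
      Fhat Γ t φ e r (c (D.x h) (D'.x h')) (vv s u)‖ ≤ C * R := by
    intro h h'
    set x := D.x h with hxdef
    set y := D'.x h' with hydef
    have hx1 : ∀ s, ‖x s‖ ≤ 1 := D.hx h
    have hy1 : ∀ s, ‖y s‖ ≤ 1 := D'.hx h'
    have hcell : ∀ x : Fin M → ℂ, (∀ s, ‖x s‖ ≤ 1) →
        ‖Finsupp.linearCombination ℂ (cell φ) (cont x)‖ ≤ 1 := by
      intro x hx
      simp only [cont, map_sum, map_smul, Finsupp.linearCombination_single, one_smul]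
      exact norm_sum_cell_le φ h01 hmul L hL x hx
    have ha : ∀ p, ‖Finsupp.linearCombination ℂ (cell φ) (c x y (e p))‖ ≤ 1 := by
      intro p
      simp only [c]
      by_cases g1 : e p = j
      · rw [g1, update_self]
        exact hcell y hy1
      · rw [update_of_ne g1]
        by_cases g2 : e p = i
        · rw [g2, update_self]
          exact hcell x hx1
        · rw [update_of_ne g2]
          simp only [base, Finsupp.linearCombination_single, one_smul]
          exact norm_cell_le φ h01 _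
    have hT : ∃ (T : Finset K) (θ : K → ℂ), (∀ s, ‖θ s‖ ≤ 1) ∧ ∀ g : K → ℂ,
        ∑ s ∈ T, θ s * g s = Finsupp.linearCombination ℂ (fun I : ℕ × ℕ => g (t I.1)) (c x y r) := by
      have hcont : ∀ x : Fin M → ℂ, (∀ s, ‖x s‖ ≤ 1) →
        ∃ (T : Finset K) (θ : K → ℂ), (∀ s, ‖θ s‖ ≤ 1) ∧ ∀ g : K → ℂ,
        ∑ s ∈ T, θ s * g s = Finsupp.linearCombination ℂ (fun I : ℕ × ℕ => g (t I.1)) (cont x) := by
        intro x hx
        obtain ⟨T, θ, hθ, hg⟩ := exists_T (fun s => t (L s).1) hτinj x hx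
        refine ⟨T, θ, hθ, fun g => ?_⟩
        rw [hg]
        simp only [cont, map_sum, map_smul, Finsupp.linearCombination_single, smul_eq_mul, one_mul]
      simp only [c]
      by_cases g1 : r = j
      · rw [g1, update_self]
        exact hcont y hy1
      · rw [update_of_ne g1]
        by_cases g2 : r = i
        · rw [g2, update_self]
          exact hcont x hx1
        · rw [update_of_ne g2]
          refine ⟨{t (k r).1}, fun _ => 1, by simp, fun g => ?_⟩
          simp only [base, Finsupp.linearCombination_single, one_smul, Finset.sum_singleton, one_mul]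
    obtain ⟨T, θ, hθ, hg⟩ := hT
    have e3 : ∀ s u, Fhat Γ t φ e r (c x y) (vv s u) =
        ∑ q ∈ T, θ q * Γ (fun p => Finsupp.linearCombination ℂ (cell φ) (c x y (e p))) q (vv s u) := by
      intro s u
      exact (hg (fun q => Γ (fun p => Finsupp.linearCombination ℂ (cell φ) (c x y (e p))) q
        (vv s u))).symm
    simp only [e3]
    rw [← Fintype.sum_prod_type' (fun s u => (μ s u * D.w h s * D'.w h' u) *
      ∑ q ∈ T, θ q * Γ (fun p => Finsupp.linearCombination ℂ (cell φ) (c x y (e p))) q (vv s u))]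
    refine hbd.fintype _ ha T θ hθ
      (fun z : Fin M × Fin M => μ z.1 z.2 * D.w h z.1 * D'.w h' z.2) (fun z => vv z.1 z.2) R ?_
    intro u hu
    rw [Fintype.sum_prod_type (fun z : Fin M × Fin M => (μ z.1 z.2 * D.w h z.1 * D'.w h' z.2) *
      ∏ m, u m (vv z.1 z.2 m))]
    -- factorisation
    let X : Fin M → ℂ := fun s => D.w h s * ∏ m, (if σ m = i then u m (t (L s).1) else 1)
    let Y : Fin M → ℂ := fun s => D'.w h' s * ((∏ m, (if σ m = j then u m (t (L s).1) else 1)) *
      ∏ m, (if σ m = i then 1 else if σ m = j then 1 else u m (t (k (σ m)).1)))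
    have hfac : ∀ s u', (μ s u' * D.w h s * D'.w h' u') * ∏ m, u m (vv s u' m) =
        μ s u' * X s * Y u' := by
      intro s u'
      have g1 : ∏ m, u m (vv s u' m) = (∏ m, (if σ m = i then u m (t (L s).1) else 1)) *
          ((∏ m, (if σ m = j then u m (t (L u').1) else 1)) *
          ∏ m, (if σ m = i then 1 else if σ m = j then 1 else u m (t (k (σ m)).1))) := by
        rw [← Finset.prod_mul_distrib, ← Finset.prod_mul_distrib]
        refine Finset.prod_congr rfl fun m _ => ?_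
        simp only [vv]
        by_cases g1 : σ m = i
        · have g2 : σ m ≠ j := by rw [g1]; exact hij
          rw [if_pos g1, if_neg g2, if_pos g1, update_of_ne g2, g1, update_self]
          ring
        · by_cases g2 : σ m = j
          · rw [if_neg g1, if_pos g2, if_neg g1, if_pos g2, g2, update_self]
            ring
          · rw [if_neg g1, if_neg g2, if_neg g1, if_neg g2, update_of_ne g2, update_of_ne g1]
            ring
      rw [g1]
      simp only [X, Y]
      ring
    simp only [hfac]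
    refine hμ X Y ?_ ?_
    · intro s
      simp only [X]
      rw [norm_mul, norm_prod]
      refine mul_le_one₀ (D.hw h s) (Finset.prod_nonneg fun _ _ => norm_nonneg _)
        (Finset.prod_le_one (fun _ _ => norm_nonneg _) fun m _ => ?_)
      split_ifs
      · exact hu _ _
      · simp
    · intro s
      simp only [Y]
      rw [norm_mul, norm_mul, norm_prod, norm_prod]
      refine mul_le_one₀ (D'.hw h' s) (by positivity) (mul_le_one₀ ?_ ?_ ?_)
      · refine Finset.prod_le_one (fun _ _ => norm_nonneg _) fun m _ => ?_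
        split_ifs
        · exact hu _ _
        · simp
      · exact Finset.prod_nonneg fun _ _ => norm_nonneg _
      · refine Finset.prod_le_one (fun _ _ => norm_nonneg _) fun m _ => ?_
        split_ifs
        · simp
        · simp
        · exact hu _ _
  -- conclusion
  have e4 : ∑ s, ∑ u, μ s u * Γ (fun p => cell φ (update (update k i (L s)) j (L u) (e p)))
      (t (update (update k i (L s)) j (L u) r).1) (vv s u) =
      ∑ h, ∑ h', ((D.p h : ℂ) * (D'.p h' : ℂ)) * ∑ s, ∑ u, (μ s u * D.w h s * D'.w h' u) *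
        Fhat Γ t φ e r (c (D.x h) (D'.x h')) (vv s u) := by
    simp only [e1, Finset.mul_sum]
    rw [show (∑ s, ∑ u, ∑ h, ∑ h', μ s u * ((D.p h : ℂ) * D.w h s * ((D'.p h' : ℂ) * D'.w h' u *
        Fhat Γ t φ e r (c (D.x h) (D'.x h')) (vv s u)))) =
        ∑ s, ∑ h, ∑ u, ∑ h', μ s u * ((D.p h : ℂ) * D.w h s * ((D'.p h' : ℂ) * D'.w h' u *
        Fhat Γ t φ e r (c (D.x h) (D'.x h')) (vv s u))) from
      Finset.sum_congr rfl fun s _ => Finset.sum_comm]
    rw [Finset.sum_comm]
    refine Finset.sum_congr rfl fun h _ => ?_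
    rw [show (∑ s, ∑ u, ∑ h', μ s u * ((D.p h : ℂ) * D.w h s * ((D'.p h' : ℂ) * D'.w h' u *
        Fhat Γ t φ e r (c (D.x h) (D'.x h')) (vv s u)))) =
        ∑ s, ∑ h', ∑ u, μ s u * ((D.p h : ℂ) * D.w h s * ((D'.p h' : ℂ) * D'.w h' u *
        Fhat Γ t φ e r (c (D.x h) (D'.x h')) (vv s u))) from
      Finset.sum_congr rfl fun s _ => Finset.sum_comm]
    rw [Finset.sum_comm]
    refine Finset.sum_congr rfl fun h' _ => Finset.sum_congr rfl fun s _ =>
      Finset.sum_congr rfl fun u _ => ?_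
    ring
  change ‖∑ s, ∑ u, μ s u * Γ (fun p => cell φ (update (update k i (L s)) j (L u) (e p)))
      (t (update (update k i (L s)) j (L u) r).1) (vv s u)‖ ≤ C * R
  rw [e4]
  have hCR : 0 ≤ C * R := mul_nonneg hC hR0
  calc _ ≤ ∑ h, ∑ h', D.p h * D'.p h' * (C * R) := by
        refine (norm_sum_le _ _).trans (Finset.sum_le_sum fun h _ => ?_)
        refine (norm_sum_le _ _).trans (Finset.sum_le_sum fun h' _ => ?_)
        rw [norm_mul, norm_mul, Complex.norm_real, Complex.norm_real, Real.norm_eq_abs,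
          Real.norm_eq_abs, abs_of_nonneg (D.hp h), abs_of_nonneg (D'.hp h')]
        have g1 := D.hp h
        have g2 := D'.hp h'
        gcongr
        exact e2 h h'
    _ = (∑ h, D.p h) * (∑ h', D'.p h') * (C * R) := by
      rw [Finset.sum_mul_sum, Finset.sum_mul]
      refine Finset.sum_congr rfl fun h _ => ?_
      rw [Finset.sum_mul]
    _ ≤ 1 * 1 * (C * R) := by
      gcongr
      · exact Finset.sum_nonneg fun h _ => D'.hp h
      · exact D.hp1
      · exact D'.hp1
    _ = C * R := by ring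

end Main

end Pool.Agent.Lib.MP_1bca0d_an
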